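import Mathlib
import Pool.Agent.R404.TC.Cons

set_option autoImplicit false
set_option linter.unusedSectionVars false

/-!
`S`-units, `S`-integers and their heights.
-/

namespace Pool.Agent.Run7.h489.LV

open MvPolynomial Height NumberField IsDedekindDomain
open Pool.Agent.W180.OP (Pl av wt fv nrm le_nrm nrm_pos nrm_nonneg exists_nrm lam lam_eq wt_nonneg
  fv_support_finite)
open Pool.Agent.R404.TC (Sp cnt fmtS)

variable {K : Type} [Field K] [NumberField K]

/-- `x` is an `S`-unit -/
def IsU (S : Finset (HeightOneSpectrum (𝓞 K))) (x : K) : Prop := x ≠ 0 ∧ ∀ v ∉ S, fv v x = 1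

/-- `x` is an `S`-integer -/
def IsI (S : Finset (HeightOneSpectrum (𝓞 K))) (x : K) : Prop := ∀ v ∉ S, fv v x ≤ 1

variable {S : Finset (HeightOneSpectrum (𝓞 K))}

theorem fv_add (v : HeightOneSpectrum (𝓞 K)) (x y : K) : fv v (x + y) ≤ max (fv v x) (fv v y) :=
  FinitePlace.add_le (FinitePlace.mk v) x y

theorem IsU.ne {x : K} (h : IsU S x) : x ≠ 0 := h.1

theorem IsU.isI {x : K} (h : IsU S x) : IsI S x := fun v hv => (h.2 v hv).le

theorem IsU.mul {x y : K} (hx : IsU S x) (hy : IsU S y) : IsU S (x * y) :=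
  ⟨mul_ne_zero hx.1 hy.1, fun v hv => by rw [map_mul, hx.2 v hv, hy.2 v hv, one_mul]⟩

theorem IsU.inv {x : K} (hx : IsU S x) : IsU S x⁻¹ :=
  ⟨inv_ne_zero hx.1, fun v hv => by rw [map_inv₀, hx.2 v hv, inv_one]⟩

theorem IsU.one : IsU S (1 : K) := ⟨one_ne_zero, fun v _ => map_one _⟩

theorem IsU.pow {x : K} (hx : IsU S x) (n : ℕ) : IsU S (x ^ n) :=
  ⟨pow_ne_zero _ hx.1, fun v hv => by rw [map_pow, hx.2 v hv, one_pow]⟩

theorem IsU.zpow {x : K} (hx : IsU S x) (n : ℤ) : IsU S (x ^ n) :=
  ⟨zpow_ne_zero _ hx.1, fun v hv => by rw [map_zpow₀, hx.2 v hv, one_zpow]⟩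

theorem IsU.div {x y : K} (hx : IsU S x) (hy : IsU S y) : IsU S (x / y) := by
  rw [div_eq_mul_inv]
  exact hx.mul hy.inv

theorem IsU.of_pow {x : K} {n : ℕ} (hn : 0 < n) (hx : IsU S (x ^ n)) : IsU S x := by
  refine ⟨fun h => hx.1 (by rw [h, zero_pow hn.ne']), fun v hv => ?_⟩
  have h1 := hx.2 v hv
  rw [map_pow] at h1
  exact (pow_eq_one_iff_of_nonneg ((fv v).nonneg x) hn.ne').1 h1

theorem IsU.mono {S' : Finset (HeightOneSpectrum (𝓞 K))} (h : S ⊆ S') {x : K} (hx : IsU S x) :
    IsU S' x := ⟨hx.1, fun v hv => hx.2 v fun hv' => hv (h hv')⟩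

theorem IsI.mono {S' : Finset (HeightOneSpectrum (𝓞 K))} (h : S ⊆ S') {x : K} (hx : IsI S x) :
    IsI S' x := fun v hv => hx v fun hv' => hv (h hv')

theorem IsI.mul {x y : K} (hx : IsI S x) (hy : IsI S y) : IsI S (x * y) := fun v hv => by
  rw [map_mul]
  exact mul_le_one₀ (hx v hv) ((fv v).nonneg _) (hy v hv)

theorem IsI.add {x y : K} (hx : IsI S x) (hy : IsI S y) : IsI S (x + y) := fun v hv =>
  (fv_add v x y).trans (max_le (hx v hv) (hy v hv))

theorem IsI.zero : IsI S (0 : K) := fun v _ => by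
  rw [map_zero]
  exact zero_le_one

theorem IsI.one : IsI S (1 : K) := IsU.one.isI

theorem IsI.neg {x : K} (hx : IsI S x) : IsI S (-x) := fun v hv => by
  rw [AbsoluteValue.map_neg]
  exact hx v hv

theorem IsI.pow {x : K} (hx : IsI S x) (n : ℕ) : IsI S (x ^ n) := fun v hv => by
  rw [map_pow]
  exact pow_le_one₀ ((fv v).nonneg _) (hx v hv)

theorem IsI.sum {ι : Type} (s : Finset ι) (f : ι → K) (h : ∀ i ∈ s, IsI S (f i)) :
    IsI S (∑ i ∈ s, f i) := by
  classical
  induction s using Finset.induction_on with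
  | empty => rw [Finset.sum_empty]; exact IsI.zero
  | insert a s ha ih =>
    rw [Finset.sum_insert ha]
    exact (h a (Finset.mem_insert_self a s)).add (ih fun i hi => h i (Finset.mem_insert_of_mem hi))

theorem IsI.prod {ι : Type} (s : Finset ι) (f : ι → K) (h : ∀ i ∈ s, IsI S (f i)) :
    IsI S (∏ i ∈ s, f i) := by
  classical
  induction s using Finset.induction_on with
  | empty => rw [Finset.prod_empty]; exact IsI.one
  | insert a s ha ih =>
    rw [Finset.prod_insert ha]
    exact (h a (Finset.mem_insert_self a s)).mul (ih fun i hi => h i (Finset.mem_insert_of_mem hi))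

/-- every finite set of numbers is `S`-integral, the nonzero ones are `S`-units, for large `S` -/
theorem exists_big (T : Finset K) (S : Finset (HeightOneSpectrum (𝓞 K))) :
    ∃ S' : Finset (HeightOneSpectrum (𝓞 K)), S ⊆ S' ∧ ∀ x ∈ T, IsI S' x ∧ (x ≠ 0 → IsU S' x) := by
  classical
  have h1 : ∀ x : K, ∃ A : Finset (HeightOneSpectrum (𝓞 K)), x ≠ 0 → IsU A x := by
    intro x
    by_cases hx : x = 0
    · exact ⟨∅, fun h => absurd hx h⟩
    · refine ⟨(fv_support_finite hx).toFinset, fun _ => ⟨hx, fun v hv => ?_⟩⟩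
      by_contra h
      exact hv ((Set.Finite.mem_toFinset _).2 h)
  choose A hA using h1
  refine ⟨S ∪ T.biUnion A, Finset.subset_union_left, fun x hx => ?_⟩
  have h2 : x ≠ 0 → IsU (S ∪ T.biUnion A) x := fun h =>
    (hA x h).mono ((Finset.subset_biUnion_of_mem A hx).trans Finset.subset_union_right)
  refine ⟨?_, h2⟩
  by_cases h : x = 0
  · rw [h]
    exact IsI.zero
  · exact (h2 h).isI

/-- a root of a monic polynomial with `S`-integral coefficients is `S`-integral -/
theorem IsI.root {n : ℕ} (hn : 0 < n) (c : ℕ → K) (hc : ∀ j < n, IsI S (c j)) {y : K}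
    (h : IsI S (y ^ n + ∑ j ∈ Finset.range n, c j * y ^ j)) : IsI S y := by
  intro v hv
  by_contra hcon
  push Not at hcon
  have h1 := h v hv
  have hy0 : y ≠ 0 := by
    rintro rfl
    rw [map_zero] at hcon
    linarith
  have hsum : ∀ s : Finset ℕ, (∀ j ∈ s, j < n) →
      fv v (∑ j ∈ s, c j * y ^ j) ≤ fv v y ^ (n - 1) := by
    intro s
    induction s using Finset.induction_on with
    | empty =>
      intro _
      rw [Finset.sum_empty, map_zero]
      exact pow_nonneg ((fv v).nonneg _) _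
    | insert a s ha ih =>
      intro hs
      rw [Finset.sum_insert ha]
      refine (fv_add v _ _).trans (max_le ?_ (ih fun j hj => hs j (Finset.mem_insert_of_mem hj)))
      rw [map_mul, map_pow]
      have ha' := hs a (Finset.mem_insert_self a s)
      have h2 : fv v y ^ a ≤ fv v y ^ (n - 1) := pow_le_pow_right₀ hcon.le (by omega)
      have h3 : 0 ≤ fv v y ^ a := pow_nonneg ((fv v).nonneg _) _
      nlinarith [hc a ha' v hv, (fv v).nonneg (c a)]
  have h2 := hsum (Finset.range n) fun j hj => Finset.mem_range.1 hj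
  have h3 : y ^ n = (y ^ n + ∑ j ∈ Finset.range n, c j * y ^ j) +
      -(∑ j ∈ Finset.range n, c j * y ^ j) := by ring
  have h4 : fv v (y ^ n) ≤ max 1 (fv v y ^ (n - 1)) := by
    rw [h3]
    refine (fv_add v _ _).trans (max_le_max h1 ?_)
    rw [AbsoluteValue.map_neg]
    exact h2
  have h5 : 1 ≤ fv v y ^ (n - 1) := one_le_pow₀ hcon.le
  rw [max_eq_right h5, map_pow] at h4
  have h6 : fv v y ^ (n - 1) < fv v y ^ n := pow_lt_pow_right₀ hcon (by omega)
  linarith

theorem wt_pos (v : Pl K) : 1 ≤ wt v := by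
  rcases v with w | p
  · show (1 : ℝ) ≤ (w.mult : ℝ)
    exact_mod_cast InfinitePlace.mult_pos
  · exact le_rfl

theorem mem_Sp_inl (w : InfinitePlace K) : (Sum.inl w : Pl K) ∈ Sp S :=
  Finset.inl_mem_disjSum.2 (Finset.mem_univ w)

theorem mem_Sp_inr {v : HeightOneSpectrum (𝓞 K)} : (Sum.inr v : Pl K) ∈ Sp S ↔ v ∈ S :=
  Finset.inr_mem_disjSum

theorem Sp_mono {S' : Finset (HeightOneSpectrum (𝓞 K))} (h : S ⊆ S') : Sp S ⊆ Sp S' := by
  intro v hv
  rcases v with w | p
  · exact mem_Sp_inl w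
  · exact mem_Sp_inr.2 (h (mem_Sp_inr.1 hv))

theorem log_av_out {x : K} (hx : IsU S x) {v : Pl K} (hv : v ∉ Sp S) : Real.log (av v x) = 0 := by
  rcases v with w | p
  · exact absurd (mem_Sp_inl w) hv
  · have h1 : av (Sum.inr p) x = 1 := hx.2 p fun h => hv (mem_Sp_inr.2 h)
    rw [h1, Real.log_one]

/-- the local heights of a coordinate which is a unit, of an integral point -/
theorem sum_lam {n : ℕ} {P : Fin n → K} (hP : ∀ i, IsI S (P i)) (j : Fin n) (hj : IsU S (P j)) :
    ∑ v ∈ Sp S, wt v * (Real.log (nrm (av v) P) - Real.log (av v (P j))) = logHeight P := by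
  have hP0 : P ≠ 0 := fun h => hj.1 (by rw [h]; rfl)
  have he : eval P (X j : MvPolynomial (Fin n) K) = P j := eval_X j
  have h1 := fmtS 1 (X j : MvPolynomial (Fin n) K) hP0 (by rw [he]; exact hj.1) S
  have h2 : cnt S 1 (X j : MvPolynomial (Fin n) K) P = 0 := by
    unfold cnt
    refine finsum_mem_eq_zero_of_forall_eq_zero fun v hv => ?_
    rw [lam_eq (fv v) 1 _ hP0 (by rw [he]; exact hj.1), he, hj.2 v hv, Real.log_one, Nat.cast_one,
      one_mul, sub_zero]
    have h3 : nrm (fv v) P = 1 := by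
      apply le_antisymm
      · obtain ⟨i, hi⟩ := exists_nrm (fv v) (Fin.pos j) P
        rw [← hi]
        exact hP i v hv
      · have := le_nrm (fv v) P j
        rwa [hj.2 v hv] at this
    rw [h3, Real.log_one]
  rw [h2, sub_zero, Nat.cast_one, one_mul] at h1
  rw [← h1]
  refine Finset.sum_congr rfl fun v _ => ?_
  rw [lam_eq (av v) 1 _ hP0 (by rw [he]; exact hj.1), he, Nat.cast_one, one_mul]

/-- the product formula for `S`-units -/
theorem prod_formula {x : K} (hx : IsU S x) : ∑ v ∈ Sp S, wt v * Real.log (av v x) = 0 := by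
  have hP : ∀ i, IsI S ((![1, x] : Fin 2 → K) i) := by
    intro i
    fin_cases i
    · exact IsI.one
    · exact hx.isI
  have h1 := sum_lam hP 0 IsU.one
  have h2 := sum_lam hP 1 hx
  simp only [mul_sub, Finset.sum_sub_distrib] at h1 h2
  have h3 : ∀ v : Pl K, Real.log (av v ((![1, x] : Fin 2 → K) 0)) = 0 := fun v => by
    show Real.log (av v 1) = 0
    rw [map_one, Real.log_one]
  simp only [h3, mul_zero, Finset.sum_const_zero, sub_zero] at h1
  have h4 : ∑ v ∈ Sp S, wt v * Real.log (av v ((![1, x] : Fin 2 → K) 1)) =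
      ∑ v ∈ Sp S, wt v * Real.log (av v x) := rfl
  rw [h4] at h2
  linarith

/-- the height of an integral point with a coordinate which is a unit -/
theorem height_eq {n : ℕ} {P : Fin n → K} (hP : ∀ i, IsI S (P i)) (j : Fin n) (hj : IsU S (P j)) :
    logHeight P = ∑ v ∈ Sp S, wt v * Real.log (nrm (av v) P) := by
  have h1 := sum_lam hP j hj
  simp only [mul_sub, Finset.sum_sub_distrib] at h1
  rw [prod_formula hj, sub_zero] at h1
  exact h1.symm

theorem height1_eq {x : K} (hx : IsI S x) :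
    logHeight₁ x = ∑ v ∈ Sp S, wt v * max 0 (Real.log (av v x)) := by
  have hP : ∀ i, IsI S ((![x, 1] : Fin 2 → K) i) := by
    intro i
    fin_cases i
    · exact hx
    · exact IsI.one
  rw [logHeight₁_eq_logHeight, height_eq hP 1 IsU.one]
  refine Finset.sum_congr rfl fun v _ => ?_
  congr 1
  have h1 : nrm (av v) (![x, 1] : Fin 2 → K) = max (av v x) 1 := by
    apply le_antisymm
    · obtain ⟨i, hi⟩ := exists_nrm (av v) two_pos (![x, 1] : Fin 2 → K)
      rw [← hi]
      fin_cases i
      · exact le_max_left _ _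
      · have h2 : av v ((![x, 1] : Fin 2 → K) 1) = 1 := map_one _
        exact h2.le.trans (le_max_right _ _)
    · refine max_le (le_nrm (av v) (![x, 1] : Fin 2 → K) 0) ?_
      have h2 : av v ((![x, 1] : Fin 2 → K) 1) = 1 := map_one _
      have h3 := le_nrm (av v) (![x, 1] : Fin 2 → K) 1
      rwa [h2] at h3
  rw [h1]
  by_cases h0 : x = 0
  · rw [h0, map_zero, max_eq_right zero_le_one, Real.log_one, Real.log_zero, max_self]
  · have hpos : 0 < av v x := (av v).pos h0
    rcases le_total (av v x) 1 with h | h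
    · rw [max_eq_right h, Real.log_one, max_eq_left (Real.log_nonpos hpos.le h)]
    · rw [max_eq_left h, max_eq_right (Real.log_nonneg h)]

theorem abs_log_le {x : K} (hx : IsU S x) {v : Pl K} (hv : v ∈ Sp S) :
    |Real.log (av v x)| ≤ logHeight₁ x := by
  have h1 : ∀ y : K, IsU S y → Real.log (av v y) ≤ logHeight₁ y := by
    intro y hy
    rw [height1_eq hy.isI]
    have h2 : wt v * max 0 (Real.log (av v y)) ≤
        ∑ v ∈ Sp S, wt v * max 0 (Real.log (av v y)) :=
      Finset.single_le_sum (f := fun v => wt v * max 0 (Real.log (av v y)))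
        (fun v _ => mul_nonneg (wt_nonneg v) (le_max_left _ _)) hv
    have h3 := wt_pos v
    have h4 : Real.log (av v y) ≤ max 0 (Real.log (av v y)) := le_max_right _ _
    have h5 : 0 ≤ max 0 (Real.log (av v y)) := le_max_left _ _
    nlinarith
  rw [abs_le]
  constructor
  · have h2 := h1 _ hx.inv
    rw [map_inv₀, Real.log_inv, logHeight₁_inv] at h2
    linarith
  · exact h1 x hx

end Pool.Agent.Run7.h489.LV
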