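import Mathlib

set_option autoImplicit false
set_option linter.unusedSectionVars false

/-!
Monomial maps between polynomial rings: the kernel, and descent of memberships to the source.
-/

namespace Pool.Agent.Run7.h489.LV

open MvPolynomial

section mono

variable {σ τ : Type} [DecidableEq σ] [DecidableEq τ] (e : σ → τ →₀ ℕ)

/-- the map of the exponents -/
noncomputable def E : (σ →₀ ℕ) →+ (τ →₀ ℕ) := (Finsupp.linearCombination ℕ e).toAddMonoidHom

theorem E_apply (α : σ →₀ ℕ) : E e α = α.sum fun i k => k • e i := rfl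

theorem E_single (i : σ) (k : ℕ) : E e (Finsupp.single i k) = k • e i := by
  rw [E_apply, Finsupp.sum_single_index (by simp)]

/-- the monomial map -/
noncomputable def Ph (L : Type) [CommRing L] : MvPolynomial σ L →ₐ[L] MvPolynomial τ L :=
  aeval fun i => monomial (e i) 1

variable {L : Type} [CommRing L]

theorem Ph_monomial (α : σ →₀ ℕ) (c : L) : Ph e L (monomial α c) = monomial (E e α) c := by
  rw [Ph, aeval_monomial, E_apply, monomial_finsupp_sum_index]
  congr 1
  refine Finsupp.prod_congr fun i _ => ?_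
  rw [monomial_pow, one_pow]

theorem Ph_X (i : σ) : Ph e L (X i) = monomial (e i) 1 := by
  rw [Ph, aeval_X]

/-- the binomials in the kernel -/
def bin (L : Type) [CommRing L] : Set (MvPolynomial σ L) :=
  {p | ∃ α β : σ →₀ ℕ, E e α = E e β ∧ p = monomial α 1 - monomial β 1}

/-- a submonoid of exponents which is the image of `E`, closed under differences -/
structure Pure (Λ : (τ →₀ ℕ) → Prop) (s : (τ →₀ ℕ) → (σ →₀ ℕ)) : Prop where
  mem : ∀ α, Λ (E e α)
  sec : ∀ m, Λ m → E e (s m) = m
  add : ∀ m m', Λ m → Λ m' → Λ (m + m')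
  sub : ∀ m m', Λ m → Λ (m' + m) → Λ m'

variable (Λ : (τ →₀ ℕ) → Prop) [DecidablePred Λ] (s : (τ →₀ ℕ) → (σ →₀ ℕ))

/-- lift of the polynomials -/
noncomputable def ps (L : Type) [CommRing L] : MvPolynomial τ L →ₗ[L] MvPolynomial σ L :=
  (basisMonomials τ L).constr L fun m => if Λ m then monomial (s m) 1 else 0

theorem ps_monomial (m : τ →₀ ℕ) (c : L) :
    ps Λ s L (monomial m c) = if Λ m then monomial (s m) c else 0 := by
  have h1 : (monomial m c : MvPolynomial τ L) = c • basisMonomials τ L m := by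
    rw [coe_basisMonomials, smul_monomial, smul_eq_mul, mul_one]
  rw [h1, map_smul, ps, Module.Basis.constr_basis]
  split_ifs
  · rw [smul_monomial, smul_eq_mul, mul_one]
  · rw [smul_zero]

variable {e Λ s}

theorem ps_map {R S : Type} [CommRing R] [CommRing S] (φ : R →+* S) (p : MvPolynomial τ R) :
    ps Λ s S (map φ p) = map φ (ps Λ s R p) := by
  induction p using MvPolynomial.induction_on' with
  | monomial m c =>
    rw [map_monomial, ps_monomial, ps_monomial]
    split_ifs
    · rw [map_monomial]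
    · rw [map_zero]
  | add p q hp hq => rw [map_add, map_add, hp, hq, map_add, map_add]

theorem Ph_map {R S : Type} [CommRing R] [CommRing S] (φ : R →+* S) (p : MvPolynomial σ R) :
    Ph e S (map φ p) = map φ (Ph e R p) := by
  induction p using MvPolynomial.induction_on' with
  | monomial m c =>
    rw [map_monomial, Ph_monomial, Ph_monomial, map_monomial]
  | add p q hp hq => rw [map_add, map_add, hp, hq, map_add, map_add]

theorem ps_Ph (hP : Pure e Λ s) (p : MvPolynomial σ L) :
    p - ps Λ s L (Ph e L p) ∈ Ideal.span (bin e L) := by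
  induction p using MvPolynomial.induction_on' with
  | monomial m c =>
    rw [Ph_monomial, ps_monomial, if_pos (hP.mem m)]
    have h1 : (monomial m c - monomial (s (E e m)) c : MvPolynomial σ L) =
        C c * (monomial m 1 - monomial (s (E e m)) 1) := by
      rw [mul_sub, C_mul_monomial, C_mul_monomial, mul_one]
    rw [h1]
    exact Ideal.mul_mem_left _ _ (Ideal.subset_span ⟨m, _, (hP.sec _ (hP.mem m)).symm, rfl⟩)
  | add p q hp hq =>
    have h1 : p + q - ps Λ s L (Ph e L (p + q)) =
        (p - ps Λ s L (Ph e L p)) + (q - ps Λ s L (Ph e L q)) := by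
      rw [map_add, map_add]
      ring
    rw [h1]
    exact Ideal.add_mem _ hp hq

theorem ker_le (hP : Pure e Λ s) {p : MvPolynomial σ L} (h : Ph e L p = 0) :
    p ∈ Ideal.span (bin e L) := by
  have h1 := ps_Ph hP p
  rwa [h, map_zero, sub_zero] at h1

theorem span_bin_le {p : MvPolynomial σ L} (h : p ∈ Ideal.span (bin e L)) : Ph e L p = 0 := by
  have h1 : Ideal.span (bin e L) ≤ RingHom.ker (Ph e L).toRingHom := by
    rw [Ideal.span_le]
    rintro _ ⟨α, β, h, rfl⟩
    show Ph e L (monomial α 1 - monomial β 1) = 0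
    rw [map_sub, Ph_monomial, Ph_monomial, h, sub_self]
  exact h1 h

/-- the projection is linear over the image -/
theorem Ph_ps_mul (hP : Pure e Λ s) (c : MvPolynomial τ L) (p : MvPolynomial σ L) :
    Ph e L (ps Λ s L (c * Ph e L p)) = Ph e L (ps Λ s L c) * Ph e L p := by
  induction c using MvPolynomial.induction_on' with
  | add c c' hc hc' => rw [add_mul, map_add, map_add, hc, hc', map_add, map_add, add_mul]
  | monomial m c =>
    induction p using MvPolynomial.induction_on' with
    | add p q hp hq =>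
      rw [map_add (Ph e L) p q, mul_add, map_add, map_add, hp, hq, mul_add]
    | monomial α b =>
      rw [Ph_monomial, monomial_mul, ps_monomial, ps_monomial]
      have h1 : Λ (m + E e α) ↔ Λ m :=
        ⟨fun h => hP.sub _ _ (hP.mem α) h, fun h => hP.add _ _ h (hP.mem α)⟩
      by_cases hm : Λ m
      · rw [if_pos (h1.2 hm), if_pos hm, Ph_monomial, Ph_monomial, hP.sec _ hm,
          hP.sec _ (h1.2 hm), monomial_mul]
      · rw [if_neg (fun h => hm (h1.1 h)), if_neg hm, map_zero, zero_mul]

theorem Ph_ps (hP : Pure e Λ s) (p : MvPolynomial σ L) :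
    Ph e L (ps Λ s L (Ph e L p)) = Ph e L p := by
  have h := span_bin_le (ps_Ph hP p)
  rw [map_sub, sub_eq_zero] at h
  exact h.symm

/-- descent of a membership -/
theorem descend (hP : Pure e Λ s) (A : Set (MvPolynomial σ L)) {p : MvPolynomial σ L}
    (h : Ph e L p ∈ Ideal.span (Ph e L '' A)) : p ∈ Ideal.span (bin e L) ⊔ Ideal.span A := by
  set J := Ideal.span (bin e L) ⊔ Ideal.span A with hJ
  have key : ∀ x ∈ Ideal.span (Ph e L '' A), ∀ c : MvPolynomial τ L, ps Λ s L (c * x) ∈ J := by
    intro x hx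
    refine Submodule.span_induction (p := fun x _ => ∀ c : MvPolynomial τ L,
      ps Λ s L (c * x) ∈ J) ?_ ?_ ?_ ?_ hx
    · rintro _ ⟨a, ha, rfl⟩ c
      have h1 : ps Λ s L (c * Ph e L a) - ps Λ s L c * a ∈ Ideal.span (bin e L) := by
        apply ker_le hP
        rw [map_sub, Ph_ps_mul hP, map_mul, sub_self]
      have h2 : ps Λ s L (c * Ph e L a) =
          (ps Λ s L (c * Ph e L a) - ps Λ s L c * a) + ps Λ s L c * a := by ring
      rw [h2]
      exact J.add_mem (Ideal.mem_sup_left h1)
        (J.mul_mem_left _ (Ideal.mem_sup_right (Ideal.subset_span ha)))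
    · intro c
      rw [mul_zero, map_zero]
      exact J.zero_mem
    · intro a b _ _ ha hb c
      rw [mul_add, map_add]
      exact J.add_mem (ha c) (hb c)
    · intro a b _ hb c
      rw [smul_eq_mul, ← mul_assoc]
      exact hb _
  have h1 := key _ h 1
  rw [one_mul] at h1
  have h2 : p = (p - ps Λ s L (Ph e L p)) + ps Λ s L (Ph e L p) := by ring
  rw [h2]
  exact J.add_mem (Ideal.mem_sup_left (ps_Ph hP p)) h1

/-- descent of the regularity -/
theorem reg_descend (hP : Pure e Λ s) (A : Set (MvPolynomial σ L)) {f : MvPolynomial σ L}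
    (h : ∀ u, Ph e L f * u ∈ Ideal.span (Ph e L '' A) → u ∈ Ideal.span (Ph e L '' A))
    (u : MvPolynomial σ L) (hu : f * u ∈ Ideal.span (bin e L) ⊔ Ideal.span A) :
    u ∈ Ideal.span (bin e L) ⊔ Ideal.span A := by
  apply descend hP
  apply h
  rw [← map_mul]
  obtain ⟨a, ha, b, hb, hab⟩ := Submodule.mem_sup.1 hu
  rw [← hab, map_add, span_bin_le ha, zero_add]
  have h1 : Ideal.span A ≤ (Ideal.span (Ph e L '' A)).comap (Ph e L).toRingHom := by
    rw [Ideal.span_le]
    intro x hx
    exact Ideal.subset_span ⟨x, hx, rfl⟩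
  exact h1 hb

end mono

/-- finitely many binomials generate the kernel, over all rings -/
theorem exists_gen {σ τ : Type} [DecidableEq σ] [DecidableEq τ] [Finite σ] (e : σ → τ →₀ ℕ) :
    ∃ (m : ℕ) (α β : Fin m → σ →₀ ℕ), (∀ j, E e (α j) = E e (β j)) ∧
      ∀ (L : Type) [CommRing L], Ideal.span (bin e L) =
        Ideal.span (Set.range fun j => (monomial (α j) 1 - monomial (β j) 1 : MvPolynomial σ L)) := by
  classical
  have hfg : (Submodule.span (MvPolynomial σ ℤ) (bin e ℤ)).FG := IsNoetherian.noetherian _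
  obtain ⟨T, hT, hspan⟩ := (Submodule.fg_span_iff_fg_span_finset_subset _).1 hfg
  have hch : ∀ p : T, ∃ αβ : (σ →₀ ℕ) × (σ →₀ ℕ), E e αβ.1 = E e αβ.2 ∧
      p.1 = monomial αβ.1 1 - monomial αβ.2 1 := by
    intro p
    obtain ⟨α, β, h1, h2⟩ := hT p.2
    exact ⟨(α, β), h1, h2⟩
  choose αβ h1 h2 using hch
  let eq := T.equivFin
  refine ⟨T.card, fun j => (αβ (eq.symm j)).1, fun j => (αβ (eq.symm j)).2, fun j => h1 _, ?_⟩
  intro L _
  apply le_antisymm
  · rw [Ideal.span_le]
    rintro _ ⟨α, β, h, rfl⟩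
    have h3 : (monomial α 1 - monomial β 1 : MvPolynomial σ ℤ) ∈ Ideal.span (T : Set (MvPolynomial σ ℤ)) := by
      have h4 : (monomial α 1 - monomial β 1 : MvPolynomial σ ℤ) ∈
          Submodule.span (MvPolynomial σ ℤ) (bin e ℤ) := Submodule.subset_span ⟨α, β, h, rfl⟩
      rw [hspan] at h4
      exact h4
    have h4 := Ideal.mem_map_of_mem (map (Int.castRingHom L)) h3
    rw [Ideal.map_span, map_sub, map_monomial, map_monomial, map_one] at h4
    refine Ideal.span_mono ?_ h4
    rintro _ ⟨p, hp, rfl⟩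
    refine ⟨eq ⟨p, hp⟩, ?_⟩
    have h5 := congrArg (map (Int.castRingHom L)) (h2 ⟨p, hp⟩)
    simp only [Equiv.symm_apply_apply]
    rw [map_sub, map_monomial, map_monomial, map_one] at h5
    exact h5.symm
  · rw [Ideal.span_le]
    rintro _ ⟨j, rfl⟩
    exact Ideal.subset_span ⟨_, _, h1 _, rfl⟩

end Pool.Agent.Run7.h489.LV
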