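import Mathlib
import Pool.Agent.Run7.h489.LV.Mono

set_option autoImplicit false
set_option linter.unusedSectionVars false

/-!
The Veronese map of degree `w` in two variables, together with `k` further variables of weight `w`.
-/

namespace Pool.Agent.Run7.h489.LV

open MvPolynomial

/-- the exponents -/
noncomputable def ex (w k : ℕ) : Fin (w + 1 + k) → Fin (k + 2) →₀ ℕ :=
  Fin.append (fun i : Fin (w + 1) => Finsupp.single 0 (w - i.1) + Finsupp.single 1 i.1)
    (fun j : Fin k => Finsupp.single j.succ.succ w)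

theorem ex_left {w k : ℕ} (i : Fin (w + 1)) : ex w k (Fin.castAdd k i) =
    Finsupp.single 0 (w - i.1) + Finsupp.single 1 i.1 := by
  rw [ex, Fin.append_left]

theorem ex_right {w k : ℕ} (j : Fin k) : ex w k (Fin.natAdd (w + 1) j) =
    Finsupp.single j.succ.succ w := by
  rw [ex, Fin.append_right]

/-- the exponents in the image -/
def La (w k : ℕ) (m : Fin (k + 2) →₀ ℕ) : Prop := w ∣ m 0 + m 1 ∧ ∀ j : Fin k, w ∣ m j.succ.succ

theorem ssne0 {k : ℕ} (j : Fin k) : (j.succ.succ : Fin (k + 2)) ≠ 0 := Fin.succ_ne_zero _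

theorem ssne1 {k : ℕ} (j : Fin k) : (j.succ.succ : Fin (k + 2)) ≠ 1 := by
  intro h
  have h1 : (j.succ.succ : Fin (k + 2)) = (0 : Fin (k + 1)).succ := h
  exact Fin.succ_ne_zero _ (Fin.succ_injective _ h1)

theorem La_zero (w k : ℕ) : La w k 0 := ⟨by simp, fun j => by simp⟩

theorem La_add {w k : ℕ} {m m' : Fin (k + 2) →₀ ℕ} (h : La w k m) (h' : La w k m') :
    La w k (m + m') := by
  refine ⟨?_, fun j => ?_⟩
  · rw [Finsupp.add_apply, Finsupp.add_apply]
    have h1 := (Nat.dvd_add h.1 h'.1)
    have h2 : m 0 + m' 0 + (m 1 + m' 1) = m 0 + m 1 + (m' 0 + m' 1) := by ring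
    rw [h2]
    exact h1
  · rw [Finsupp.add_apply]
    exact Nat.dvd_add (h.2 j) (h'.2 j)

theorem La_sub {w k : ℕ} {m m' : Fin (k + 2) →₀ ℕ} (h : La w k m) (h' : La w k (m' + m)) :
    La w k m' := by
  refine ⟨?_, fun j => ?_⟩
  · have h1 := h'.1
    rw [Finsupp.add_apply, Finsupp.add_apply] at h1
    have h2 : m' 0 + m 0 + (m' 1 + m 1) = m' 0 + m' 1 + (m 0 + m 1) := by ring
    rw [h2] at h1
    exact (Nat.dvd_add_left h.1).1 h1
  · have h1 := h'.2 j
    rw [Finsupp.add_apply] at h1
    exact (Nat.dvd_add_left (h.2 j)).1 h1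

theorem La_smul {w k : ℕ} {m : Fin (k + 2) →₀ ℕ} (a : ℕ) (h : La w k m) : La w k (a • m) := by
  induction a with
  | zero => rw [zero_smul]; exact La_zero w k
  | succ a ih => rw [add_smul, one_smul]; exact La_add ih h

theorem La_ex (w k : ℕ) (i : Fin (w + 1 + k)) : La w k (ex w k i) := by
  refine Fin.addCases (fun i => ?_) (fun j => ?_) i
  · rw [ex_left]
    refine ⟨?_, fun j => ?_⟩
    · have h1 : (1 : Fin (k + 2)) ≠ 0 := by simp
      rw [Finsupp.add_apply, Finsupp.add_apply, Finsupp.single_eq_same,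
        Finsupp.single_eq_of_ne h1.symm, Finsupp.single_eq_of_ne h1, Finsupp.single_eq_same]
      have h2 := i.2
      have h3 : w - i.1 + 0 + (0 + i.1) = w := by omega
      rw [h3]
    · rw [Finsupp.add_apply, Finsupp.single_eq_of_ne (ssne0 j), Finsupp.single_eq_of_ne (ssne1 j)]
      exact dvd_zero w
  · rw [ex_right]
    refine ⟨?_, fun j' => ?_⟩
    · rw [Finsupp.single_eq_of_ne (ssne0 j).symm, Finsupp.single_eq_of_ne (ssne1 j).symm]
      exact dvd_zero w
    · by_cases h : j' = j
      · rw [h, Finsupp.single_eq_same]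
      · rw [Finsupp.single_eq_of_ne (fun h' => h (Fin.succ_injective _ (Fin.succ_injective _ h')))]
        exact dvd_zero w

theorem La_E (w k : ℕ) (α : Fin (w + 1 + k) →₀ ℕ) : La w k (E (ex w k) α) := by
  induction α using Finsupp.induction_linear with
  | zero => rw [map_zero]; exact La_zero w k
  | add f g hf hg => rw [map_add]; exact La_add hf hg
  | single i a => rw [E_single]; exact La_smul a (La_ex w k i)

theorem exists_two {w : ℕ} (k : ℕ) (hw : 0 < w) : ∀ N a b : ℕ, a + b ≤ N → w ∣ a + b →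
    ∃ α : Fin (w + 1 + k) →₀ ℕ, E (ex w k) α = Finsupp.single 0 a + Finsupp.single 1 b := by
  intro N
  induction N with
  | zero =>
    intro a b h _
    have ha : a = 0 := by omega
    have hb : b = 0 := by omega
    refine ⟨0, ?_⟩
    rw [ha, hb, map_zero, Finsupp.single_zero, Finsupp.single_zero, add_zero]
  | succ N ih =>
    intro a b h hd
    rcases Nat.eq_zero_or_pos (a + b) with h0 | h0
    · have ha : a = 0 := by omega
      have hb : b = 0 := by omega
      refine ⟨0, ?_⟩
      rw [ha, hb, map_zero, Finsupp.single_zero, Finsupp.single_zero, add_zero]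
    · have hle : w ≤ a + b := Nat.le_of_dvd h0 hd
      obtain ⟨i, hi, hia, hib⟩ : ∃ i, i ≤ w ∧ w - i ≤ a ∧ i ≤ b := by
        by_cases hb : w ≤ b
        · exact ⟨w, le_rfl, by omega, hb⟩
        · exact ⟨b, by omega, by omega, le_rfl⟩
      obtain ⟨α, hα⟩ := ih (a - (w - i)) (b - i) (by omega) (by
        have h1 : a - (w - i) + (b - i) = a + b - w := by omega
        rw [h1]
        exact Nat.dvd_sub hd dvd_rfl)
      refine ⟨Finsupp.single (Fin.castAdd k ⟨i, by omega⟩) 1 + α, ?_⟩
      rw [map_add, hα, E_single, one_smul, ex_left]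
      have h1 : (Finsupp.single 0 (w - i) + Finsupp.single 1 i : Fin (k + 2) →₀ ℕ) +
          (Finsupp.single 0 (a - (w - i)) + Finsupp.single 1 (b - i)) =
          (Finsupp.single 0 (w - i) + Finsupp.single 0 (a - (w - i))) +
          (Finsupp.single 1 i + Finsupp.single 1 (b - i)) := by
        abel
      show (Finsupp.single 0 (w - i) + Finsupp.single 1 i : Fin (k + 2) →₀ ℕ) +
          (Finsupp.single 0 (a - (w - i)) + Finsupp.single 1 (b - i)) = _
      rw [h1, ← Finsupp.single_add, ← Finsupp.single_add]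
      congr 2
      · omega
      · omega

theorem decomp {k : ℕ} (m : Fin (k + 2) →₀ ℕ) : m = (Finsupp.single 0 (m 0) +
    Finsupp.single 1 (m 1)) + ∑ j : Fin k, Finsupp.single j.succ.succ (m j.succ.succ) := by
  ext i
  rw [Finsupp.add_apply, Finsupp.add_apply, Finsupp.finsetSum_apply]
  refine Fin.cases ?_ (fun i => ?_) i
  · rw [Finsupp.single_eq_same, Finset.sum_eq_zero]
    · have h1 : (1 : Fin (k + 2)) ≠ 0 := by simp
      rw [Finsupp.single_eq_of_ne h1.symm, add_zero, add_zero]
    · intro j _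
      rw [Finsupp.single_eq_of_ne (ssne0 j).symm]
  · refine Fin.cases ?_ (fun j => ?_) i
    · have h1 : (1 : Fin (k + 2)) ≠ 0 := by simp
      show m 1 = (Finsupp.single 0 (m 0) : Fin (k + 2) →₀ ℕ) 1 +
        (Finsupp.single 1 (m 1) : Fin (k + 2) →₀ ℕ) 1 + _
      rw [Finsupp.single_eq_same, Finset.sum_eq_zero, Finsupp.single_eq_of_ne h1, zero_add,
        add_zero]
      intro j _
      exact Finsupp.single_eq_of_ne (ssne1 j).symm
    · rw [Finsupp.single_eq_of_ne (ssne0 j), Finsupp.single_eq_of_ne (ssne1 j),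
        Finset.sum_eq_single j, Finsupp.single_eq_same, zero_add, zero_add]
      · intro j' _ h
        exact Finsupp.single_eq_of_ne
          (fun h' => h (Fin.succ_injective _ (Fin.succ_injective _ h')).symm)
      · intro h
        exact absurd (Finset.mem_univ j) h

theorem exists_sec {w : ℕ} (k : ℕ) (hw : 0 < w) (m : Fin (k + 2) →₀ ℕ) (hm : La w k m) :
    ∃ α : Fin (w + 1 + k) →₀ ℕ, E (ex w k) α = m := by
  obtain ⟨α, hα⟩ := exists_two k hw _ (m 0) (m 1) le_rfl hm.1
  refine ⟨α + ∑ j : Fin k, Finsupp.single (Fin.natAdd (w + 1) j) (m j.succ.succ / w), ?_⟩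
  rw [map_add, hα, map_sum]
  conv_rhs => rw [decomp m]
  congr 1
  refine Finset.sum_congr rfl fun j _ => ?_
  rw [E_single, ex_right, Finsupp.smul_single, smul_eq_mul, Nat.div_mul_cancel (hm.2 j)]

open Classical in
/-- the section -/
noncomputable def sc (w k : ℕ) (m : Fin (k + 2) →₀ ℕ) : Fin (w + 1 + k) →₀ ℕ :=
  if h : ∃ α, E (ex w k) α = m then h.choose else 0

theorem pure_ver {w : ℕ} (k : ℕ) (hw : 0 < w) : Pure (ex w k) (La w k) (sc w k) where
  mem := La_E w k
  sec := by
    intro m hm
    have h := exists_sec k hw m hm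
    rw [sc, dif_pos h]
    exact h.choose_spec
  add := fun _ _ h h' => La_add h h'
  sub := fun _ _ h h' => La_sub h h'

theorem degree_ex (w k : ℕ) (i : Fin (w + 1 + k)) : (ex w k i).degree = w := by
  refine Fin.addCases (fun i => ?_) (fun j => ?_) i
  · rw [ex_left, map_add, Finsupp.degree_single, Finsupp.degree_single]
    have := i.2
    omega
  · rw [ex_right, Finsupp.degree_single]

theorem degree_E (w k : ℕ) (α : Fin (w + 1 + k) →₀ ℕ) :
    (E (ex w k) α).degree = w * α.degree := by
  induction α using Finsupp.induction_linear with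
  | zero => simp
  | add f g hf hg => rw [map_add, map_add, map_add, hf, hg, mul_add]
  | single i a =>
    rw [E_single, map_nsmul, degree_ex, Finsupp.degree_single, smul_eq_mul, mul_comm]

noncomputable instance (w k : ℕ) : DecidablePred (La w k) := fun _ => Classical.dec _

/-- the lifts are homogeneous -/
theorem ps_hom {w : ℕ} (k : ℕ) (hw : 0 < w) {L : Type} [CommRing L]
    (p : MvPolynomial (Fin (k + 2)) L) (n : ℕ) (hp : p.IsHomogeneous (w * n)) :
    (ps (La w k) (sc w k) L p).IsHomogeneous n := by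
  classical
  rw [p.as_sum, map_sum]
  refine IsHomogeneous.sum _ _ _ fun m hm => ?_
  rw [ps_monomial]
  split_ifs with h
  · refine isHomogeneous_monomial _ ?_
    have h1 := degree_E w k (sc w k m)
    rw [(pure_ver k hw).sec m h] at h1
    have h2 : m.degree = w * n := by
      have h3 := hp (mem_support_iff.1 hm)
      rw [← h3, Finsupp.degree_eq_weight_one]
      rfl
    rw [h2] at h1
    exact (Nat.eq_of_mul_eq_mul_left hw h1).symm
  · exact isHomogeneous_zero _ _ _

theorem bin_hom {w : ℕ} {k : ℕ} (hw : 0 < w) {L : Type} [CommRing L] (α β : Fin (w + 1 + k) →₀ ℕ)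
    (h : E (ex w k) α = E (ex w k) β) :
    (monomial α 1 - monomial β 1 : MvPolynomial (Fin (w + 1 + k)) L).IsHomogeneous α.degree := by
  have h1 := degree_E w k α
  rw [h, degree_E] at h1
  have h2 := Nat.eq_of_mul_eq_mul_left hw h1
  exact (isHomogeneous_monomial _ rfl).sub (isHomogeneous_monomial _ h2)

end Pool.Agent.Run7.h489.LV
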