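import Mathlib
import Pool.Agent.R404.TC.Cons
import Pool.Agent.Run7.h489.LV.Ver

set_option autoImplicit false
set_option linter.unusedSectionVars false

/-!
The inequality with the crossing term on the weighted hypersurface `G' = 0`.
-/

namespace Pool.Agent.Run7.h489.LV

open MvPolynomial
open Pool.Agent.R404.TC (Ineq RegAt NZ regU)

/-- the index in the source of the sections -/
def sv (w κ : ℕ) : Fin (κ + 2) → Fin (w + 1 + (κ + 1)) :=
  Fin.cases (Fin.castAdd (κ + 1) 0)
    (Fin.cases (Fin.castAdd (κ + 1) (Fin.last w)) fun c => Fin.natAdd (w + 1) c.succ)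

/-- the index in the target of the sections -/
def tv (κ : ℕ) : Fin (κ + 2) → Fin (κ + 3) := (2 : Fin (κ + 3)).succAbove

/-- the index of the main variable -/
def zv (w κ : ℕ) : Fin (w + 1 + (κ + 1)) := Fin.natAdd (w + 1) 0

theorem val_two (κ : ℕ) : ((2 : Fin (κ + 3)) : ℕ) = 2 := Fin.val_two

theorem tv_zero (κ : ℕ) : tv κ 0 = 0 := by
  rw [tv, Fin.succAbove_of_castSucc_lt]
  · rfl
  · rw [Fin.lt_def, val_two]
    simp

theorem tv_one (κ : ℕ) : tv κ 1 = 1 := by
  rw [tv, Fin.succAbove_of_castSucc_lt]
  · rfl
  · rw [Fin.lt_def, val_two]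
    simp

theorem tv_succ (κ : ℕ) (c : Fin κ) : tv κ c.succ.succ = c.succ.succ.succ := by
  rw [tv, Fin.succAbove_of_le_castSucc]
  rw [Fin.le_def, val_two]
  simp

theorem ex_sv (w κ : ℕ) (c : Fin (κ + 2)) : ex w (κ + 1) (sv w κ c) = Finsupp.single (tv κ c) w := by
  refine Fin.cases ?_ (fun c => Fin.cases ?_ (fun c => ?_) c) c
  · show ex w (κ + 1) (Fin.castAdd (κ + 1) 0) = _
    rw [ex_left, tv_zero]
    simp
  · show ex w (κ + 1) (Fin.castAdd (κ + 1) (Fin.last w)) = _
    have h1 : (Fin.succ 0 : Fin (κ + 2)) = 1 := rfl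
    rw [ex_left, h1, tv_one]
    simp
  · show ex w (κ + 1) (Fin.natAdd (w + 1) c.succ) = _
    rw [ex_right, tv_succ]

theorem ex_zv (w κ : ℕ) : ex w (κ + 1) (zv w κ) = Finsupp.single 2 w := by
  rw [zv, ex_right]
  rfl

/-- every index is one of the sections or the main variable -/
theorem tv_cases {κ : ℕ} (i : Fin (κ + 3)) : i = 2 ∨ ∃ c, i = tv κ c := by
  by_cases h : i = 2
  · exact Or.inl h
  · right
    obtain ⟨c, hc⟩ := Fin.exists_succAbove_eq h
    exact ⟨c, hc.symm⟩

section param

variable {w κ : ℕ} {L : Type} [Field L]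

/-- the parametrised points -/
noncomputable def par (w κ : ℕ) (x : Fin (κ + 3) → L) : Fin (w + 1 + (κ + 1)) → L :=
  fun i => aeval x (monomial (ex w (κ + 1) i) (1 : L))

theorem par_sv (x : Fin (κ + 3) → L) (c : Fin (κ + 2)) : par w κ x (sv w κ c) = x (tv κ c) ^ w := by
  rw [par, ex_sv, ← X_pow_eq_monomial, map_pow, aeval_X]

theorem par_zv (x : Fin (κ + 3) → L) : par w κ x (zv w κ) = x 2 ^ w := by
  rw [par, ex_zv, ← X_pow_eq_monomial, map_pow, aeval_X]

theorem aeval_par {K : Type} [Field K] [Algebra K L] (x : Fin (κ + 3) → L)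
    (p : MvPolynomial (Fin (w + 1 + (κ + 1))) K) :
    aeval (par w κ x) p = aeval x (Ph (ex w (κ + 1)) K p) := by
  have h : (aeval (par w κ x) : MvPolynomial (Fin (w + 1 + (κ + 1))) K →ₐ[K] L) =
      (aeval x).comp (Ph (ex w (κ + 1)) K) := by
    apply MvPolynomial.algHom_ext
    intro i
    rw [AlgHom.comp_apply, Ph_X, aeval_X, par]
    rw [aeval_monomial, aeval_monomial, map_one, map_one]
  exact DFunLike.congr_fun h p

end param

/-- the data of a weighted hypersurface -/
structure Hyp {K : Type} [Field K] (w κ n : ℕ) (G' : MvPolynomial (Fin (κ + 3)) K) : Prop where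
  w0 : 0 < w
  n0 : 0 < n
  hom : G'.IsHomogeneous (w * n)
  supp : ∀ m ∈ G'.support, La w (κ + 1) m
  /-- the sections have no common zero -/
  zero : ∀ (L : Type) [Field L] [Algebra K L] (x : Fin (κ + 3) → L), aeval x G' = 0 →
    (∀ c, x (tv κ c) = 0) → x = 0
  /-- any `κ + 1` of the sections have two common zeros -/
  two : ∀ c : Fin (κ + 2), ∃ x y : Fin (κ + 3) → AlgebraicClosure K,
    aeval x G' = 0 ∧ aeval y G' = 0 ∧ x (tv κ c) = 1 ∧ y (tv κ c) = 1 ∧ x 2 ^ w ≠ y 2 ^ w ∧
      ∀ c', c' ≠ c → x (tv κ c') = 0 ∧ y (tv κ c') = 0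

theorem Ph_ps_G {K : Type} [Field K] {w κ n : ℕ} {G' : MvPolynomial (Fin (κ + 3)) K}
    (h : Hyp w κ n G') : Ph (ex w (κ + 1)) K (ps (La w (κ + 1)) (sc w (κ + 1)) K G') = G' := by
  classical
  conv_lhs => rw [G'.as_sum, map_sum, map_sum]
  conv_rhs => rw [G'.as_sum]
  refine Finset.sum_congr rfl fun m hm => ?_
  have h1 := h.supp m hm
  rw [ps_monomial, if_pos h1, Ph_monomial, (pure_ver (κ + 1) h.w0).sec m h1]

theorem missing {r : ℕ} (σ : Fin r → Fin (r + 1)) (hσ : Function.Injective σ) :
    ∃ c, (∀ c', c' ≠ c → ∃ i, σ i = c') ∧ ∀ i, σ i ≠ c := by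
  classical
  have h1 : (Finset.univ.image σ).card = r := by
    rw [Finset.card_image_of_injective _ hσ, Finset.card_univ, Fintype.card_fin]
  have h2 : ((Finset.univ.image σ)ᶜ).card = 1 := by
    rw [Finset.card_compl, h1, Fintype.card_fin]
    omega
  obtain ⟨c, hc⟩ := Finset.card_eq_one.1 h2
  refine ⟨c, fun c' hc' => ?_, fun i hi => ?_⟩
  · have h3 : c' ∉ (Finset.univ.image σ)ᶜ := by
      rw [hc, Finset.mem_singleton]
      exact hc'
    rw [Finset.mem_compl, not_not, Finset.mem_image] at h3
    obtain ⟨i, -, hi⟩ := h3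
    exact ⟨i, hi⟩
  · have h3 : c ∈ (Finset.univ.image σ)ᶜ := by
      rw [hc, Finset.mem_singleton]
    rw [Finset.mem_compl, Finset.mem_image] at h3
    exact h3 ⟨i, Finset.mem_univ i, hi⟩

/-- the inequality on the hypersurface -/
theorem model {K : Type} [Field K] [NumberField K] {w κ n : ℕ}
    {G' : MvPolynomial (Fin (κ + 3)) K} (h : Hyp w κ n G') :
    ∃ (m : ℕ) (G : Fin m → MvPolynomial (Fin (w + 1 + (κ + 1))) K) (c : ℝ),
      Ideal.span (Set.range G) = Ideal.span (bin (ex w (κ + 1)) K) ⊔
        Ideal.span {ps (La w (κ + 1)) (sc w (κ + 1)) K G'} ∧ 0 < c ∧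
      Ineq (κ + 1) G (fun c => (X (sv w κ c) : MvPolynomial (Fin (w + 1 + (κ + 1))) K))
        (fun _ => 1) c := by
  classical
  obtain ⟨m0, α, β, hαβ, hgen⟩ := exists_gen (ex w (κ + 1))
  set e := ex w (κ + 1) with he
  set G0 := ps (La w (κ + 1)) (sc w (κ + 1)) K G' with hG0
  set G : Fin (m0 + 1) → MvPolynomial (Fin (w + 1 + (κ + 1))) K :=
    Fin.cons G0 fun j => monomial (α j) 1 - monomial (β j) 1 with hG
  have hpure := pure_ver (κ + 1) h.w0
  have hrange : Set.range G = Set.range (fun j => (monomial (α j) 1 - monomial (β j) 1 :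
      MvPolynomial (Fin (w + 1 + (κ + 1))) K)) ∪ {G0} := by
    rw [hG, Fin.range_cons, Set.insert_eq, Set.union_comm]
  have hspan : Ideal.span (Set.range G) = Ideal.span (bin e K) ⊔ Ideal.span {G0} := by
    rw [hrange, Ideal.span_union, hgen K]
  have hPG : Ph e K G0 = G' := Ph_ps_G h
  -- vanishing at the parametrised points
  have hpar : ∀ (L : Type) [Field L] [Algebra K L] (x : Fin (κ + 3) → L), aeval x G' = 0 →
      ∀ j, aeval (par w κ x) (G j) = 0 := by
    intro L _ _ x hx j
    rw [aeval_par]
    refine Fin.cases ?_ (fun j => ?_) j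
    · show aeval x (Ph e K G0) = 0
      rw [hPG, hx]
    · show aeval x (Ph e K (monomial (α j) 1 - monomial (β j) 1)) = 0
      rw [map_sub, Ph_monomial, Ph_monomial, hαβ j, sub_self, map_zero]
  have hFin := Pool.Agent.R404.TC.final (k := K) (n := w + 1 + (κ + 1)) (m := m0 + 1) G
    (Fin.cons n fun j => (α j).degree) (by
      intro j
      refine Fin.cases ?_ (fun j => ?_) j
      · exact ps_hom (κ + 1) h.w0 G' n h.hom
      · exact bin_hom h.w0 (α j) (β j) (hαβ j)) (q := κ + 2) (r := κ + 1) (by omega) (by omega)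
    (fun c => X (sv w κ c)) (fun _ => 1) (fun _ => one_pos) (fun c => isHomogeneous_X K _)
    (by
      -- no common zeros
      intro T hT L _ _ x hxG hxF
      have hTu : T = Finset.univ := Finset.eq_univ_of_card T (by rw [hT, Fintype.card_fin])
      have hsv : ∀ c, x (sv w κ c) = 0 := by
        intro c
        have h1 := hxF c (by rw [hTu]; exact Finset.mem_univ c)
        rwa [aeval_X] at h1
      have hbin : ∀ p ∈ Ideal.span (bin e K), aeval x p = 0 := by
        intro p hp
        rw [hgen K] at hp
        refine Submodule.span_induction (p := fun p _ => aeval x p = 0) ?_ ?_ ?_ ?_ hp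
        · rintro _ ⟨j, rfl⟩
          exact hxG j.succ
        · rw [map_zero]
        · intro a b _ _ ha hb
          rw [map_add, ha, hb, add_zero]
        · intro a b _ hb
          rw [smul_eq_mul, map_mul, hb, mul_zero]
      have hM : ∀ i : Fin (w + 1), x (Fin.castAdd (κ + 1) i) = 0 := by
        intro i
        have h1 : (monomial (Finsupp.single (Fin.castAdd (κ + 1) i) w) 1 -
            monomial (Finsupp.single (sv w κ 0) (w - i.1) + Finsupp.single (sv w κ 1) i.1) 1 :
            MvPolynomial (Fin (w + 1 + (κ + 1))) K) ∈ Ideal.span (bin e K) := by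
          refine Ideal.subset_span ⟨_, _, ?_, rfl⟩
          rw [map_add, E_single, E_single, E_single, he, ex_sv, ex_sv, ex_left, tv_zero, tv_one,
            smul_add, Finsupp.smul_single, Finsupp.smul_single, Finsupp.smul_single,
            Finsupp.smul_single, smul_eq_mul, smul_eq_mul, smul_eq_mul, smul_eq_mul,
            mul_comm w (w - i.1), mul_comm w i.1]
        have h2 := hbin _ h1
        rw [map_sub, ← X_pow_eq_monomial, map_pow, aeval_X, sub_eq_zero] at h2
        have h3 : aeval x (monomial (Finsupp.single (sv w κ 0) (w - i.1) +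
            Finsupp.single (sv w κ 1) i.1) (1 : K)) = x (sv w κ 0) ^ (w - i.1) *
              x (sv w κ 1) ^ i.1 := by
          have h4 : (monomial (Finsupp.single (sv w κ 0) (w - i.1) +
              Finsupp.single (sv w κ 1) i.1) (1 : K)) =
              X (sv w κ 0) ^ (w - i.1) * X (sv w κ 1) ^ i.1 := by
            rw [X_pow_eq_monomial, X_pow_eq_monomial, monomial_mul, one_mul]
          rw [h4, map_mul, map_pow, map_pow, aeval_X, aeval_X]
        rw [h3, hsv, hsv] at h2
        have h4 : (0 : L) ^ (w - i.1) * 0 ^ i.1 = 0 := by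
          by_cases hi : i.1 = 0
          · rw [hi, Nat.sub_zero, zero_pow h.w0.ne', zero_mul]
          · rw [zero_pow hi, mul_zero]
        rw [h4] at h2
        exact eq_zero_of_pow_eq_zero h2
      -- the main variable
      let Ω := AlgebraicClosure L
      obtain ⟨z, hz⟩ := IsAlgClosed.exists_pow_nat_eq (algebraMap L Ω (x (zv w κ))) h.w0
      let _ : Algebra K Ω := ((algebraMap L Ω).comp (algebraMap K L)).toAlgebra
      set x' : Fin (κ + 3) → Ω := Function.update 0 2 z with hx'
      have hx'2 : x' 2 = z := by rw [hx', Function.update_self]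
      have hx't : ∀ c, x' (tv κ c) = 0 := by
        intro c
        have h1 : tv κ c ≠ 2 := Fin.succAbove_ne _ _
        rw [hx', Function.update_of_ne h1]
        rfl
      have hxx : par w κ x' = fun i => algebraMap L Ω (x i) := by
        funext i
        refine Fin.addCases (fun i => ?_) (fun j => ?_) i
        · rw [hM i, map_zero, par, ex_left]
          have h4 : (monomial (Finsupp.single 0 (w - i.1) + Finsupp.single 1 i.1) (1 : Ω) :
              MvPolynomial (Fin (κ + 3)) Ω) = X 0 ^ (w - i.1) * X 1 ^ i.1 := by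
            rw [X_pow_eq_monomial, X_pow_eq_monomial, monomial_mul, one_mul]
          have h5 : x' 0 = 0 := by have := hx't 0; rwa [tv_zero] at this
          have h6 : x' 1 = 0 := by have := hx't 1; rwa [tv_one] at this
          rw [h4, map_mul, map_pow, map_pow, aeval_X, aeval_X, h5, h6]
          by_cases hi : i.1 = 0
          · rw [hi, Nat.sub_zero, zero_pow h.w0.ne', zero_mul]
          · rw [zero_pow hi, mul_zero]
        · refine Fin.cases ?_ (fun j => ?_) j
          · show par w κ x' (zv w κ) = algebraMap L Ω (x (zv w κ))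
            rw [par_zv, hx'2, hz]
          · show par w κ x' (sv w κ j.succ.succ) = algebraMap L Ω (x (sv w κ j.succ.succ))
            rw [par_sv, hx't, hsv, map_zero, zero_pow h.w0.ne']
      have h1 : aeval x' G' = 0 := by
        rw [← hPG, ← aeval_par, hxx]
        have h2 : (aeval (fun i => algebraMap L Ω (x i)) G0 : Ω) = algebraMap L Ω (aeval x G0) := by
          show eval₂ ((algebraMap L Ω).comp (algebraMap K L)) (algebraMap L Ω ∘ x) G0 = _
          rw [← eval₂_comp_left]
          rfl
        rw [h2]
        have h3 : aeval x G0 = 0 := hxG 0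
        rw [h3, map_zero]
      have h2 := h.zero Ω x' h1 hx't
      have hz0 : z = 0 := by
        rw [← hx'2, h2]
        rfl
      funext i
      refine Fin.addCases (fun i => ?_) (fun j => ?_) i
      · exact hM i
      · refine Fin.cases ?_ (fun j => ?_) j
        · show x (zv w κ) = 0
          rw [hz0, zero_pow h.w0.ne'] at hz
          exact (map_eq_zero _).1 hz.symm
        · exact hsv j.succ.succ)
    (by
      -- two points
      intro σ hσ
      obtain ⟨c, -, hc⟩ := missing σ hσ.injective
      obtain ⟨x, y, hx, hy, hxc, hyc, hxy, hz⟩ := h.two c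
      refine ⟨par w κ x, par w κ y, ?_, hpar _ x hx, hpar _ y hy, fun j => ?_, fun j => ?_⟩
      · rw [LinearIndependent.pair_iff]
        intro s t hst
        have h1 := congrFun hst (sv w κ c)
        have h2 := congrFun hst (zv w κ)
        rw [Pi.add_apply, Pi.smul_apply, Pi.smul_apply, par_sv, par_sv, hxc, hyc, one_pow,
          smul_eq_mul, smul_eq_mul, mul_one, mul_one, Pi.zero_apply] at h1
        rw [Pi.add_apply, Pi.smul_apply, Pi.smul_apply, par_zv, par_zv,
          smul_eq_mul, smul_eq_mul, Pi.zero_apply] at h2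
        have h3 : s = -t := eq_neg_of_add_eq_zero_left h1
        rw [h3] at h2
        have h4 : t * (y 2 ^ w - x 2 ^ w) = 0 := by linear_combination h2
        rcases mul_eq_zero.1 h4 with h5 | h5
        · exact ⟨by rw [h3, h5, neg_zero], h5⟩
        · exact absurd (sub_eq_zero.1 h5).symm hxy
      · rw [aeval_X, par_sv, (hz _ (hc j)).1, zero_pow h.w0.ne']
      · rw [aeval_X, par_sv, (hz _ (hc j)).2, zero_pow h.w0.ne'])
    (by
      -- regularity
      refine Or.inr fun σ hσ L _ _ y _ _ _ j u hu => ⟨1, 0, isHomogeneous_one _ _, by simp, ?_⟩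
      rw [one_mul]
      have hinf : Infinite L := Infinite.of_injective _ (algebraMap K L).injective
      obtain ⟨c, hc, -⟩ := missing σ hσ.injective
      -- the ideals
      set A : Set (MvPolynomial (Fin (w + 1 + (κ + 1))) L) :=
        insert (map (algebraMap K L) G0) ((fun i => X (sv w κ (σ i))) '' Set.Iio j) with hA
      have hJ : Ideal.span (Set.range fun l => map (algebraMap K L) (G l)) ⊔
          Ideal.span ((fun i => map (algebraMap K L) (X (sv w κ (σ i)))) '' Set.Iio j) =
          Ideal.span (bin e L) ⊔ Ideal.span A := by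
        have h1 : Set.range (fun l => map (algebraMap K L) (G l)) =
            Set.range (fun j => (monomial (α j) 1 - monomial (β j) 1 :
              MvPolynomial (Fin (w + 1 + (κ + 1))) L)) ∪ {map (algebraMap K L) G0} := by
          have h2 : (fun l => map (algebraMap K L) (G l)) = Fin.cons (map (algebraMap K L) G0)
              fun j => (monomial (α j) 1 - monomial (β j) 1 :
                MvPolynomial (Fin (w + 1 + (κ + 1))) L) := by
            funext l
            refine Fin.cases ?_ (fun l => ?_) l
            · rfl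
            · show map (algebraMap K L) (monomial (α l) 1 - monomial (β l) 1) =
                monomial (α l) 1 - monomial (β l) 1
              rw [map_sub, map_monomial, map_monomial, map_one]
          rw [h2, Fin.range_cons, Set.insert_eq, Set.union_comm]
        have h3 : (fun i => map (algebraMap K L) (X (sv w κ (σ i)))) =
            fun i => (X (sv w κ (σ i)) : MvPolynomial (Fin (w + 1 + (κ + 1))) L) := by
          funext i
          rw [map_X]
        rw [h1, h3, Ideal.span_union, ← hgen L, sup_assoc, hA, Ideal.span_insert]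
      rw [hJ] at hu ⊢
      have hmX : map (algebraMap K L) (X (sv w κ (σ j))) =
          (X (sv w κ (σ j)) : MvPolynomial (Fin (w + 1 + (κ + 1))) L) := map_X _ _
      rw [hmX] at hu
      refine reg_descend hpure A ?_ u hu
      -- the regular sequence
      set f : Fin (κ + 2) → MvPolynomial (Fin (κ + 3)) L :=
        Fin.cons (map (algebraMap K L) G') fun i => X (tv κ (σ i)) ^ w with hf
      have hreg := regU (K := L) f (by
        intro i
        refine Fin.cases ?_ (fun i => ?_) i
        · exact ⟨w * n, Nat.mul_pos h.w0 h.n0, h.hom.map _⟩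
        · refine ⟨w, h.w0, ?_⟩
          have h1 := (isHomogeneous_X L (tv κ (σ i))).pow w
          rwa [one_mul] at h1) (X (tv κ c) ^ w) w h.w0 (by
          have h1 := (isHomogeneous_X L (tv κ c)).pow w
          rwa [one_mul] at h1) (by
          intro L' _ _ x hx hxc
          let _ : Algebra K L' := ((algebraMap L L').comp (algebraMap K L)).toAlgebra
          rw [map_pow, aeval_X] at hxc
          refine h.zero L' x ?_ fun c' => ?_
          · have h1 := hx 0
            have h2 : (aeval x (f 0) : L') = aeval x G' := by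
              show aeval x (map (algebraMap K L) G') = _
              rw [aeval_def, eval₂_map]
              rfl
            rw [← h2]
            exact h1
          · by_cases hc' : c' = c
            · rw [hc']
              exact eq_zero_of_pow_eq_zero hxc
            · obtain ⟨i, rfl⟩ := hc c' hc'
              have h1 := hx i.succ
              have h2 : f i.succ = X (tv κ (σ i)) ^ w := rfl
              rw [h2, map_pow, aeval_X] at h1
              exact eq_zero_of_pow_eq_zero h1) j.succ
      have himg : Ph e L '' A = f '' Set.Iio j.succ := by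
        have h1 : Ph e L (map (algebraMap K L) G0) = f 0 := by
          rw [Ph_map, hPG]
          rfl
        have h2 : ∀ i, Ph e L (X (sv w κ (σ i))) = f i.succ := by
          intro i
          rw [Ph_X, he, ex_sv, ← X_pow_eq_monomial]
          rfl
        rw [hA, Set.image_insert_eq, h1, Set.image_image]
        simp only [h2]
        ext p
        constructor
        · rintro (hp | ⟨i, hi, rfl⟩)
          · exact ⟨0, Fin.succ_pos j, hp.symm⟩
          · exact ⟨i.succ, Fin.succ_lt_succ_iff.2 hi, rfl⟩
        · rintro ⟨i, hi, rfl⟩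
          rcases Fin.eq_zero_or_eq_succ i with rfl | ⟨i, rfl⟩
          · exact Or.inl rfl
          · exact Or.inr ⟨i, Fin.succ_lt_succ_iff.1 hi, rfl⟩
      rw [himg]
      have h3 : Ph e L (X (sv w κ (σ j))) = f j.succ := by
        rw [Ph_X, he, ex_sv, ← X_pow_eq_monomial]
        rfl
      rw [h3]
      exact hreg)
  obtain ⟨c, hc, hI⟩ := hFin
  exact ⟨m0 + 1, G, c, hspan, hc, hI⟩

end Pool.Agent.Run7.h489.LV
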