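import Mathlib
import Pool.Agent.Run7.h489.LV.Model
import Pool.Agent.Run7.h489.LV.SU

set_option autoImplicit false
set_option linter.unusedSectionVars false

/-!
Affine points of the weighted hypersurfaces.
-/

namespace Pool.Agent.Run7.h489.LV

open MvPolynomial

section xp

variable {w κ : ℕ} {A : Type} [CommRing A]

/-- the point with the affine coordinates `t`, `y` -/
def xp (w κ : ℕ) (t : A) (y : Fin (κ + 1) → A) : Fin (w + 1 + (κ + 1)) → A :=
  Fin.append (fun i : Fin (w + 1) => t ^ i.1) y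

theorem xp_left (t : A) (y : Fin (κ + 1) → A) (i : Fin (w + 1)) :
    xp w κ t y (Fin.castAdd (κ + 1) i) = t ^ i.1 := by rw [xp, Fin.append_left]

theorem xp_right (t : A) (y : Fin (κ + 1) → A) (j : Fin (κ + 1)) :
    xp w κ t y (Fin.natAdd (w + 1) j) = y j := by rw [xp, Fin.append_right]

theorem xp_map {B : Type} [CommRing B] (φ : A →+* B) (t : A) (y : Fin (κ + 1) → A) :
    (fun i => φ (xp w κ t y i)) = xp w κ (φ t) (fun j => φ (y j)) := by
  funext i
  refine Fin.addCases (fun i => ?_) (fun j => ?_) i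
  · rw [xp_left, xp_left, map_pow]
  · rw [xp_right, xp_right]

theorem aeval_xp_mono {K : Type} [Field K] [Algebra K A] (hw : 0 < w) (t : A)
    (y : Fin (κ + 1) → A) (α : Fin (w + 1 + (κ + 1)) →₀ ℕ) :
    aeval (xp w κ t y) (monomial α (1 : K)) = t ^ (E (ex w (κ + 1)) α 1) *
      ∏ j : Fin (κ + 1), y j ^ (E (ex w (κ + 1)) α j.succ.succ / w) := by
  induction α using Finsupp.induction_linear with
  | zero => simp
  | add f g hf hg =>
    have h1 : (monomial (f + g) (1 : K) : MvPolynomial (Fin (w + 1 + (κ + 1))) K) =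
        monomial f 1 * monomial g 1 := by rw [monomial_mul, one_mul]
    rw [h1, map_mul, hf, hg, map_add, Finsupp.add_apply, pow_add]
    have h2 : ∀ j : Fin (κ + 1), y j ^ ((E (ex w (κ + 1)) f + E (ex w (κ + 1)) g) j.succ.succ / w) =
        y j ^ (E (ex w (κ + 1)) f j.succ.succ / w) * y j ^ (E (ex w (κ + 1)) g j.succ.succ / w) := by
      intro j
      rw [Finsupp.add_apply, Nat.add_div_of_dvd_right ((La_E w (κ + 1) f).2 j), pow_add]
    rw [Finset.prod_congr rfl fun j _ => h2 j, Finset.prod_mul_distrib]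
    ring
  | single i a =>
    rw [← X_pow_eq_monomial, map_pow, aeval_X, E_single]
    refine Fin.addCases (fun i => ?_) (fun j => ?_) i
    · rw [xp_left, ex_left, Finsupp.smul_apply, Finsupp.add_apply]
      have h1 : (1 : Fin (κ + 1 + 2)) ≠ 0 := by simp
      rw [Finsupp.single_eq_of_ne h1, Finsupp.single_eq_same, zero_add, smul_eq_mul, ← pow_mul,
        mul_comm a]
      have h2 : ∀ j : Fin (κ + 1), y j ^ ((a • (Finsupp.single 0 (w - i.1) +
          Finsupp.single 1 i.1 : Fin (κ + 1 + 2) →₀ ℕ)) j.succ.succ / w) = 1 := by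
        intro j
        rw [Finsupp.smul_apply, Finsupp.add_apply, Finsupp.single_eq_of_ne (ssne0 j),
          Finsupp.single_eq_of_ne (ssne1 j), add_zero, smul_zero, Nat.zero_div, pow_zero]
      rw [Finset.prod_congr rfl fun j _ => h2 j, Finset.prod_const_one, mul_one]
    · rw [xp_right, ex_right, Finsupp.smul_apply, Finsupp.single_eq_of_ne (ssne1 j).symm,
        smul_zero, pow_zero, one_mul]
      rw [Finset.prod_eq_single j]
      · rw [Finsupp.smul_apply, Finsupp.single_eq_same, smul_eq_mul, Nat.mul_div_cancel _ hw]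
      · intro j' _ h
        rw [Finsupp.smul_apply, Finsupp.single_eq_of_ne
          (fun h' => h (Fin.succ_injective _ (Fin.succ_injective _ h'))), smul_zero,
          Nat.zero_div, pow_zero]
      · intro h
        exact absurd (Finset.mem_univ j) h

theorem aeval_xp_ps {K : Type} [Field K] [Algebra K A] (hw : 0 < w) (t : A)
    (y : Fin (κ + 1) → A) (m : Fin (κ + 3) →₀ ℕ) (hm : La w (κ + 1) m) (c : K) :
    aeval (xp w κ t y) (ps (La w (κ + 1)) (sc w (κ + 1)) K (monomial m c)) =
      algebraMap K A c * (t ^ m 1 * ∏ j : Fin (κ + 1), y j ^ (m j.succ.succ / w)) := by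
  rw [ps_monomial, if_pos hm]
  have h1 : (monomial (sc w (κ + 1) m) c : MvPolynomial (Fin (w + 1 + (κ + 1))) K) =
      C c * monomial (sc w (κ + 1) m) 1 := by rw [C_mul_monomial, mul_one]
  rw [h1, map_mul, aeval_C, aeval_xp_mono hw, (pure_ver (κ + 1) hw).sec m hm]

theorem aeval_smul_hom' {K : Type} [Field K] [Algebra K A] {n d : ℕ}
    {Q : MvPolynomial (Fin n) K} (hQ : Q.IsHomogeneous d) (c : A) (x : Fin n → A) :
    aeval (fun i => c * x i) Q = c ^ d * aeval x Q := by
  rw [aeval_def, aeval_def, eval₂_eq, eval₂_eq, Finset.mul_sum]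
  refine Finset.sum_congr rfl fun m hm => ?_
  have h1 : ∑ i ∈ m.support, m i = d := by
    have h2 := hQ (mem_support_iff.1 hm)
    have h3 : m.degree = d :=
      (DFunLike.congr_fun (Finsupp.degree_eq_weight_one (σ := Fin n) (R := ℕ)) m).trans h2
    rw [← h3]
    rfl
  have h2 : ∏ i ∈ m.support, (c * x i) ^ m i = c ^ d * ∏ i ∈ m.support, x i ^ m i := by
    simp only [mul_pow]
    rw [Finset.prod_mul_distrib, Finset.prod_pow_eq_pow_sum, h1]
  rw [h2]
  ring

end xp

/-- the target polynomial ring -/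
abbrev BB (κ : ℕ) (K : Type) [Field K] : Type := MvPolynomial (Fin (κ + 3)) K

/-- its localisation -/
abbrev Lo (κ : ℕ) (K : Type) [Field K] : Type := Localization.Away (X 0 : BB κ K)

/-- the map to the localisation -/
noncomputable abbrev am (κ : ℕ) (K : Type) [Field K] : BB κ K →+* Lo κ K :=
  algebraMap (BB κ K) (Lo κ K)

/-- the inverse of the first variable -/
noncomputable def iv (κ : ℕ) (K : Type) [Field K] : Lo κ K :=
  IsLocalization.Away.invSelf (X 0 : BB κ K)

theorem am_iv (κ : ℕ) (K : Type) [Field K] : am κ K (X 0) * iv κ K = 1 :=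
  IsLocalization.Away.mul_invSelf (X 0 : BB κ K)

theorem am_inj (κ : ℕ) (K : Type) [Field K] : Function.Injective (am κ K) := by
  refine IsLocalization.injective (Lo κ K) (M := Submonoid.powers (X 0 : BB κ K)) ?_
  intro x hx
  obtain ⟨k, rfl⟩ := hx
  exact mem_nonZeroDivisors_of_ne_zero (pow_ne_zero _ (X_ne_zero 0))

/-- an affine form of a homogeneous polynomial outside the ideal is not divisible by the
equation -/
theorem not_dvd {K : Type} [Field K] [CharZero K] {w κ n : ℕ} {G' : MvPolynomial (Fin (κ + 3)) K}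
    (h : Hyp w κ n G')
    (A : Type) [CommRing A] [Algebra K A] (t : A) (y : Fin (κ + 1) → A)
    (Θ : A →ₐ[K] Lo κ K) (ht : Θ t = am κ K (X 1) * iv κ K)
    (hy : ∀ j : Fin (κ + 1), Θ (y j) = (am κ K (X j.succ.succ) * iv κ K) ^ w)
    {d : ℕ} (P : MvPolynomial (Fin (w + 1 + (κ + 1))) K) (hP : P.IsHomogeneous d)
    (hPn : P ∉ Ideal.span (bin (ex w (κ + 1)) K) ⊔
      Ideal.span {ps (La w (κ + 1)) (sc w (κ + 1)) K G'}) :
    ¬ aeval (xp w κ t y) (ps (La w (κ + 1)) (sc w (κ + 1)) K G') ∣ aeval (xp w κ t y) P := by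
  classical
  rintro ⟨Q, hQ⟩
  apply hPn
  set e := ex w (κ + 1) with he
  set G0 := ps (La w (κ + 1)) (sc w (κ + 1)) K G' with hG0
  set x0 : Lo κ K := am κ K (X 0) with hx0
  set i0 : Lo κ K := iv κ K with hi0
  have hxi : x0 * i0 = 1 := am_iv κ K
  have hinj : Function.Injective (am κ K) := am_inj κ K
  -- homogenisation
  have hhom : ∀ (d : ℕ) (R : MvPolynomial (Fin (w + 1 + (κ + 1))) K), R.IsHomogeneous d →
      am κ K (Ph e K R) = x0 ^ (w * d) * Θ (aeval (xp w κ t y) R) := by
    intro d R hR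
    have h1 : am κ K (Ph e K R) = aeval (fun i => am κ K (Ph e K (X i))) R := by
      have h2 : (IsScalarTower.toAlgHom K (BB κ K) (Lo κ K)).comp (Ph e K) =
          aeval (fun i => am κ K (Ph e K (X i))) := by
        apply MvPolynomial.algHom_ext
        intro i
        rw [aeval_X]
        rfl
      exact DFunLike.congr_fun h2 R
    have h2 : (fun i => am κ K (Ph e K (X i))) =
        fun i => x0 ^ w * Θ (xp w κ t y i) := by
      funext i
      rw [Ph_X]
      refine Fin.addCases (fun i => ?_) (fun j => ?_) i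
      · rw [he, ex_left, xp_left, map_pow, ht]
        have h3 : (monomial (Finsupp.single 0 (w - i.1) + Finsupp.single 1 i.1) (1 : K) : BB κ K) =
            X 0 ^ (w - i.1) * X 1 ^ i.1 := by
          rw [X_pow_eq_monomial, X_pow_eq_monomial, monomial_mul, one_mul]
        rw [h3, map_mul, map_pow, map_pow, ← hx0, mul_pow]
        have h4 : x0 ^ w = x0 ^ (w - i.1) * x0 ^ i.1 := by
          rw [← pow_add]
          congr 1
          have := i.2
          omega
        rw [h4]
        have h5 : x0 ^ i.1 * i0 ^ i.1 = 1 := by rw [← mul_pow, hxi, one_pow]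
        linear_combination (- x0 ^ (w - i.1) * (am κ K (X 1)) ^ i.1) * h5
      · rw [he, ex_right, xp_right, hy, ← X_pow_eq_monomial, map_pow, mul_pow]
        have h5 : x0 ^ w * i0 ^ w = 1 := by rw [← mul_pow, hxi, one_pow]
        linear_combination (- (am κ K (X j.succ.succ)) ^ w) * h5
    have h3 : (fun i => Θ (xp w κ t y i)) = fun i => Θ (xp w κ t y i) := rfl
    rw [h1, h2, aeval_smul_hom' hR, ← pow_mul]
    congr 1
    have h4 : (aeval (fun i => Θ (xp w κ t y i)) : MvPolynomial (Fin (w + 1 + (κ + 1))) K →ₐ[K] Lo κ K) =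
        Θ.comp (aeval (xp w κ t y)) := by
      apply MvPolynomial.algHom_ext
      intro i
      rw [aeval_X, AlgHom.comp_apply, aeval_X]
    exact DFunLike.congr_fun h4 R
  have hPG : Ph e K G0 = G' := Ph_ps_G h
  have h1 := hhom d P hP
  have h2 := hhom n G0 (ps_hom (κ + 1) h.w0 G' n h.hom)
  rw [hPG] at h2
  rw [hQ, map_mul] at h1
  obtain ⟨N, Q', hQ'⟩ := IsLocalization.Away.surj (X 0 : BB κ K) (Θ Q)
  -- a power of `x0` times `P` is a multiple of `G'`
  have h3 : X 0 ^ (w * n + N) * Ph e K P = G' * (X 0 ^ (w * d) * Q') := by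
    apply hinj
    rw [map_mul, map_mul, map_mul, map_pow, map_pow, h1, h2, ← hQ', ← hx0, pow_add]
    show _ = x0 ^ (w * n) * Θ (aeval (xp w κ t y) G0) * (x0 ^ (w * d) * (Θ Q * am κ K (X 0) ^ N))
    rw [← hx0]
    ring
  have hmem : ∀ (M : ℕ) (u : BB κ K), (X 0 ^ w) ^ M * u ∈ Ideal.span {G'} → u ∈ Ideal.span {G'} := by
    have hinf : Infinite K := Infinite.of_injective (algebraMap ℚ K) (algebraMap ℚ K).injective
    -- regularity of `x0 ^ w`
    have hreg := Pool.Agent.R404.TC.regU (K := K) (r := κ + 2)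
      (Fin.cons G' fun i : Fin (κ + 1) => X (tv κ i.castSucc) ^ w) (by
        intro i
        refine Fin.cases ?_ (fun i => ?_) i
        · exact ⟨w * n, Nat.mul_pos h.w0 h.n0, h.hom⟩
        · refine ⟨w, h.w0, ?_⟩
          have h1 := (isHomogeneous_X K (tv κ i.castSucc)).pow w
          rwa [one_mul] at h1) (X (tv κ (Fin.last (κ + 1))) ^ w) w h.w0 (by
        have h1 := (isHomogeneous_X K (tv κ (Fin.last (κ + 1)))).pow w
        rwa [one_mul] at h1) (by
        intro L _ _ x hx hxc
        rw [map_pow, aeval_X] at hxc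
        refine h.zero L x (hx 0) fun c' => ?_
        refine Fin.lastCases ?_ (fun i => ?_) c'
        · exact eq_zero_of_pow_eq_zero hxc
        · have h1 := hx i.succ
          have h2 : (Fin.cons G' (fun i : Fin (κ + 1) => X (tv κ i.castSucc) ^ w) :
              Fin (κ + 2) → BB κ K) i.succ = X (tv κ i.castSucc) ^ w := rfl
          rw [h2, map_pow, aeval_X] at h1
          exact eq_zero_of_pow_eq_zero h1) 1
    have h4 : (Fin.cons G' (fun i : Fin (κ + 1) => X (tv κ i.castSucc) ^ w) :
        Fin (κ + 2) → BB κ K) '' Set.Iio 1 = {G'} := by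
      ext p
      constructor
      · rintro ⟨i, hi, rfl⟩
        have hi' : i = 0 := by
          have h5 : i.1 < 1 := by
            have h6 := Fin.lt_def.1 hi
            simpa using h6
          exact Fin.ext (by simpa using h5)
        rw [hi']
        rfl
      · intro hp
        rw [Set.mem_singleton_iff] at hp
        refine ⟨0, ?_, hp.symm⟩
        rw [Set.mem_Iio, Fin.lt_def]
        simp
    have h5 : (Fin.cons G' (fun i : Fin (κ + 1) => X (tv κ i.castSucc) ^ w) :
        Fin (κ + 2) → BB κ K) 1 = X 0 ^ w := by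
      show X (tv κ (0 : Fin (κ + 1)).castSucc) ^ w = _
      have h6 : tv κ (0 : Fin (κ + 1)).castSucc = 0 := tv_zero κ
      rw [h6]
    rw [h4, h5] at hreg
    intro M
    induction M with
    | zero => intro u hu; rwa [pow_zero, one_mul] at hu
    | succ M ih =>
      intro u hu
      refine ih u (hreg _ ?_)
      have h6 : (X 0 ^ w) ^ (M + 1) * u = X 0 ^ w * ((X 0 ^ w) ^ M * u) := by ring
      rwa [h6] at hu
  have h4 : (X 0 ^ w) ^ (w * n + N) * Ph e K P ∈ Ideal.span {G'} := by
    have h5 : w * n + N ≤ w * (w * n + N) := Nat.le_mul_of_pos_left _ h.w0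
    have h6 : (X 0 ^ w : BB κ K) ^ (w * n + N) = X 0 ^ (w * (w * n + N) - (w * n + N)) *
        X 0 ^ (w * n + N) := by
      rw [← pow_mul, ← pow_add]
      congr 1
      omega
    rw [h6, mul_assoc, h3]
    exact Ideal.mul_mem_left _ _ (Ideal.mul_mem_right _ _ (Ideal.mem_span_singleton_self _))
  have h5 := hmem _ _ h4
  refine descend (pure_ver (κ + 1) h.w0) {G0} ?_
  rw [Set.image_singleton, ← he, hPG]
  exact h5

end Pool.Agent.Run7.h489.LV
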