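import Mathlib
import Pool.Agent.Run7.h489.LV.Aff

set_option autoImplicit false
set_option linter.unusedSectionVars false

/-!
The weighted homogenisation of a monic polynomial in two variables.
-/

namespace Pool.Agent.Run7.h489.LV

open MvPolynomial

section aeva

open Polynomial

theorem aA_eq {K A : Type} [Field K] [CommRing A] [Algebra K A] (t y : A) (f : Polynomial (Polynomial K)) :
    aevalAeval t y f = ∑ j ∈ Finset.range (f.natDegree + 1), Polynomial.aeval t (f.coeff j) * y ^ j := by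
  conv_lhs => rw [f.as_sum_range' (f.natDegree + 1) (Nat.lt_succ_self _), map_sum]
  refine Finset.sum_congr rfl fun j _ => ?_
  rw [← Polynomial.C_mul_X_pow_eq_monomial, map_mul, map_pow, aevalAeval_C, aevalAeval_Y]

theorem aA_hom {K A B : Type} [Field K] [CommRing A] [CommRing B] [Algebra K A] [Algebra K B]
    (φ : A →ₐ[K] B) (t y : A) (f : Polynomial (Polynomial K)) :
    aevalAeval (φ t) (φ y) f = φ (aevalAeval t y f) := by
  rw [aA_eq, aA_eq, map_sum]
  refine Finset.sum_congr rfl fun j _ => ?_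
  rw [map_mul, map_pow, Polynomial.aeval_algHom_apply]

theorem aA_id {K : Type} [Field K] (f : Polynomial (Polynomial K)) :
    aevalAeval (Polynomial.C (Polynomial.X) : Polynomial (Polynomial K)) Polynomial.X f = f := by
  rw [aA_eq]
  conv_rhs => rw [f.as_sum_range' (f.natDegree + 1) (Nat.lt_succ_self _)]
  refine Finset.sum_congr rfl fun j _ => ?_
  rw [← Polynomial.C_mul_X_pow_eq_monomial]
  congr 1
  have h1 : (Polynomial.C (Polynomial.X) : Polynomial (Polynomial K)) =
      (Algebra.ofId (Polynomial K) (Polynomial (Polynomial K))).restrictScalars K Polynomial.X := rfl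
  rw [h1, Polynomial.aeval_algHom_apply, Polynomial.aeval_X_left_apply]
  rfl

/-- a polynomial over `K` with two distinct zeros -/
def TwoR {K : Type} [Field K] (p : Polynomial K) : Prop :=
  ∃ r s : AlgebraicClosure K, r ≠ s ∧ Polynomial.aeval r p = 0 ∧ Polynomial.aeval s p = 0

theorem twoR {K : Type} [Field K] [CharZero K] {p : Polynomial K} {n : ℕ} (hn : 2 ≤ n)
    (hp : p.Monic) (hd : p.natDegree = n) (h1 : p.coeff (n - 1) = 0) (h2 : p ≠ Polynomial.X ^ n) :
    TwoR p := by
  classical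
  by_contra hcon
  apply h2
  set φ := algebraMap K (AlgebraicClosure K) with hφ
  have hs : (p.map φ).Splits := IsAlgClosed.splits _
  have hm : (p.map φ).Monic := hp.map φ
  have hc := hs.natDegree_eq_card_roots
  rw [natDegree_map, hd] at hc
  obtain ⟨r, hr⟩ : ∃ r, r ∈ (p.map φ).roots := by
    rw [← Multiset.card_pos_iff_exists_mem]
    omega
  have hroot : ∀ s ∈ (p.map φ).roots, Polynomial.aeval s p = 0 := by
    intro s hs
    have := (mem_roots'.1 hs).2
    rwa [IsRoot.def, eval_map_algebraMap] at this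
  have hall : ∀ s ∈ (p.map φ).roots, s = r := by
    intro s hs
    by_contra hne
    exact hcon ⟨s, r, hne, hroot s hs, hroot r hr⟩
  have h3 : (p.map φ).roots = Multiset.replicate n r := by
    rw [Multiset.eq_replicate]
    exact ⟨hc.symm, hall⟩
  have h4 := hs.eq_prod_roots_of_monic hm
  rw [h3, Multiset.map_replicate, Multiset.prod_replicate] at h4
  have h5 : (p.map φ).nextCoeff = 0 := by
    rw [nextCoeff_of_natDegree_pos (by rw [natDegree_map, hd]; omega), natDegree_map, hd, Polynomial.coeff_map,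
      h1, map_zero]
  rw [h4, (monic_X_sub_C r).nextCoeff_pow, nextCoeff_X_sub_C, nsmul_eq_mul] at h5
  have h6 : r = 0 := by
    rcases mul_eq_zero.1 h5 with h | h
    · exfalso
      have : n = 0 := by exact_mod_cast h
      omega
    · exact neg_eq_zero.1 h
  rw [h6, Polynomial.C_0, sub_zero] at h4
  apply Polynomial.map_injective φ φ.injective
  rw [h4, Polynomial.map_pow, Polynomial.map_X]

end aeva

section fh

variable {K : Type} [Field K]

/-- the exponents -/
noncomputable def em (κ w n j i : ℕ) : Fin (κ + 3) →₀ ℕ :=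
  Finsupp.single 0 (w * (n - j) - i) + Finsupp.single 1 i + Finsupp.single 2 (w * j)

theorem ne01 (κ : ℕ) : (0 : Fin (κ + 3)) ≠ 1 := by
  intro h
  have := congrArg Fin.val h
  simp at this

theorem ne02 (κ : ℕ) : (0 : Fin (κ + 3)) ≠ 2 := by
  intro h
  have := congrArg Fin.val h
  rw [val_two] at this
  simp at this

theorem ne12 (κ : ℕ) : (1 : Fin (κ + 3)) ≠ 2 := by
  intro h
  have := congrArg Fin.val h
  rw [val_two] at this
  simp at this

theorem em_zero (κ w n j i : ℕ) : em κ w n j i 0 = w * (n - j) - i := by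
  rw [em, Finsupp.add_apply, Finsupp.add_apply, Finsupp.single_eq_same,
    Finsupp.single_eq_of_ne (ne01 κ), Finsupp.single_eq_of_ne (ne02 κ)]
  rfl

theorem em_one (κ w n j i : ℕ) : em κ w n j i 1 = i := by
  rw [em, Finsupp.add_apply, Finsupp.add_apply, Finsupp.single_eq_same,
    Finsupp.single_eq_of_ne (ne01 κ).symm, Finsupp.single_eq_of_ne (ne12 κ), zero_add]
  rfl

theorem em_two (κ w n j i : ℕ) : em κ w n j i 2 = w * j := by
  rw [em, Finsupp.add_apply, Finsupp.add_apply, Finsupp.single_eq_same,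
    Finsupp.single_eq_of_ne (ne02 κ).symm, Finsupp.single_eq_of_ne (ne12 κ).symm, zero_add, zero_add]

theorem em_succ (κ w n j i : ℕ) (c : Fin κ) : em κ w n j i c.succ.succ.succ = 0 := by
  have h0 : (c.succ.succ.succ : Fin (κ + 3)) ≠ 0 := Fin.succ_ne_zero _
  have h1 : (c.succ.succ.succ : Fin (κ + 3)) ≠ 1 := by
    intro h
    have := congrArg Fin.val h
    simp at this
  have h2 : (c.succ.succ.succ : Fin (κ + 3)) ≠ 2 := by
    intro h
    have := congrArg Fin.val h
    rw [val_two] at this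
    simp at this
  rw [em, Finsupp.add_apply, Finsupp.add_apply, Finsupp.single_eq_of_ne h0,
    Finsupp.single_eq_of_ne h1, Finsupp.single_eq_of_ne h2, add_zero, add_zero]

theorem em_La {κ w n j i : ℕ} (hi : i ≤ w * (n - j)) : La w (κ + 1) (em κ w n j i) := by
  refine ⟨?_, fun c => ?_⟩
  · rw [em_zero, em_one, Nat.sub_add_cancel hi]
    exact dvd_mul_right _ _
  · refine Fin.cases ?_ (fun c => ?_) c
    · show w ∣ em κ w n j i 2
      rw [em_two]
      exact dvd_mul_right _ _
    · rw [em_succ]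
      exact dvd_zero _

theorem em_degree {κ w n j i : ℕ} (hj : j ≤ n) (hi : i ≤ w * (n - j)) :
    (em κ w n j i).degree = w * n := by
  rw [em, map_add, map_add, Finsupp.degree_single, Finsupp.degree_single, Finsupp.degree_single,
    Nat.sub_add_cancel hi, ← mul_add, Nat.sub_add_cancel hj]

/-- the weighted homogenisation -/
noncomputable def Fh (κ w n : ℕ) (f : Polynomial (Polynomial K)) : MvPolynomial (Fin (κ + 3)) K :=
  ∑ j ∈ Finset.range (n + 1), ∑ i ∈ Finset.range (w * (n - j) + 1),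
    monomial (em κ w n j i) ((f.coeff j).coeff i)

theorem Fh_hom (κ w n : ℕ) (f : Polynomial (Polynomial K)) : (Fh κ w n f).IsHomogeneous (w * n) := by
  refine IsHomogeneous.sum _ _ _ fun j hj => IsHomogeneous.sum _ _ _ fun i hi => ?_
  exact isHomogeneous_monomial _ (em_degree (Nat.lt_succ_iff.1 (Finset.mem_range.1 hj))
    (Nat.lt_succ_iff.1 (Finset.mem_range.1 hi)))

theorem Fh_supp (κ w n : ℕ) (f : Polynomial (Polynomial K)) (m : Fin (κ + 3) →₀ ℕ)
    (hm : coeff m (Fh κ w n f) ≠ 0) : La w (κ + 1) m := by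
  classical
  rw [Fh, coeff_sum] at hm
  obtain ⟨j, -, hm1⟩ := Finset.exists_ne_zero_of_sum_ne_zero hm
  rw [coeff_sum] at hm1
  obtain ⟨i, hi, hm2⟩ := Finset.exists_ne_zero_of_sum_ne_zero hm1
  rw [coeff_monomial] at hm2
  by_cases h : em κ w n j i = m
  · rw [← h]
    exact em_La (Nat.lt_succ_iff.1 (Finset.mem_range.1 hi))
  · rw [if_neg h] at hm2
    exact absurd rfl hm2

theorem aeval_em {κ : ℕ} {L : Type} [CommRing L] [Algebra K L] (x : Fin (κ + 3) → L)
    (w n j i : ℕ) (c : K) : aeval x (monomial (em κ w n j i) c) =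
      algebraMap K L c * (x 0 ^ (w * (n - j) - i) * x 1 ^ i * x 2 ^ (w * j)) := by
  have h1 : (monomial (em κ w n j i) c : MvPolynomial (Fin (κ + 3)) K) =
      C c * (X 0 ^ (w * (n - j) - i) * X 1 ^ i * X 2 ^ (w * j)) := by
    rw [X_pow_eq_monomial, X_pow_eq_monomial, X_pow_eq_monomial, monomial_mul, monomial_mul,
      C_mul_monomial, one_mul, one_mul, mul_one, em]
  rw [h1, map_mul, map_mul, map_mul, map_pow, map_pow, map_pow, aeval_C, aeval_X, aeval_X, aeval_X]

theorem aeval_Fh {κ : ℕ} {L : Type} [CommRing L] [Algebra K L] (x : Fin (κ + 3) → L)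
    (w n : ℕ) (f : Polynomial (Polynomial K)) : aeval x (Fh κ w n f) =
      ∑ j ∈ Finset.range (n + 1), ∑ i ∈ Finset.range (w * (n - j) + 1),
        algebraMap K L ((f.coeff j).coeff i) * (x 0 ^ (w * (n - j) - i) * x 1 ^ i * x 2 ^ (w * j)) := by
  rw [Fh, map_sum]
  refine Finset.sum_congr rfl fun j _ => ?_
  rw [map_sum]
  exact Finset.sum_congr rfl fun i _ => aeval_em x w n j i _

/-- the polynomial at infinity -/
noncomputable def pinf (w n : ℕ) (f : Polynomial (Polynomial K)) : Polynomial K :=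
  ∑ j ∈ Finset.range (n + 1), Polynomial.monomial j ((f.coeff j).coeff (w * (n - j)))

/-- the conditions on the slopes -/
structure Slope (w n : ℕ) (f : Polynomial (Polynomial K)) : Prop where
  n2 : 2 ≤ n
  w0 : 0 < w
  monic : f.Monic
  deg : f.natDegree = n
  bd : ∀ j, (f.coeff j).natDegree ≤ w * (n - j)
  r0 : TwoR (f.map Polynomial.constantCoeff)
  ri : TwoR (pinf w n f)

theorem aeval_Fh_zero {κ w n : ℕ} {L : Type} [Field L] [Algebra K L] (x : Fin (κ + 3) → L)
    {f : Polynomial (Polynomial K)} (h : Slope w n f) (h0 : x 0 = 0) (h1 : x 1 = 0) :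
    aeval x (Fh κ w n f) = x 2 ^ (w * n) := by
  rw [aeval_Fh, Finset.sum_eq_single n]
  · rw [Nat.sub_self, mul_zero, zero_add, Finset.sum_range_one, Nat.zero_sub, pow_zero, pow_zero,
      one_mul, one_mul]
    have h2 : f.coeff n = 1 := by
      rw [← h.deg]
      exact h.monic.coeff_natDegree
    rw [h2, Polynomial.coeff_one_zero, map_one, one_mul]
  · intro j hj hjn
    have hj' := Finset.mem_range.1 hj
    refine Finset.sum_eq_zero fun i hi => ?_
    have hi' := Finset.mem_range.1 hi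
    have h3 : 0 < w * (n - j) := Nat.mul_pos h.w0 (by omega)
    rw [h0, h1]
    by_cases hi0 : i = 0
    · rw [hi0, Nat.sub_zero, zero_pow h3.ne', zero_mul, zero_mul, mul_zero]
    · rw [zero_pow hi0, mul_zero, zero_mul, mul_zero]
  · intro hn
    exact absurd (Finset.mem_range.2 (Nat.lt_succ_self n)) hn

theorem aeval_Fh_10 {κ w n : ℕ} {L : Type} [Field L] [Algebra K L] (x : Fin (κ + 3) → L)
    {f : Polynomial (Polynomial K)} (h : Slope w n f) (h0 : x 0 = 1) (h1 : x 1 = 0) :
    aeval x (Fh κ w n f) = Polynomial.aeval (x 2 ^ w) (f.map Polynomial.constantCoeff) := by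
  have hd : (f.map Polynomial.constantCoeff).natDegree = n := by
    rw [h.monic.natDegree_map, h.deg]
  rw [aeval_Fh, Polynomial.aeval_eq_sum_range, hd]
  refine Finset.sum_congr rfl fun j _ => ?_
  rw [Finset.sum_eq_single 0]
  · rw [h0, one_pow, one_mul, pow_zero, one_mul, Polynomial.coeff_map, Algebra.smul_def, pow_mul]
    rfl
  · intro i _ hi
    rw [h1, zero_pow hi, mul_zero, zero_mul, mul_zero]
  · intro hn
    exact absurd (Finset.mem_range.2 (Nat.succ_pos _)) hn

theorem aeval_Fh_01 {κ w n : ℕ} {L : Type} [Field L] [Algebra K L] (x : Fin (κ + 3) → L)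
    {f : Polynomial (Polynomial K)} (h0 : x 0 = 0) (h1 : x 1 = 1) :
    aeval x (Fh κ w n f) = Polynomial.aeval (x 2 ^ w) (pinf w n f) := by
  rw [aeval_Fh, pinf, map_sum]
  refine Finset.sum_congr rfl fun j _ => ?_
  rw [Polynomial.aeval_monomial, Finset.sum_eq_single (w * (n - j))]
  · rw [h1, one_pow, mul_one, Nat.sub_self, pow_zero, one_mul, pow_mul]
  · intro i hi hne
    have hi' := Finset.mem_range.1 hi
    rw [h0, zero_pow (by omega), zero_mul, zero_mul, mul_zero]
  · intro hn
    exact absurd (Finset.mem_range.2 (Nat.lt_succ_self _)) hn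

/-- the curve -/
theorem hypC {w n : ℕ} {f : Polynomial (Polynomial K)} (h : Slope w n f) : Hyp w 0 n (Fh 0 w n f) where
  w0 := h.w0
  n0 := by have := h.n2; omega
  hom := Fh_hom 0 w n f
  supp := fun m hm => Fh_supp 0 w n f m (mem_support_iff.1 hm)
  zero := by
    intro L _ _ x hx hc
    have h0 : x 0 = 0 := by have := hc 0; rwa [tv_zero] at this
    have h1 : x 1 = 0 := by have := hc 1; rwa [tv_one] at this
    rw [aeval_Fh_zero x h h0 h1] at hx
    have h2 := eq_zero_of_pow_eq_zero hx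
    funext i
    rcases tv_cases i with rfl | ⟨c, rfl⟩
    · exact h2
    · exact hc c
  two := by
    intro c
    have hw := h.w0
    have key : ∀ (p : Polynomial K), TwoR p → ∃ z z' : AlgebraicClosure K,
        Polynomial.aeval (z ^ w) p = 0 ∧ Polynomial.aeval (z' ^ w) p = 0 ∧ z ^ w ≠ z' ^ w := by
      rintro p ⟨r, s, hrs, hr, hs⟩
      obtain ⟨z, hz⟩ := IsAlgClosed.exists_pow_nat_eq r hw
      obtain ⟨z', hz'⟩ := IsAlgClosed.exists_pow_nat_eq s hw
      exact ⟨z, z', by rw [hz, hr], by rw [hz', hs], by rw [hz, hz']; exact hrs⟩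
    have hc01 : c = 0 ∨ c = 1 := by
      have : c.1 < 2 := c.2
      rcases Nat.lt_or_ge c.1 1 with h1 | h1
      · left; ext; simpa using h1
      · right; ext; simp; omega
    rcases hc01 with rfl | rfl
    · obtain ⟨z, z', h1, h2, h3⟩ := key _ h.r0
      refine ⟨![1, 0, z], ![1, 0, z'], ?_, ?_, ?_, ?_, h3, ?_⟩
      · rw [aeval_Fh_10 _ h rfl rfl]; exact h1
      · rw [aeval_Fh_10 _ h rfl rfl]; exact h2
      · rw [tv_zero]; rfl
      · rw [tv_zero]; rfl
      · intro c' hc'
        have hc1 : c' = 1 := by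
          have : c'.1 < 2 := c'.2
          have h4 : c'.1 ≠ 0 := fun h' => hc' (Fin.ext (by simpa using h'))
          ext; simp; omega
        rw [hc1, tv_one]
        exact ⟨rfl, rfl⟩
    · obtain ⟨z, z', h1, h2, h3⟩ := key _ h.ri
      refine ⟨![0, 1, z], ![0, 1, z'], ?_, ?_, ?_, ?_, h3, ?_⟩
      · rw [aeval_Fh_01 _ rfl rfl]; exact h1
      · rw [aeval_Fh_01 _ rfl rfl]; exact h2
      · rw [tv_one]; rfl
      · rw [tv_one]; rfl
      · intro c' hc'
        have hc1 : c' = 0 := by
          have : c'.1 < 2 := c'.2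
          have h4 : c'.1 ≠ 1 := fun h' => hc' (Fin.ext (by simpa using h'))
          ext; simp; omega
        rw [hc1, tv_zero]
        exact ⟨rfl, rfl⟩

/-- the equation of the surface -/
noncomputable def Gs (w n : ℕ) (f : Polynomial (Polynomial K)) (k : K) : MvPolynomial (Fin (1 + 3)) K :=
  monomial (Finsupp.single 3 (w * n)) k - Fh 1 w n f

theorem aeval_Gs {w n : ℕ} {L : Type} [CommRing L] [Algebra K L] (x : Fin (1 + 3) → L)
    (f : Polynomial (Polynomial K)) (k : K) :
    aeval x (Gs w n f k) = algebraMap K L k * x 3 ^ (w * n) - aeval x (Fh 1 w n f) := by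
  rw [Gs, map_sub]
  congr 1
  have h1 : (monomial (Finsupp.single 3 (w * n)) k : MvPolynomial (Fin (1 + 3)) K) =
      C k * X 3 ^ (w * n) := by
    rw [X_pow_eq_monomial, C_mul_monomial, mul_one]
  rw [h1, map_mul, map_pow, aeval_C, aeval_X]

/-- the surface -/
theorem hypS [CharZero K] {w n : ℕ} {f : Polynomial (Polynomial K)} (h : Slope w n f) {k : K}
    (hk : k ≠ 0) : Hyp w 1 n (Gs w n f k) where
  w0 := h.w0
  n0 := by have := h.n2; omega
  hom := by
    refine IsHomogeneous.sub (isHomogeneous_monomial _ ?_) (Fh_hom 1 w n f)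
    rw [Finsupp.degree_single]
  supp := by
    intro m hm
    have h1 := mem_support_iff.1 hm
    by_cases h2 : coeff m (Fh 1 w n f) = 0
    · rw [Gs, coeff_sub, h2, sub_zero, coeff_monomial] at h1
      by_cases h3 : Finsupp.single 3 (w * n) = m
      · rw [← h3]
        have e0 : (0 : Fin (1 + 3)) ≠ 3 := by decide
        have e1 : (1 : Fin (1 + 3)) ≠ 3 := by decide
        refine ⟨?_, fun j => ?_⟩
        · rw [Finsupp.single_eq_of_ne e0, Finsupp.single_eq_of_ne e1]
          exact dvd_zero _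
        · by_cases h4 : (j.succ.succ : Fin (1 + 3)) = 3
          · rw [h4, Finsupp.single_eq_same]
            exact dvd_mul_right _ _
          · rw [Finsupp.single_eq_of_ne h4]
            exact dvd_zero _
      · rw [if_neg h3] at h1
        exact absurd rfl h1
    · exact Fh_supp 1 w n f m h2
  zero := by
    intro L _ _ x hx hc
    have h0 : x 0 = 0 := by have := hc 0; rwa [tv_zero] at this
    have h1 : x 1 = 0 := by have := hc 1; rwa [tv_one] at this
    have h3 : x 3 = 0 := by
      have := hc 2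
      have e : tv 1 2 = 3 := tv_succ 1 0
      rwa [e] at this
    have hwn : 0 < w * n := Nat.mul_pos h.w0 (by have := h.n2; omega)
    rw [aeval_Gs, aeval_Fh_zero x h h0 h1, h3, zero_pow hwn.ne', mul_zero, zero_sub,
      neg_eq_zero] at hx
    have h2 := eq_zero_of_pow_eq_zero hx
    funext i
    rcases tv_cases i with rfl | ⟨c, rfl⟩
    · exact h2
    · exact hc c
  two := by
    intro c
    have hw := h.w0
    have hwn : 0 < w * n := Nat.mul_pos h.w0 (by have := h.n2; omega)
    have key : ∀ (p : Polynomial K), TwoR p → ∃ z z' : AlgebraicClosure K,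
        Polynomial.aeval (z ^ w) p = 0 ∧ Polynomial.aeval (z' ^ w) p = 0 ∧ z ^ w ≠ z' ^ w := by
      rintro p ⟨r, s, hrs, hr, hs⟩
      obtain ⟨z, hz⟩ := IsAlgClosed.exists_pow_nat_eq r hw
      obtain ⟨z', hz'⟩ := IsAlgClosed.exists_pow_nat_eq s hw
      exact ⟨z, z', by rw [hz, hr], by rw [hz', hs], by rw [hz, hz']; exact hrs⟩
    have e : tv 1 2 = 3 := tv_succ 1 0
    have hc012 : c = 0 ∨ c = 1 ∨ c = 2 := by
      fin_cases c
      · exact Or.inl rfl
      · exact Or.inr (Or.inl rfl)
      · exact Or.inr (Or.inr rfl)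
    rcases hc012 with rfl | rfl | rfl
    · obtain ⟨z, z', h1, h2, h3⟩ := key _ h.r0
      refine ⟨![1, 0, z, 0], ![1, 0, z', 0], ?_, ?_, ?_, ?_, h3, ?_⟩
      · rw [aeval_Gs, aeval_Fh_10 _ h rfl rfl]
        have e1 : (![1, 0, z, 0] : Fin (1 + 3) → AlgebraicClosure K) 3 = 0 := rfl
        have e2 : (![1, 0, z, 0] : Fin (1 + 3) → AlgebraicClosure K) 2 = z := rfl
        rw [e1, e2, zero_pow hwn.ne', mul_zero, h1, sub_zero]
      · rw [aeval_Gs, aeval_Fh_10 _ h rfl rfl]
        have e1 : (![1, 0, z', 0] : Fin (1 + 3) → AlgebraicClosure K) 3 = 0 := rfl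
        have e2 : (![1, 0, z', 0] : Fin (1 + 3) → AlgebraicClosure K) 2 = z' := rfl
        rw [e1, e2, zero_pow hwn.ne', mul_zero, h2, sub_zero]
      · rw [tv_zero]; rfl
      · rw [tv_zero]; rfl
      · intro c' hc'
        fin_cases c'
        · exact absurd rfl hc'
        · rw [show ((fun i => i) (⟨1, by omega⟩ : Fin (1 + 2))) = 1 from rfl, tv_one]
          exact ⟨rfl, rfl⟩
        · rw [show ((fun i => i) (⟨2, by omega⟩ : Fin (1 + 2))) = 2 from rfl, e]
          exact ⟨rfl, rfl⟩
    · obtain ⟨z, z', h1, h2, h3⟩ := key _ h.ri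
      refine ⟨![0, 1, z, 0], ![0, 1, z', 0], ?_, ?_, ?_, ?_, h3, ?_⟩
      · rw [aeval_Gs, aeval_Fh_01 _ rfl rfl]
        have e1 : (![0, 1, z, 0] : Fin (1 + 3) → AlgebraicClosure K) 3 = 0 := rfl
        have e2 : (![0, 1, z, 0] : Fin (1 + 3) → AlgebraicClosure K) 2 = z := rfl
        rw [e1, e2, zero_pow hwn.ne', mul_zero, h1, sub_zero]
      · rw [aeval_Gs, aeval_Fh_01 _ rfl rfl]
        have e1 : (![0, 1, z', 0] : Fin (1 + 3) → AlgebraicClosure K) 3 = 0 := rfl
        have e2 : (![0, 1, z', 0] : Fin (1 + 3) → AlgebraicClosure K) 2 = z' := rfl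
        rw [e1, e2, zero_pow hwn.ne', mul_zero, h2, sub_zero]
      · rw [tv_one]; rfl
      · rw [tv_one]; rfl
      · intro c' hc'
        fin_cases c'
        · rw [show ((fun i => i) (⟨0, by omega⟩ : Fin (1 + 2))) = 0 from rfl, tv_zero]
          exact ⟨rfl, rfl⟩
        · exact absurd rfl hc'
        · rw [show ((fun i => i) (⟨2, by omega⟩ : Fin (1 + 2))) = 2 from rfl, e]
          exact ⟨rfl, rfl⟩
    · -- the third vertex
      have hn := h.n2
      obtain ⟨s, hs⟩ := IsAlgClosed.exists_pow_nat_eq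
        (algebraMap K (AlgebraicClosure K) k) (show 0 < n by omega)
      have hchar : NeZero (n : AlgebraicClosure K) := ⟨by
        rw [Nat.cast_ne_zero]
        omega⟩
      obtain ⟨ζ, hζ⟩ := HasEnoughRootsOfUnity.exists_primitiveRoot (AlgebraicClosure K) n
      have hs0 : s ≠ 0 := by
        rintro rfl
        rw [zero_pow (by omega)] at hs
        exact hk ((map_eq_zero _).1 hs.symm)
      obtain ⟨z, hz⟩ := IsAlgClosed.exists_pow_nat_eq s hw
      obtain ⟨z', hz'⟩ := IsAlgClosed.exists_pow_nat_eq (ζ * s) hw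
      have hne : z ^ w ≠ z' ^ w := by
        rw [hz, hz']
        intro h1
        have h2 : ζ = 1 := by
          have h3 : ζ * s = 1 * s := by rw [one_mul]; exact h1.symm
          exact mul_right_cancel₀ hs0 h3
        exact hζ.ne_one (by omega) h2
      refine ⟨![0, 0, z, 1], ![0, 0, z', 1], ?_, ?_, ?_, ?_, hne, ?_⟩
      · rw [aeval_Gs, aeval_Fh_zero _ h rfl rfl]
        have e1 : (![0, 0, z, 1] : Fin (1 + 3) → AlgebraicClosure K) 3 = 1 := rfl
        have e2 : (![0, 0, z, 1] : Fin (1 + 3) → AlgebraicClosure K) 2 = z := rfl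
        rw [e1, e2, one_pow, mul_one, pow_mul, hz, hs, sub_self]
      · rw [aeval_Gs, aeval_Fh_zero _ h rfl rfl]
        have e1 : (![0, 0, z', 1] : Fin (1 + 3) → AlgebraicClosure K) 3 = 1 := rfl
        have e2 : (![0, 0, z', 1] : Fin (1 + 3) → AlgebraicClosure K) 2 = z' := rfl
        rw [e1, e2, one_pow, mul_one, pow_mul, hz', mul_pow, hζ.pow_eq_one, one_mul, hs, sub_self]
      · rw [e]; rfl
      · rw [e]; rfl
      · intro c' hc'
        fin_cases c'
        · rw [show ((fun i => i) (⟨0, by omega⟩ : Fin (1 + 2))) = 0 from rfl, tv_zero]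
          exact ⟨rfl, rfl⟩
        · rw [show ((fun i => i) (⟨1, by omega⟩ : Fin (1 + 2))) = 1 from rfl, tv_one]
          exact ⟨rfl, rfl⟩
        · exact absurd rfl hc'

/-- the affine form of the equation -/
theorem aff_Fh {κ w n : ℕ} {A : Type} [CommRing A] [Algebra K A] (t : A) (y : Fin (κ + 1) → A)
    {f : Polynomial (Polynomial K)} (h : Slope w n f) :
    aeval (xp w κ t y) (ps (La w (κ + 1)) (sc w (κ + 1)) K (Fh κ w n f)) =
      Polynomial.aevalAeval t (y 0) f := by
  rw [aA_eq, h.deg, Fh, map_sum, map_sum]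
  refine Finset.sum_congr rfl fun j _ => ?_
  rw [map_sum, map_sum, Polynomial.aeval_eq_sum_range' (Nat.lt_succ_of_le (h.bd j)), Finset.sum_mul]
  refine Finset.sum_congr rfl fun i hi => ?_
  have hi' := Nat.lt_succ_iff.1 (Finset.mem_range.1 hi)
  rw [aeval_xp_ps h.w0 t y _ (em_La hi'), em_one, Fin.prod_univ_succ]
  have h1 : em κ w n j i (Fin.succ (Fin.succ (0 : Fin (κ + 1)))) = w * j := em_two κ w n j i
  rw [h1, Nat.mul_div_cancel_left _ h.w0, Finset.prod_eq_one, mul_one, Algebra.smul_def, mul_assoc]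
  intro c _
  rw [em_succ, Nat.zero_div, pow_zero]

theorem aff_Gs {w n : ℕ} {A : Type} [CommRing A] [Algebra K A] (t : A) (y : Fin (1 + 1) → A)
    {f : Polynomial (Polynomial K)} (h : Slope w n f) (k : K) :
    aeval (xp w 1 t y) (ps (La w (1 + 1)) (sc w (1 + 1)) K (Gs w n f k)) =
      algebraMap K A k * y 1 ^ n - Polynomial.aevalAeval t (y 0) f := by
  rw [Gs, map_sub, map_sub, aff_Fh t y h]
  congr 1
  have e0 : (0 : Fin (1 + 3)) ≠ 3 := by decide
  have e1 : (1 : Fin (1 + 3)) ≠ 3 := by decide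
  have e2 : (2 : Fin (1 + 3)) ≠ 3 := by decide
  have hLa : La w (1 + 1) (Finsupp.single (3 : Fin (1 + 3)) (w * n)) := by
    refine ⟨?_, fun j => ?_⟩
    · have e01 : (Finsupp.single (3 : Fin (1 + 3)) (w * n)) 0 +
          (Finsupp.single (3 : Fin (1 + 3)) (w * n)) 1 = 0 := by
        rw [Finsupp.single_eq_of_ne e0, Finsupp.single_eq_of_ne e1, add_zero]
      rw [e01]
      exact dvd_zero _
    · by_cases h4 : (j.succ.succ : Fin (1 + 3)) = 3
      · rw [h4, Finsupp.single_eq_same]
        exact dvd_mul_right _ _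
      · rw [Finsupp.single_eq_of_ne h4]
        exact dvd_zero _
  rw [aeval_xp_ps h.w0 t y _ hLa, Fin.prod_univ_two]
  have h1 : (Finsupp.single (3 : Fin (1 + 3)) (w * n)) 1 = 0 := Finsupp.single_eq_of_ne e1
  have h2 : (Finsupp.single (3 : Fin (1 + 3)) (w * n)) (Fin.succ (Fin.succ (0 : Fin (1 + 1)))) = 0 :=
    Finsupp.single_eq_of_ne e2
  have h3 : (Finsupp.single (3 : Fin (1 + 3)) (w * n)) (Fin.succ (Fin.succ (1 : Fin (1 + 1)))) =
    w * n := Finsupp.single_eq_same
  rw [h1, h2, h3, pow_zero, one_mul, Nat.zero_div, pow_zero, one_mul, Nat.mul_div_cancel_left _ h.w0]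

end fh

end Pool.Agent.Run7.h489.LV
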