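import Mathlib
import Pool.Agent.Run7.h489.LV.Form

set_option autoImplicit false
set_option linter.unusedSectionVars false

/-!
The normal form of a monic polynomial in two variables after a change of variables.
-/

namespace Pool.Agent.Run7.h489.LV

open Polynomial

variable {K : Type} [Field K]

/-- the second coefficient after a translation -/
theorem coeff_taylor_pred {R : Type} [CommRing R] {f : R[X]} (hf : f.Monic) {n : ℕ} (hn : 0 < n)
    (hd : f.natDegree = n) (r : R) : (taylor r f).coeff (n - 1) = f.coeff (n - 1) + n * r := by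
  rw [taylor_coeff]
  have h1 : (hasseDeriv (n - 1) f).natDegree < 2 := by
    have := natDegree_hasseDeriv_le f (n - 1)
    omega
  rw [eval_eq_sum_range' h1, Finset.sum_range_succ, Finset.sum_range_one, hasseDeriv_coeff,
    hasseDeriv_coeff]
  have h2 : 1 + (n - 1) = n := by omega
  have h3 : f.coeff n = 1 := by rw [← hd]; exact hf.coeff_natDegree
  have h4 : n.choose (n - 1) = n := by
    obtain ⟨m, rfl⟩ : ∃ m, n = m + 1 := ⟨n - 1, by omega⟩
    simp
  rw [zero_add, h2, h3, h4, Nat.choose_self, pow_zero, pow_one]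
  simp

/-- the translation killing the second coefficient -/
theorem tsch [CharZero K] {f : K[X][X]} (hf : f.Monic) {n : ℕ} (hn : 0 < n)
    (hd : f.natDegree = n) : ∃ (c : K[X]) (F : K[X][X]), F.Monic ∧ F.natDegree = n ∧
      F.coeff (n - 1) = 0 ∧ F = taylor c f ∧
      ∀ (A : Type) [CommRing A] [Algebra K A] (t y : A),
        aevalAeval t (y + aeval t c) f = aevalAeval t y F := by
  have hn0 : (n : K) ≠ 0 := by
    rw [Nat.cast_ne_zero]
    omega
  refine ⟨-(C ((n : K)⁻¹) * f.coeff (n - 1)), taylor (-(C ((n : K)⁻¹) * f.coeff (n - 1))) f, ?_, ?_,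
    ?_, rfl, ?_⟩
  · rw [Monic, leadingCoeff_taylor]
    exact hf
  · rw [natDegree_taylor, hd]
  · rw [coeff_taylor_pred hf hn hd]
    have h1 : (n : K[X]) * (-(C ((n : K)⁻¹) * f.coeff (n - 1))) =
        -((C (n : K) * C ((n : K)⁻¹)) * f.coeff (n - 1)) := by
      rw [show (n : K[X]) = C (n : K) from rfl]
      ring
    rw [h1, ← C_mul, mul_inv_cancel₀ hn0, C_1, one_mul, add_neg_cancel]
  · intro A _ _ t y
    set c : K[X] := -(C ((n : K)⁻¹) * f.coeff (n - 1)) with hc
    have h1 : ((aevalAeval t y : K[X][X] →ₐ[K] A).toRingHom).comp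
        ((taylorAlgHom c : K[X][X] →ₐ[K[X]] K[X][X]).toRingHom) =
        (aevalAeval t (y + aeval t c) : K[X][X] →ₐ[K] A).toRingHom := by
      apply Polynomial.ringHom_ext
      · intro p
        show aevalAeval t y (taylor c (C p)) = aevalAeval t (y + aeval t c) (C p)
        rw [taylor_C, aevalAeval_C, aevalAeval_C]
      · show aevalAeval t y (taylor c X) = aevalAeval t (y + aeval t c) X
        rw [taylor_X, map_add, aevalAeval_C, aevalAeval_Y, aevalAeval_Y]
    exact (DFunLike.congr_fun h1 f).symm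

/-- the substitution `X ↦ γ X ^ N` -/
noncomputable def sb (γ : K) (N : ℕ) (p : K[X]) : K[X] := expand K N (p.comp (C γ * X))

theorem aeval_sb {A : Type} [CommRing A] [Algebra K A] (γ : K) (N : ℕ) (p : K[X]) (s : A) :
    aeval s (sb γ N p) = aeval (algebraMap K A γ * s ^ N) p := by
  rw [sb, expand_aeval, aeval_comp, map_mul, aeval_C, aeval_X]

theorem coeff_sb {γ : K} {N : ℕ} (hN : 0 < N) (p : K[X]) (i : ℕ) :
    (sb γ N p).coeff (N * i) = p.coeff i * γ ^ i := by
  rw [sb, coeff_expand hN, if_pos (dvd_mul_right _ _), Nat.mul_div_cancel_left _ hN,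
    comp_C_mul_X_coeff]

theorem coeff_sb' {γ : K} {N : ℕ} (hN : 0 < N) (p : K[X]) (i : ℕ) (h : ¬ N ∣ i) :
    (sb γ N p).coeff i = 0 := by
  rw [sb, coeff_expand hN, if_neg h]

theorem sb_zero (γ : K) (N : ℕ) : sb γ N (0 : K[X]) = 0 := by
  rw [sb, zero_comp, map_zero]

theorem sb_ne {γ : K} (hγ : γ ≠ 0) {N : ℕ} (hN : 0 < N) {p : K[X]} (hp : p ≠ 0) : sb γ N p ≠ 0 := by
  intro h
  have h1 := coeff_sb (γ := γ) hN p p.natDegree
  rw [h, coeff_zero] at h1
  have h2 : p.coeff p.natDegree ≠ 0 := leadingCoeff_ne_zero.2 hp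
  exact mul_ne_zero h2 (pow_ne_zero _ hγ) h1.symm

theorem natDegree_sb {γ : K} (hγ : γ ≠ 0) {N : ℕ} (hN : 0 < N) (p : K[X]) :
    (sb γ N p).natDegree = N * p.natDegree := by
  rw [sb, natDegree_expand, natDegree_comp, natDegree_C_mul_X γ hγ, mul_one, mul_comm]

theorem dvd_sb {γ : K} {N : ℕ} (hN : 0 < N) (p : K[X]) :
    X ^ (N * p.natTrailingDegree) ∣ sb γ N p := by
  rw [X_pow_dvd_iff]
  intro d hd
  by_cases h : N ∣ d
  · obtain ⟨i, rfl⟩ := h
    rw [coeff_sb hN, coeff_eq_zero_of_lt_natTrailingDegree (lt_of_mul_lt_mul_left hd (Nat.zero_le N)),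
      zero_mul]
  · exact coeff_sb' hN p d h

/-- the normal form -/
theorem normal {n N : ℕ} (hn : 2 ≤ n) (hN0 : 0 < N) (hN : ∀ i, 1 ≤ i → i ≤ n → i ∣ N)
    {f : K[X][X]} (hf : f.Monic) (hd : f.natDegree = n) (h1 : f.coeff (n - 1) = 0)
    (h2 : f ≠ X ^ n) {γ : K} (hγ : γ ≠ 0) :
    ∃ (k w : ℕ) (g : K[X][X]), g.Monic ∧ g.natDegree = n ∧ g.coeff (n - 1) = 0 ∧
      (∀ j, (g.coeff j).natDegree ≤ w * (n - j)) ∧
      (∃ j < n, (g.coeff j).coeff (w * (n - j)) ≠ 0) ∧ (∃ j < n, (g.coeff j).coeff 0 ≠ 0) ∧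
      ∀ (A : Type) [CommRing A] [Algebra K A] (s y : A),
        aevalAeval (algebraMap K A γ * s ^ N) (s ^ k * y) f = s ^ (k * n) * aevalAeval s y g := by
  classical
  set J : Finset ℕ := (Finset.range n).filter fun j => f.coeff j ≠ 0 with hJ
  have hJne : J.Nonempty := by
    by_contra hcon
    rw [Finset.not_nonempty_iff_eq_empty] at hcon
    apply h2
    ext1 j
    rw [coeff_X_pow]
    rcases lt_trichotomy j n with h | h | h
    · rw [if_neg h.ne]
      by_contra h3
      have : j ∈ J := Finset.mem_filter.2 ⟨Finset.mem_range.2 h, h3⟩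
      rw [hcon] at this
      exact absurd this (Finset.notMem_empty j)
    · rw [if_pos h, h, ← hd]
      exact hf.coeff_natDegree
    · rw [if_neg h.ne', coeff_eq_zero_of_natDegree_lt (by omega)]
  have hJ1 : ∀ j ∈ J, j < n ∧ f.coeff j ≠ 0 := fun j hj => by
    have := Finset.mem_filter.1 hj
    exact ⟨Finset.mem_range.1 this.1, this.2⟩
  -- the slopes
  set ko : ℕ → ℕ := fun j => N * (f.coeff j).natTrailingDegree / (n - j) with hko
  set kd : ℕ → ℕ := fun j => N * (f.coeff j).natDegree / (n - j) with hkd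
  have hdiv : ∀ j, j < n → (n - j) ∣ N := fun j hj => hN _ (by omega) (by omega)
  have eko : ∀ j, j < n → ko j * (n - j) = N * (f.coeff j).natTrailingDegree := fun j hj =>
    Nat.div_mul_cancel ((hdiv j hj).mul_right _)
  have ekd : ∀ j, j < n → kd j * (n - j) = N * (f.coeff j).natDegree := fun j hj =>
    Nat.div_mul_cancel ((hdiv j hj).mul_right _)
  obtain ⟨j1, hj1, hmin⟩ := Finset.exists_min_image J ko hJne
  obtain ⟨j2, hj2, hmax⟩ := Finset.exists_max_image J kd hJne
  obtain ⟨k, hk⟩ : ∃ k, k = ko j1 := ⟨_, rfl⟩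
  have hke : k ≤ kd j2 := by
    rw [hk]
    refine (Nat.div_le_div_right (Nat.mul_le_mul_left N (natTrailingDegree_le_natDegree _))).trans
      (hmax j1 hj1)
  -- the coefficients
  have hex : ∀ j, ∃ p : K[X], j < n → sb γ N (f.coeff j) = X ^ (k * (n - j)) * p := by
    intro j
    by_cases hj : j < n
    · by_cases hj0 : f.coeff j = 0
      · refine ⟨0, fun _ => ?_⟩
        rw [hj0, sb_zero, mul_zero]
      · have h3 : X ^ (k * (n - j)) ∣ sb γ N (f.coeff j) := by
          refine (pow_dvd_pow X ?_).trans (dvd_sb hN0 (f.coeff j))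
          rw [← eko j hj]
          refine Nat.mul_le_mul_right _ ?_
          rw [hk]
          exact hmin j (Finset.mem_filter.2 ⟨Finset.mem_range.2 hj, hj0⟩)
        obtain ⟨p, hp⟩ := h3
        exact ⟨p, fun _ => hp⟩
    · exact ⟨0, fun h => absurd h hj⟩
  choose p hp using hex
  have hp0 : ∀ j, j < n → f.coeff j = 0 → p j = 0 := by
    intro j hj h0
    have h3 := hp j hj
    rw [h0, sb_zero] at h3
    rcases mul_eq_zero.1 h3.symm with h4 | h4
    · exact absurd h4 (pow_ne_zero _ X_ne_zero)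
    · exact h4
  have hpd : ∀ j, j < n → f.coeff j ≠ 0 → p j ≠ 0 ∧
      (p j).natDegree = (kd j - k) * (n - j) ∧ k ≤ kd j := by
    intro j hj h0
    have h3 := hp j hj
    have h4 := natDegree_sb hγ hN0 (f.coeff j)
    have h5 : p j ≠ 0 := by
      intro h5
      rw [h5, mul_zero] at h3
      exact sb_ne hγ hN0 h0 h3
    rw [h3, natDegree_mul (pow_ne_zero _ X_ne_zero) h5, natDegree_X_pow, ← ekd j hj] at h4
    have h6 : k ≤ kd j := by
      rw [hk]
      refine (hmin j (Finset.mem_filter.2 ⟨Finset.mem_range.2 hj, h0⟩)).trans ?_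
      exact Nat.div_le_div_right (Nat.mul_le_mul_left N (natTrailingDegree_le_natDegree _))
    refine ⟨h5, ?_, h6⟩
    rw [Nat.sub_mul]
    omega
  set q : K[X][X] := ∑ j ∈ Finset.range n, monomial j (p j) with hq
  have hqc : ∀ j, q.coeff j = if j < n then p j else 0 := by
    intro j
    rw [hq, finsetSum_coeff]
    simp only [coeff_monomial]
    rw [Finset.sum_ite_eq']
    simp only [Finset.mem_range]
  have hqd : q.degree < n := by
    rw [degree_lt_iff_coeff_zero]
    intro m hm
    rw [hqc, if_neg (by omega)]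
  set g : K[X][X] := X ^ n + q with hg
  have hgm : g.Monic := monic_X_pow_add hqd
  have hgd : g.natDegree = n := by
    rw [hg, add_comm]
    have h3 : q.degree < (X ^ n : K[X][X]).degree := by
      rw [degree_X_pow]
      exact hqd
    rw [natDegree_add_eq_right_of_degree_lt h3, natDegree_X_pow]
  have hgc : ∀ j, j < n → g.coeff j = p j := by
    intro j hj
    rw [hg, coeff_add, coeff_X_pow, if_neg hj.ne, zero_add, hqc, if_pos hj]
  refine ⟨k, kd j2 - k, g, hgm, hgd, ?_, ?_, ?_, ?_, ?_⟩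
  · rw [hgc _ (by omega)]
    exact hp0 _ (by omega) h1
  · intro j
    rcases lt_or_ge j n with hj | hj
    · rw [hgc j hj]
      by_cases h0 : f.coeff j = 0
      · rw [hp0 j hj h0, natDegree_zero]
        exact Nat.zero_le _
      · rw [(hpd j hj h0).2.1]
        refine Nat.mul_le_mul_right _ (Nat.sub_le_sub_right ?_ _)
        exact hmax j (Finset.mem_filter.2 ⟨Finset.mem_range.2 hj, h0⟩)
    · rcases eq_or_lt_of_le hj with h3 | h3
      · have h4 : g.coeff j = 1 := by
          rw [← h3, ← hgd]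
          exact hgm.coeff_natDegree
        rw [h4, natDegree_one]
        exact Nat.zero_le _
      · rw [coeff_eq_zero_of_natDegree_lt (by omega), natDegree_zero]
        exact Nat.zero_le _
  · obtain ⟨h3, h4⟩ := hJ1 j2 hj2
    refine ⟨j2, h3, ?_⟩
    obtain ⟨h5, h6, -⟩ := hpd j2 h3 h4
    rw [hgc j2 h3, ← h6]
    exact leadingCoeff_ne_zero.2 h5
  · obtain ⟨h3, h4⟩ := hJ1 j1 hj1
    refine ⟨j1, h3, ?_⟩
    rw [hgc j1 h3]
    have h5 := congrArg (fun r => coeff r (k * (n - j1))) (hp j1 h3)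
    rw [coeff_X_pow_mul', if_pos le_rfl, Nat.sub_self] at h5
    rw [← h5, hk, eko j1 h3, coeff_sb hN0]
    refine mul_ne_zero ?_ (pow_ne_zero _ hγ)
    exact trailingCoeff_nonzero_iff_nonzero.2 h4
  · intro A _ _ s y
    rw [aA_eq, aA_eq, hd, hgd, Finset.mul_sum]
    refine Finset.sum_congr rfl fun j hj => ?_
    rw [← aeval_sb]
    have hj' := Nat.lt_succ_iff.1 (Finset.mem_range.1 hj)
    rcases eq_or_lt_of_le hj' with h3 | h3
    · rw [h3]
      have h4 : f.coeff n = 1 := by rw [← hd]; exact hf.coeff_natDegree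
      have h5 : g.coeff n = 1 := by rw [← hgd]; exact hgm.coeff_natDegree
      have h6 : aeval s (sb γ N (1 : K[X])) = (1 : A) := by
        rw [aeval_sb, map_one]
      rw [h4, h5, h6, map_one, one_mul, one_mul, mul_pow, ← pow_mul]
    · rw [hp j h3, hgc j h3, map_mul, map_pow, aeval_X, mul_pow, ← pow_mul]
      have h4 : k * n = k * (n - j) + k * j := by
        rw [← mul_add, Nat.sub_add_cancel hj']
      rw [h4, pow_add]
      ring

/-- the normal form has the required slopes -/
theorem slope_of [CharZero K] {n w : ℕ} (hn : 2 ≤ n) (hw : 0 < w) {g : K[X][X]} (hg : g.Monic)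
    (hd : g.natDegree = n) (h1 : g.coeff (n - 1) = 0)
    (hb : ∀ j, (g.coeff j).natDegree ≤ w * (n - j))
    (hi : ∃ j < n, (g.coeff j).coeff (w * (n - j)) ≠ 0) (h0 : ∃ j < n, (g.coeff j).coeff 0 ≠ 0) :
    Slope w n g where
  n2 := hn
  w0 := hw
  monic := hg
  deg := hd
  bd := hb
  r0 := by
    refine twoR hn (hg.map _) (by rw [hg.natDegree_map, hd]) ?_ ?_
    · rw [coeff_map, h1, map_zero]
    · intro h
      obtain ⟨j, hj, hj0⟩ := h0
      apply hj0
      have h2 := congrArg (fun r => coeff r j) h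
      rw [coeff_map, coeff_X_pow, if_neg hj.ne] at h2
      exact h2
  ri := by
    have hc : ∀ j, j ≤ n → (pinf w n g).coeff j = (g.coeff j).coeff (w * (n - j)) := by
      intro j hj
      rw [pinf, finsetSum_coeff]
      simp only [coeff_monomial]
      rw [Finset.sum_ite_eq', if_pos (Finset.mem_range.2 (by omega))]
    have hcn : (pinf w n g).coeff n = 1 := by
      rw [hc n le_rfl, Nat.sub_self, mul_zero]
      have h4 : g.coeff n = 1 := by rw [← hd]; exact hg.coeff_natDegree
      rw [h4, coeff_one_zero]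
    have hle : (pinf w n g).natDegree ≤ n := by
      rw [pinf]
      refine natDegree_sum_le_of_forall_le _ _ fun j hj => ?_
      exact (natDegree_monomial_le _).trans (Nat.lt_succ_iff.1 (Finset.mem_range.1 hj))
    have hm : (pinf w n g).Monic := monic_of_natDegree_le_of_coeff_eq_one n hle hcn
    have hdn : (pinf w n g).natDegree = n := by
      refine le_antisymm hle (le_natDegree_of_ne_zero ?_)
      rw [hcn]
      exact one_ne_zero
    refine twoR hn hm hdn ?_ ?_
    · rw [hc _ (by omega), h1, coeff_zero]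
    · intro h
      obtain ⟨j, hj, hj0⟩ := hi
      apply hj0
      have h2 := congrArg (fun r => coeff r j) h
      rw [hc j hj.le, coeff_X_pow, if_neg hj.ne] at h2
      exact h2

end Pool.Agent.Run7.h489.LV
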