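import Mathlib
import Pool.Agent.Run7.h489.LV.Aff

set_option autoImplicit false
set_option linter.unusedSectionVars false

/-!
The local inequalities at integral points.
-/

namespace Pool.Agent.Run7.h489.LV

open MvPolynomial Height NumberField IsDedekindDomain
open Pool.Agent.W180.OP (Pl av wt fv nrm le_nrm nrm_pos nrm_nonneg exists_nrm lam lam_eq wt_nonneg
  fv_support_finite)
open Pool.Agent.R404.TC (Sp cnt fmtS Ineq cons1)

variable {K : Type} [Field K] [NumberField K]

theorem cnt_zero {S : Finset (HeightOneSpectrum (𝓞 K))} {n : ℕ} {P : Fin n → K}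
    (hP : ∀ i, IsI S (P i)) (j : Fin n) (hj : IsU S (P j)) :
    cnt S 1 (X j : MvPolynomial (Fin n) K) P = 0 := by
  have hP0 : P ≠ 0 := fun h => hj.1 (by rw [h]; rfl)
  have he : eval P (X j : MvPolynomial (Fin n) K) = P j := eval_X j
  unfold cnt
  refine finsum_mem_eq_zero_of_forall_eq_zero fun v hv => ?_
  rw [lam_eq (fv v) 1 _ hP0 (by rw [he]; exact hj.1), he, hj.2 v hv, Real.log_one, Nat.cast_one,
    one_mul, sub_zero]
  have h3 : nrm (fv v) P = 1 := by
    apply le_antisymm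
    · obtain ⟨i, hi⟩ := exists_nrm (fv v) (Fin.pos j) P
      rw [← hi]
      exact hP i v hv
    · have := le_nrm (fv v) P j
      rwa [hj.2 v hv] at this
  rw [h3, Real.log_one]

theorem lam_X {n : ℕ} {P : Fin n → K} (j : Fin n) (hj : P j ≠ 0) (v : Pl K) :
    lam (av v) 1 (X j : MvPolynomial (Fin n) K) P =
      Real.log (nrm (av v) P) - Real.log (av v (P j)) := by
  have hP0 : P ≠ 0 := fun h => hj (by rw [h]; rfl)
  have he : eval P (X j : MvPolynomial (Fin n) K) = P j := eval_X j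
  rw [lam_eq (av v) 1 _ hP0 (by rw [he]; exact hj), he, Nat.cast_one, one_mul]

theorem lam_nonneg {n : ℕ} {P : Fin n → K} (j : Fin n) (hj : P j ≠ 0) (v : Pl K) :
    0 ≤ Real.log (nrm (av v) P) - Real.log (av v (P j)) := by
  have h1 : 0 < av v (P j) := (av v).pos hj
  have h2 := Real.log_le_log h1 (le_nrm (av v) P j)
  linarith

/-- at every place all but one of the sections are large -/
theorem loc2 {w κ m : ℕ} {G : Fin m → MvPolynomial (Fin (w + 1 + (κ + 1))) K} {c : ℝ} (hc : 0 < c)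
    (hI : Ineq (κ + 1) G (fun c => (X (sv w κ c) : MvPolynomial (Fin (w + 1 + (κ + 1))) K))
        (fun _ => 1) c) (S : Finset (HeightOneSpectrum (𝓞 K))) (η : ℝ) (hη : 0 < η) :
    ∃ (t : ℕ) (Z : Finset (MvPolynomial (Fin (w + 1 + (κ + 1))) K)) (C : ℝ), 0 ≤ C ∧
      (∀ Φ ∈ Z, Φ.IsHomogeneous t ∧ Φ ∉ Ideal.span (Set.range G)) ∧
      ∀ P : Fin (w + 1 + (κ + 1)) → K, (∀ i, IsI S (P i)) → (∀ c, IsU S (P (sv w κ c))) →
        (∀ j, eval P (G j) = 0) → (∀ Φ ∈ Z, eval P Φ ≠ 0) →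
        ∀ v ∈ Sp S, ∀ c0 : Fin (κ + 2), ∃ c1, c1 ≠ c0 ∧
          Real.log (nrm (av v) P) - Real.log (av v (P (sv w κ c1))) ≤ η * logHeight P + C := by
  classical
  obtain ⟨t, Z, C, hZ, hC⟩ := cons1 G _ _ (fun _ => one_pos) c hI S (c * η) (by positivity)
  refine ⟨t, Z, |C| / c, by positivity, hZ, ?_⟩
  intro P hPI hPU hPG hPZ v0 hv0 c0
  have hP0 : P ≠ 0 := fun h => (hPU 0).1 (by rw [h]; rfl)
  have hne : ∀ c, P (sv w κ c) ≠ 0 := fun c => (hPU c).1
  set σ : Fin (κ + 1) → Fin (κ + 2) := c0.succAbove with hσ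
  have hσi : Function.Injective σ := Fin.succAbove_right_injective
  set l : Fin (κ + 1) → ℝ := fun j => Real.log (nrm (av v0) P) -
    Real.log (av v0 (P (sv w κ (σ j)))) with hl
  obtain ⟨j0, -, hj0⟩ := Finset.exists_min_image (Finset.univ : Finset (Fin (κ + 1))) l
    Finset.univ_nonempty
  set μ : Pl K → ℝ := fun v => if v = v0 then l j0 else 0 with hμ
  have h1 := hC P hP0 hPG (fun c => by rw [eval_X]; exact hne c) hPZ (fun _ => σ) (fun _ => hσi) μ
    (by
      intro v _ j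
      rw [lam_X _ (hne _), hμ]
      simp only
      split_ifs with hv
      · rw [hv]
        exact hj0 j (Finset.mem_univ j)
      · exact lam_nonneg _ (hne _) v)
  have h2 : ∑ i : Fin (κ + 2), cnt S ((fun _ : Fin (κ + 2) => 1) i)
      ((fun c => (X (sv w κ c) : MvPolynomial (Fin (w + 1 + (κ + 1))) K)) i) P /
        (((fun _ : Fin (κ + 2) => 1) i : ℕ) : ℝ) = 0 := by
    refine Finset.sum_eq_zero fun i _ => ?_
    simp only
    rw [cnt_zero hPI _ (hPU i), zero_div]
  rw [h2] at h1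
  have h3 : ((κ + 2 : ℕ) : ℝ) - ((κ + 1 : ℕ) : ℝ) - 1 = 0 := by
    push_cast
    ring
  rw [h3, zero_mul, zero_add, zero_add] at h1
  have h4 : ∑ v ∈ Sp S, wt v * μ v = wt v0 * l j0 := by
    rw [Finset.sum_eq_single v0]
    · rw [hμ]
      simp
    · intro v _ hv
      rw [hμ]
      simp only
      rw [if_neg hv, mul_zero]
    · intro h
      exact absurd hv0 h
  rw [h4] at h1
  refine ⟨σ j0, Fin.succAbove_ne _ _, ?_⟩
  have h5 : 0 ≤ l j0 := lam_nonneg _ (hne _) v0
  have h6 := wt_pos v0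
  have h7 : c * l j0 ≤ c * (wt v0 * l j0) := by
    apply mul_le_mul_of_nonneg_left _ hc.le
    nlinarith
  have h8 : c * l j0 ≤ c * (η * logHeight P + |C| / c) := by
    have h9 : c * (η * logHeight P + |C| / c) = c * η * logHeight P + |C| := by
      field_simp
    rw [h9]
    have := le_abs_self C
    linarith
  exact le_of_mul_le_mul_left h8 hc

end Pool.Agent.Run7.h489.LV
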