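import Mathlib

set_option autoImplicit false
set_option linter.unusedSectionVars false

/-!
Perfect powers, irreducibility of `κ V ^ n - f`, and elimination of `V`.
-/

namespace Pool.Agent.Run7.h489.LV

open Polynomial

/-- monic polynomials with equal powers are equal -/
theorem monic_pow_inj {R : Type} [CommRing R] [IsDomain R] [CharZero R] {p q : R[X]} (hp : p.Monic)
    (hq : q.Monic) {N : ℕ} (hN : 0 < N) (h : p ^ N = q ^ N) : p = q := by
  have hdeg : p.natDegree = q.natDegree := by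
    have h1 := congrArg natDegree h
    rw [hp.natDegree_pow, hq.natDegree_pow] at h1
    exact Nat.eq_of_mul_eq_mul_left hN h1
  have h1 := (Commute.all p q).mul_geom_sum₂ N
  rw [h, sub_self] at h1
  rcases mul_eq_zero.1 h1 with h2 | h2
  · exact sub_eq_zero.1 h2
  · exfalso
    have h3 := congrArg (fun s => s.coeff ((N - 1) * p.natDegree)) h2
    simp only [finsetSum_coeff, coeff_zero] at h3
    have h4 : ∀ i ∈ Finset.range N, (p ^ i * q ^ (N - 1 - i)).coeff ((N - 1) * p.natDegree) = 1 := by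
      intro i hi
      have hi' := Finset.mem_range.1 hi
      have hm : (p ^ i * q ^ (N - 1 - i)).Monic := (hp.pow i).mul (hq.pow _)
      have hd : (p ^ i * q ^ (N - 1 - i)).natDegree = (N - 1) * p.natDegree := by
        rw [(hp.pow i).natDegree_mul (hq.pow _), hp.natDegree_pow, hq.natDegree_pow, ← hdeg,
          ← add_mul]
        congr 1
        omega
      rw [← hd]
      exact hm.coeff_natDegree
    rw [Finset.sum_congr rfl h4, Finset.sum_const, Finset.card_range, nsmul_eq_mul, mul_one] at h3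
    exact hN.ne' (by exact_mod_cast h3)

/-- a criterion of irreducibility -/
theorem irr_of {F : Type} [Field F] {n : ℕ} (hn : 0 < n) (g : F)
    (h : ∀ m, 0 < m → m < n → ∀ c : F, c ^ n ≠ g ^ m ∧ c ^ n ≠ -g ^ m) :
    Irreducible (X ^ n - C g : F[X]) := by
  have hm : (X ^ n - C g : F[X]).Monic := monic_X_pow_sub_C g hn.ne'
  have hd : (X ^ n - C g : F[X]).natDegree = n := natDegree_X_pow_sub_C
  rw [hm.irreducible_iff_natDegree', hd]
  refine ⟨?_, ?_⟩
  · intro h1
    rw [h1, natDegree_one] at hd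
    omega
  · intro a b ha hb hab hdeg
    rw [Finset.mem_Ioc] at hdeg
    obtain ⟨h1, h2⟩ := hdeg
    have h3 : b.natDegree < n := by omega
    let Ω := AlgebraicClosure F
    let φ := algebraMap F Ω
    have hbm : (b.map φ).Monic := hb.map φ
    have hs : (b.map φ).Splits := IsAlgClosed.splits _
    have h4 := hs.coeff_zero_eq_prod_roots_of_monic hbm
    rw [coeff_map, natDegree_map] at h4
    have h5 : ∀ r ∈ (b.map φ).roots, r ^ n = φ g := by
      intro r hr
      have h6 : (b.map φ).eval r = 0 := (mem_roots'.1 hr).2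
      have h7 : ((X ^ n - C g : F[X]).map φ).eval r = 0 := by
        rw [← hab, Polynomial.map_mul, eval_mul, h6, mul_zero]
      rw [Polynomial.map_sub, Polynomial.map_pow, map_X, map_C, eval_sub, eval_pow, eval_X, eval_C,
        sub_eq_zero] at h7
      exact h7
    have h6 : (b.map φ).roots.prod ^ n = φ g ^ b.natDegree := by
      have h7 : Multiset.map (fun r => r ^ n) (b.map φ).roots =
          Multiset.replicate (b.natDegree) (φ g) := by
        rw [Multiset.eq_replicate]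
        refine ⟨?_, ?_⟩
        · rw [Multiset.card_map, ← hs.natDegree_eq_card_roots, natDegree_map]
        · intro x hx
          obtain ⟨r, hr, rfl⟩ := Multiset.mem_map.1 hx
          exact h5 r hr
      have h8 : (b.map φ).roots.prod ^ n = (Multiset.map (fun r => r ^ n) (b.map φ).roots).prod := by
        rw [Multiset.prod_map_pow, Multiset.map_id']
      rw [h8, h7, Multiset.prod_replicate]
    have h7 : (φ (b.coeff 0)) ^ n = ((-1) ^ b.natDegree) ^ n * φ g ^ b.natDegree := by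
      rw [h4, mul_pow, h6]
    have h8 : ((-1 : Ω) ^ b.natDegree) ^ n = 1 ∨ ((-1 : Ω) ^ b.natDegree) ^ n = -1 := by
      rw [← pow_mul]
      exact neg_one_pow_eq_or Ω _
    obtain ⟨e1, e2⟩ := h b.natDegree h1 h3 (b.coeff 0)
    rcases h8 with h8 | h8
    · rw [h8, one_mul, ← map_pow, ← map_pow] at h7
      exact e1 (φ.injective h7)
    · rw [h8, neg_one_mul, ← map_pow, ← map_pow, ← map_neg] at h7
      exact e2 (φ.injective h7)

section

variable {K : Type} [Field K] [CharZero K]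

/-- `f` is not a proper power of a monic polynomial -/
def NoPow {R : Type} [CommRing R] (f : R[X]) : Prop := ∀ (p : ℕ) (g : R[X]), 2 ≤ p → g.Monic → g ^ p ≠ f

/-- a solution of `c ^ n = ± (f / κ) ^ m` makes `f` a proper power -/
theorem no_pow {f : K[X][X]} (hf : f.Monic) (hnp : NoPow f) {κ : K} (hκ : κ ≠ 0)
    {n m : ℕ} (hm : 0 < m) (hmn : m < n) (c : FractionRing K[X][X])
    (hc : c ^ (2 * n) = (algebraMap _ (FractionRing K[X][X]) (f * C (C κ⁻¹))) ^ (2 * m)) : False := by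
  set φ := algebraMap K[X][X] (FractionRing K[X][X]) with hφ
  have hinj : Function.Injective φ := IsFractionRing.injective _ _
  set g : FractionRing K[X][X] := φ (f * C (C κ⁻¹)) with hg
  have hg0 : g ≠ 0 := by
    rw [hg, Ne, map_eq_zero_iff φ hinj]
    refine mul_ne_zero hf.ne_zero ?_
    rw [Ne, C_eq_zero, C_eq_zero]
    exact inv_ne_zero hκ
  have hc0 : c ≠ 0 := by
    rintro rfl
    rw [zero_pow (by omega)] at hc
    exact pow_ne_zero _ hg0 hc.symm
  -- Bezout
  obtain ⟨d, hd⟩ : ∃ d, d = Nat.gcd n m := ⟨_, rfl⟩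
  have hd0 : 0 < d := by rw [hd]; exact Nat.gcd_pos_of_pos_right _ hm
  obtain ⟨n', hn'⟩ : d ∣ n := by rw [hd]; exact Nat.gcd_dvd_left _ _
  obtain ⟨m', hm'⟩ : d ∣ m := by rw [hd]; exact Nat.gcd_dvd_right _ _
  have hn2 : 2 ≤ n' := by
    have h1 : 0 < m' := by
      rcases Nat.eq_zero_or_pos m' with h | h
      · rw [h] at hm'; omega
      · exact h
    have h2 : m' < n' := by
      rw [hn', hm'] at hmn
      exact lt_of_mul_lt_mul_left hmn (Nat.zero_le d)
    omega
  have hbz := Nat.gcd_eq_gcd_ab n m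
  rw [← hd] at hbz
  obtain ⟨x, hx⟩ : ∃ x : ℤ, x = Nat.gcdA n m := ⟨_, rfl⟩
  obtain ⟨y, hy⟩ : ∃ y : ℤ, y = Nat.gcdB n m := ⟨_, rfl⟩
  rw [← hx, ← hy] at hbz
  -- `n x + m y = d`
  set ρ : FractionRing K[X][X] := c ^ y * g ^ x with hρ
  have h1 : ρ ^ (2 * n) = g ^ (2 * d) := by
    have e1 : (c ^ y) ^ (2 * n) = (c ^ (2 * n)) ^ y := by
      rw [← zpow_natCast, ← zpow_natCast, ← zpow_mul, ← zpow_mul, mul_comm]
    rw [hρ, mul_pow, e1, hc]
    have e2 : (g ^ (2 * m)) ^ y * (g ^ x) ^ (2 * n) = g ^ ((2 : ℤ) * (n * x + m * y)) := by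
      rw [← zpow_natCast, ← zpow_natCast, ← zpow_mul, ← zpow_mul, ← zpow_add₀ hg0]
      congr 1
      push_cast
      ring
    rw [e2, ← hbz]
    exact_mod_cast rfl
  have h2 : IsIntegral K[X][X] ρ := by
    refine IsIntegral.of_pow (n := 2 * n) (by omega) ?_
    rw [h1, hg, ← map_pow]
    exact isIntegral_algebraMap
  obtain ⟨P, hP⟩ := IsIntegrallyClosed.algebraMap_eq_of_integral h2
  have h3 : P ^ (2 * n) = (f * C (C κ⁻¹)) ^ (2 * d) := by
    apply hinj
    rw [map_pow, map_pow]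
    exact (congrArg (· ^ (2 * n)) hP).trans h1
  -- leading coefficients
  have h4 : P.leadingCoeff ^ (2 * n) = C ((κ⁻¹) ^ (2 * d)) := by
    have h5 := congrArg leadingCoeff h3
    rw [leadingCoeff_pow, mul_pow, leadingCoeff_mul, (hf.pow _).leadingCoeff, one_mul, ← C_pow,
      leadingCoeff_C, ← C_pow] at h5
    exact h5
  have h5 : IsUnit P.leadingCoeff := by
    have h6 : IsUnit (P.leadingCoeff ^ (2 * n)) := by
      rw [h4, isUnit_C]
      exact (isUnit_iff_ne_zero.2 (pow_ne_zero _ (inv_ne_zero hκ)))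
    exact (isUnit_pow_iff (by omega)).1 h6
  obtain ⟨l, hl, hlP⟩ := Polynomial.isUnit_iff.1 h5
  have hl0 : l ≠ 0 := hl.ne_zero
  set Q : K[X][X] := C (C l⁻¹) * P with hQ
  have hQm : Q.Monic := by
    rw [Monic, hQ, leadingCoeff_mul, leadingCoeff_C, ← hlP, ← C_mul, inv_mul_cancel₀ hl0, C_1]
  have h6 : Q ^ (2 * n) = f ^ (2 * d) := by
    have e1 : Q ^ (2 * n) = C (C ((l⁻¹) ^ (2 * n) * (κ⁻¹) ^ (2 * d))) * f ^ (2 * d) := by
      rw [hQ, mul_pow, h3, mul_pow]
      simp only [C_mul, C_pow]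
      ring
    have e2 := congrArg leadingCoeff e1
    rw [(hQm.pow _).leadingCoeff, leadingCoeff_mul, leadingCoeff_C, (hf.pow _).leadingCoeff,
      mul_one] at e2
    rw [e1, ← e2, C_1, one_mul]
  have h7 : (Q ^ n') ^ (2 * d) = f ^ (2 * d) := by
    rw [← pow_mul, ← h6]
    congr 1
    rw [hn']
    ring
  exact hnp n' Q hn2 hQm (monic_pow_inj (hQm.pow _) hf (by omega) h7)

/-- elimination of `V` -/
theorem elim {f : K[X][X]} (hf : f.Monic) (hnp : NoPow f) {κ : K} (hκ : κ ≠ 0) {n : ℕ} (hn : 0 < n)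
    (P : K[X][X][X]) (hP : ¬ (C (C (C κ)) * X ^ n - C f) ∣ P) :
    ∃ Ψ : K[X][X], Ψ ≠ 0 ∧ ∃ A B : K[X][X][X],
      A * P + B * (C (C (C κ)) * X ^ n - C f) = C Ψ := by
  let F := FractionRing K[X][X]
  set φ := algebraMap K[X][X] F with hφ
  have hinj : Function.Injective φ := IsFractionRing.injective _ _
  obtain ⟨g0, hg0⟩ : ∃ g0 : K[X][X], g0 = f * C (C κ⁻¹) := ⟨_, rfl⟩
  have hirr : Irreducible (X ^ n - C (φ g0) : F[X]) := by
    refine irr_of hn _ fun m hm hmn c => ⟨fun h => ?_, fun h => ?_⟩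
    · refine no_pow hf hnp hκ hm hmn c ?_
      rw [← hφ, ← hg0, pow_mul', h, ← pow_mul, mul_comm m 2]
    · refine no_pow hf hnp hκ hm hmn c ?_
      rw [← hφ, ← hg0, pow_mul', h, neg_sq, ← pow_mul, mul_comm m 2]
  have hfac : (C (C (C κ)) * X ^ n - C f : K[X][X][X]) = C (C (C κ)) * (X ^ n - C g0) := by
    have h1 : (C (C κ) : K[X][X]) * C (C κ⁻¹) = 1 := by
      rw [← C_mul, ← C_mul, mul_inv_cancel₀ hκ, C_1, C_1]
    have h2 : f = C (C κ) * g0 := by
      calc f = f * 1 := (mul_one f).symm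
        _ = f * (C (C κ) * C (C κ⁻¹)) := by rw [h1]
        _ = C (C κ) * g0 := by rw [hg0]; ring
    calc (C (C (C κ)) * X ^ n - C f : K[X][X][X]) = C (C (C κ)) * X ^ n - C (C (C κ) * g0) := by
          rw [← h2]
      _ = C (C (C κ)) * (X ^ n - C g0) := by rw [C_mul]; ring
  have hu : IsUnit (C (C (C κ)) : K[X][X][X]) := by
    rw [isUnit_C, isUnit_C, isUnit_C]
    exact isUnit_iff_ne_zero.2 hκ
  have hP' : ¬ (X ^ n - C g0) ∣ P := by
    intro h
    apply hP
    rw [hfac]
    obtain ⟨Q, hQ⟩ := h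
    obtain ⟨c, hc⟩ := hu.exists_right_inv
    refine ⟨c * Q, ?_⟩
    calc P = (X ^ n - C g0) * Q := hQ
      _ = (C (C (C κ)) * c) * ((X ^ n - C g0) * Q) := by rw [hc, one_mul]
      _ = C (C (C κ)) * (X ^ n - C g0) * (c * Q) := by ring
  have hmap : ((X ^ n - C g0 : K[X][X][X])).map φ = X ^ n - C (φ g0) := by
    rw [Polynomial.map_sub, Polynomial.map_pow, map_X, map_C]
  have hndvd : ¬ (X ^ n - C (φ g0) : F[X]) ∣ P.map φ := by
    rw [← hmap, map_dvd_map φ hinj (monic_X_pow_sub_C g0 hn.ne')]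
    exact hP'
  obtain ⟨u, v, huv⟩ := (hirr.coprime_iff_not_dvd.2 hndvd).symm
  obtain ⟨b1, hb1, e1⟩ := IsLocalization.integerNormalization_spec (nonZeroDivisors K[X][X]) u
  obtain ⟨b2, hb2, e2⟩ := IsLocalization.integerNormalization_spec (nonZeroDivisors K[X][X]) v
  set U := IsLocalization.integerNormalization (nonZeroDivisors K[X][X]) u
  set W := IsLocalization.integerNormalization (nonZeroDivisors K[X][X]) v
  have hb10 : b1 ≠ 0 := nonZeroDivisors.ne_zero hb1
  have hb20 : b2 ≠ 0 := nonZeroDivisors.ne_zero hb2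
  have h1 : C b2 * U * P + C b1 * W * (X ^ n - C g0) = C (b1 * b2) := by
    apply map_injective φ hinj
    rw [Polynomial.map_add, Polynomial.map_mul, Polynomial.map_mul, Polynomial.map_mul,
      Polynomial.map_mul, map_C, map_C, map_C, hmap, e1, e2, Algebra.smul_def, Algebra.smul_def,
      map_mul φ, C_mul]
    have h3 : ∀ b : K[X][X], (algebraMap K[X][X] F[X]) b = C (φ b) := fun b => rfl
    rw [h3, h3]
    calc C (φ b2) * (C (φ b1) * u) * P.map φ + C (φ b1) * (C (φ b2) * v) * (X ^ n - C (φ g0)) =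
          (C (φ b1) * C (φ b2)) * (u * P.map φ + v * (X ^ n - C (φ g0))) := by ring
      _ = C (φ b1) * C (φ b2) := by rw [huv, mul_one]
  refine ⟨b1 * b2, mul_ne_zero hb10 hb20, C b2 * U, C b1 * W * C (C (C κ⁻¹)), ?_⟩
  rw [hfac, ← h1]
  have h2 : (C (C (C κ⁻¹)) * C (C (C κ)) : K[X][X][X]) = 1 := by
    rw [← C_mul, ← C_mul, ← C_mul, inv_mul_cancel₀ hκ, C_1, C_1, C_1]
  calc C b2 * U * P + C b1 * W * C (C (C κ⁻¹)) * (C (C (C κ)) * (X ^ n - C g0)) =
        C b2 * U * P + C b1 * W * (X ^ n - C g0) * (C (C (C κ⁻¹)) * C (C (C κ))) := by ring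
    _ = C b2 * U * P + C b1 * W * (X ^ n - C g0) := by rw [h2, mul_one]

end

end Pool.Agent.Run7.h489.LV
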