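import Mathlib
import Pool.Agent.Run7.h489.LV.Form
import Pool.Agent.Run7.h489.LV.PP
import Pool.Agent.Run7.h489.LV.Ineq2

set_option autoImplicit false
set_option linter.unusedSectionVars false

/-!
The two applications of the inequality.
-/

namespace Pool.Agent.Run7.h489.LV

open MvPolynomial Height NumberField IsDedekindDomain
open Pool.Agent.W180.OP (Pl av wt fv nrm le_nrm nrm_pos nrm_nonneg exists_nrm lam lam_eq wt_nonneg
  fv_support_finite)
open Pool.Agent.R404.TC (Sp cnt fmtS Ineq cons1)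

section alg

variable {K : Type} [Field K]

/-- evaluation at three elements -/
noncomputable def E3 {A : Type} [CommRing A] [Algebra K A] (t y V : A) :
    Polynomial (Polynomial (Polynomial K)) →ₐ[K] A :=
  { Polynomial.eval₂RingHom (Polynomial.aevalAeval t y : Polynomial (Polynomial K) →ₐ[K] A).toRingHom V with
    commutes' := by
      intro r
      have h1 : algebraMap K (Polynomial (Polynomial (Polynomial K))) r =
          Polynomial.C (algebraMap K (Polynomial (Polynomial K)) r) := rfl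
      show Polynomial.eval₂ _ _ _ = _
      rw [h1, Polynomial.eval₂_C]
      exact AlgHom.commutes _ r }

theorem E3_C {A : Type} [CommRing A] [Algebra K A] (t y V : A) (p : Polynomial (Polynomial K)) :
    E3 t y V (Polynomial.C p) = Polynomial.aevalAeval t y p := Polynomial.eval₂_C _ _

theorem E3_X {A : Type} [CommRing A] [Algebra K A] (t y V : A) :
    E3 (K := K) t y V Polynomial.X = V := Polynomial.eval₂_X _ _

theorem aA_CX {A : Type} [CommRing A] [Algebra K A] (t y : A) :
    Polynomial.aevalAeval t y (Polynomial.C Polynomial.X : Polynomial (Polynomial K)) = t :=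
  Polynomial.aevalAeval_X t y

theorem aA_X {A : Type} [CommRing A] [Algebra K A] (t y : A) :
    Polynomial.aevalAeval t y (Polynomial.X : Polynomial (Polynomial K)) = y :=
  Polynomial.aevalAeval_Y t y

theorem aA_K (t y : K) (p : Polynomial (Polynomial K)) :
    Polynomial.aevalAeval t y p = Polynomial.evalEval t y p := by
  rw [Polynomial.coe_aevalAeval_eq_evalEval]

theorem ev_aeval {A B : Type} [CommRing A] [CommRing B] [Algebra K A] [Algebra K B] (φ : A →ₐ[K] B)
    {n : ℕ} (x : Fin n → A) (p : MvPolynomial (Fin n) K) :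
    φ (aeval x p) = aeval (fun i => φ (x i)) p := by
  have h : φ.comp (aeval x) = aeval (fun i => φ (x i)) := by
    apply MvPolynomial.algHom_ext
    intro i
    rw [AlgHom.comp_apply, aeval_X, aeval_X]
  exact DFunLike.congr_fun h p

/-- the binomials vanish at the affine points -/
theorem bin_xp {w κ : ℕ} (hw : 0 < w) {A : Type} [CommRing A] [Algebra K A] (t : A)
    (y : Fin (κ + 1) → A) (p : MvPolynomial (Fin (w + 1 + (κ + 1))) K)
    (hp : p ∈ Ideal.span (bin (ex w (κ + 1)) K)) : aeval (xp w κ t y) p = 0 := by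
  refine Submodule.span_induction (p := fun p _ => aeval (xp w κ t y) p = 0) ?_ ?_ ?_ ?_ hp
  · rintro _ ⟨α, β, h, rfl⟩
    rw [map_sub, aeval_xp_mono hw, aeval_xp_mono hw, h, sub_self]
  · rw [map_zero]
  · intro a b _ _ ha hb
    rw [map_add, ha, hb, add_zero]
  · intro a b _ hb
    rw [smul_eq_mul, map_mul, hb, mul_zero]

theorem xp_sv0 {w κ : ℕ} {A : Type} [CommRing A] (t : A) (y : Fin (κ + 1) → A) :
    xp w κ t y (sv w κ 0) = 1 := by
  show xp w κ t y (Fin.castAdd (κ + 1) 0) = 1
  rw [xp_left]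
  simp

theorem xp_sv1 {w κ : ℕ} {A : Type} [CommRing A] (t : A) (y : Fin (κ + 1) → A) :
    xp w κ t y (sv w κ 1) = t ^ w := by
  show xp w κ t y (Fin.castAdd (κ + 1) (Fin.last w)) = t ^ w
  rw [xp_left]
  simp

theorem xp_sv2 {w κ : ℕ} {A : Type} [CommRing A] (t : A) (y : Fin (κ + 1) → A) (c : Fin κ) :
    xp w κ t y (sv w κ c.succ.succ) = y c.succ := by
  show xp w κ t y (Fin.natAdd (w + 1) c.succ) = y c.succ
  rw [xp_right]

/-- the greatest common divisor with a monic polynomial -/
theorem gcd_elim {f : Polynomial (Polynomial K)} (hf : f.Monic) {P : Polynomial (Polynomial K)}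
    (hP : ¬ f ∣ P) : ∃ (g : Polynomial (Polynomial K)) (d : Polynomial K), g.Monic ∧
      g.natDegree < f.natDegree ∧ d ≠ 0 ∧
        ∃ A B : Polynomial (Polynomial K), A * P + B * f = Polynomial.C d * g := by
  classical
  let F := FractionRing (Polynomial K)
  set φ := algebraMap (Polynomial K) F with hφ
  have hinj : Function.Injective φ := IsFractionRing.injective _ _
  set G := gcd (P.map φ) (f.map φ) with hG
  have hfm : (f.map φ).Monic := hf.map φ
  have hGf : G ∣ f.map φ := gcd_dvd_right _ _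
  have hGP : G ∣ P.map φ := gcd_dvd_left _ _
  have hG0 : G ≠ 0 := fun h => hfm.ne_zero (zero_dvd_iff.1 (h ▸ hGf))
  have hl0 : G.leadingCoeff ≠ 0 := Polynomial.leadingCoeff_ne_zero.2 hG0
  obtain ⟨g, hg⟩ := IsIntegrallyClosed.eq_map_mul_C_of_dvd F hf hGf
  have hgG : g.map φ = G * Polynomial.C (G.leadingCoeff)⁻¹ := by
    rw [← hg, mul_assoc, ← Polynomial.C_mul]
    have h1 : (Polynomial.map (algebraMap (Polynomial K) F) g * Polynomial.C G.leadingCoeff).leadingCoeff =
      G.leadingCoeff := by rw [hg]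
    rw [hg, mul_inv_cancel₀ hl0, Polynomial.C_1, mul_one]
  have hgm : (g.map φ).Monic := by
    rw [hgG]
    exact Polynomial.monic_mul_leadingCoeff_inv hG0
  have hgm' : g.Monic := Polynomial.monic_of_injective hinj hgm
  have hlu : IsUnit (Polynomial.C (G.leadingCoeff)⁻¹) := by
    rw [Polynomial.isUnit_C]
    exact isUnit_iff_ne_zero.2 (inv_ne_zero hl0)
  have hgf : g.map φ ∣ f.map φ := by
    rw [hgG]
    exact (hlu.mul_right_dvd).2 hGf
  have hgf' : g ∣ f := (Polynomial.map_dvd_map φ hinj hgm').1 hgf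
  have hgP : g.map φ ∣ P.map φ := by
    rw [hgG]
    exact (hlu.mul_right_dvd).2 hGP
  have hgP' : g ∣ P := (Polynomial.map_dvd_map φ hinj hgm').1 hgP
  -- Bezout
  obtain ⟨u0, v0, huv0⟩ : ∃ u v, u * P.map φ + v * f.map φ = G := by
    have h1 : G ∈ Ideal.span {P.map φ, f.map φ} := by
      rw [← span_gcd]
      exact Ideal.mem_span_singleton_self _
    obtain ⟨u, v, huv⟩ := Ideal.mem_span_pair.1 h1
    exact ⟨u, v, huv⟩
  set u := u0 * Polynomial.C (G.leadingCoeff)⁻¹ with hu
  set v := v0 * Polynomial.C (G.leadingCoeff)⁻¹ with hv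
  have huv : u * P.map φ + v * f.map φ = g.map φ := by
    have h1 : u * P.map φ + v * f.map φ = (u0 * P.map φ + v0 * f.map φ) *
        Polynomial.C (G.leadingCoeff)⁻¹ := by
      rw [hu, hv]
      ring
    rw [h1, huv0, hgG]
  obtain ⟨b1, hb1, e1⟩ := IsLocalization.integerNormalization_spec (nonZeroDivisors (Polynomial K)) u
  obtain ⟨b2, hb2, e2⟩ := IsLocalization.integerNormalization_spec (nonZeroDivisors (Polynomial K)) v
  set U := IsLocalization.integerNormalization (nonZeroDivisors (Polynomial K)) u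
  set W := IsLocalization.integerNormalization (nonZeroDivisors (Polynomial K)) v
  refine ⟨g, b1 * b2, hgm', ?_, mul_ne_zero (nonZeroDivisors.ne_zero hb1)
    (nonZeroDivisors.ne_zero hb2), Polynomial.C b2 * U, Polynomial.C b1 * W, ?_⟩
  · rcases lt_or_ge g.natDegree f.natDegree with h | h
    · exact h
    · exfalso
      apply hP
      have h1 : g = f := Polynomial.eq_of_dvd_of_natDegree_le_of_leadingCoeff hgf' h
        (by rw [hgm'.leadingCoeff, hf.leadingCoeff])
      rw [← h1]
      exact hgP'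
  · apply Polynomial.map_injective φ hinj
    rw [Polynomial.map_add, Polynomial.map_mul, Polynomial.map_mul, Polynomial.map_mul,
      Polynomial.map_mul, Polynomial.map_mul, Polynomial.map_C, Polynomial.map_C, Polynomial.map_C,
      e1, e2, Algebra.smul_def, Algebra.smul_def, map_mul φ, Polynomial.C_mul]
    have h3 : ∀ b : Polynomial K, (algebraMap (Polynomial K) (Polynomial F)) b =
      Polynomial.C (φ b) := fun b => rfl
    rw [h3, h3]
    calc Polynomial.C (φ b2) * (Polynomial.C (φ b1) * u) * P.map φ +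
          Polynomial.C (φ b1) * (Polynomial.C (φ b2) * v) * f.map φ =
          (Polynomial.C (φ b1) * Polynomial.C (φ b2)) * (u * P.map φ + v * f.map φ) := by ring
      _ = _ := by rw [huv]

end alg

variable {K : Type} [Field K] [NumberField K]

theorem IsI.evalP {S : Finset (HeightOneSpectrum (𝓞 K))} {p : Polynomial K}
    (hp : ∀ i, IsI S (p.coeff i)) {t : K} (ht : IsI S t) : IsI S (p.eval t) := by
  rw [Polynomial.eval_eq_sum_range]
  exact IsI.sum _ _ fun i _ => (hp i).mul (ht.pow i)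

theorem intg {S : Finset (HeightOneSpectrum (𝓞 K))} {f : Polynomial (Polynomial K)} (hf : f.Monic)
    (hd : 0 < f.natDegree) (hc : ∀ j i, IsI S ((f.coeff j).coeff i)) {t y : K} (ht : IsI S t)
    (h : IsI S (Polynomial.evalEval t y f)) : IsI S y := by
  refine IsI.root hd (fun j => (f.coeff j).eval t) (fun j _ => IsI.evalP (hc j) ht) ?_
  have h1 : Polynomial.evalEval t y f = y ^ f.natDegree +
      ∑ j ∈ Finset.range f.natDegree, (f.coeff j).eval t * y ^ j := by
    rw [← aA_K, aA_eq, Finset.sum_range_succ, hf.coeff_natDegree, add_comm, map_one, one_mul]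
    congr 1
  rwa [← h1]

theorem coeff_big (f : Polynomial (Polynomial K)) (T : Finset K)
    (S : Finset (HeightOneSpectrum (𝓞 K))) :
    ∃ S' : Finset (HeightOneSpectrum (𝓞 K)), S ⊆ S' ∧ (∀ j i, IsI S' ((f.coeff j).coeff i)) ∧
      ∀ x ∈ T, IsI S' x ∧ (x ≠ 0 → IsU S' x) := by
  classical
  obtain ⟨S', h1, h2⟩ := exists_big (T ∪ (Finset.range (f.natDegree + 1)).biUnion fun j =>
    (Finset.range ((f.coeff j).natDegree + 1)).image fun i => (f.coeff j).coeff i) S
  refine ⟨S', h1, fun j i => ?_, fun x hx => h2 x (Finset.mem_union_left _ hx)⟩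
  by_cases hj : j ≤ f.natDegree
  · by_cases hi : i ≤ (f.coeff j).natDegree
    · refine (h2 _ (Finset.mem_union_right _ ?_)).1
      rw [Finset.mem_biUnion]
      refine ⟨j, Finset.mem_range.2 (by omega), ?_⟩
      rw [Finset.mem_image]
      exact ⟨i, Finset.mem_range.2 (by omega), rfl⟩
    · rw [Polynomial.coeff_eq_zero_of_natDegree_lt (by omega)]
      exact IsI.zero
  · rw [Polynomial.coeff_eq_zero_of_natDegree_lt (n := j) (by omega), Polynomial.coeff_zero]
    exact IsI.zero

theorem log_av_pow (v : Pl K) (x : K) (w : ℕ) : Real.log (av v (x ^ w)) = w * Real.log (av v x) := by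
  rw [map_pow, Real.log_pow]

theorem log_one (v : Pl K) : Real.log (av v (1 : K)) = 0 := by
  rw [map_one, Real.log_one]

/-- the surface: away from the exceptional curves, one of the local heights is small -/
theorem surf {S₀ : Finset (HeightOneSpectrum (𝓞 K))} {w n : ℕ} {f : Polynomial (Polynomial K)}
    (h : Slope w n f) (hnp : NoPow f) {k : K} (hk : k ≠ 0) (δ : ℝ) (hδ : 0 < δ) :
    ∃ (Z : Finset (Polynomial (Polynomial K))) (C : ℝ), (∀ Ψ ∈ Z, Ψ ≠ 0) ∧
      ∀ t y V : K, IsU S₀ t → IsU S₀ V → k * V ^ n = Polynomial.evalEval t y f →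
        (∀ Ψ ∈ Z, Polynomial.evalEval t y Ψ ≠ 0) →
        ∃ v ∈ Sp S₀, |Real.log (av v t)| ≤ δ * logHeight₁ t + C := by
  classical
  obtain ⟨m, G, c, hspan, hc, hI⟩ := model (hypS h hk)
  obtain ⟨S, hS, hcf, hkS⟩ := coeff_big f {k} S₀
  have hkU : IsU S k := (hkS k (Finset.mem_singleton_self k)).2 hk
  set W : ℝ := ∑ v ∈ Sp S, wt v with hW
  have hW0 : 0 ≤ W := Finset.sum_nonneg fun v _ => wt_nonneg v
  have hwpos : (0 : ℝ) < w := by exact_mod_cast h.w0
  have hw1 : (1 : ℝ) ≤ w := by exact_mod_cast h.w0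
  obtain ⟨η, hη, hη1, hη2⟩ : ∃ η : ℝ, 0 < η ∧ 4 * W * η ≤ 1 ∧ 2 * w * η ≤ δ := by
    refine ⟨min (1 / (4 * (W + 1))) (δ / (2 * w)), lt_min (by positivity) (by positivity), ?_, ?_⟩
    · have h1 : min (1 / (4 * (W + 1))) (δ / (2 * w)) ≤ 1 / (4 * (W + 1)) := min_le_left _ _
      have h2 : 4 * W * min (1 / (4 * (W + 1))) (δ / (2 * w)) ≤ 4 * W * (1 / (4 * (W + 1))) :=
        mul_le_mul_of_nonneg_left h1 (by positivity)
      have h3 : 4 * W * (1 / (4 * (W + 1))) ≤ 1 := by
        rw [mul_one_div, div_le_one (by positivity)]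
        linarith
      linarith
    · have h1 : min (1 / (4 * (W + 1))) (δ / (2 * w)) ≤ δ / (2 * w) := min_le_right _ _
      have h2 : 2 * w * min (1 / (4 * (W + 1))) (δ / (2 * w)) ≤ 2 * w * (δ / (2 * w)) :=
        mul_le_mul_of_nonneg_left h1 (by positivity)
      have h3 : 2 * w * (δ / (2 * w)) = δ := by field_simp
      linarith
  obtain ⟨t0, Z0, C1, hC1, hZ0, hloc⟩ := loc2 hc hI S η hη
  -- the exceptional polynomials
  set tt : Polynomial (Polynomial (Polynomial K)) := Polynomial.C (Polynomial.C Polynomial.X) with htt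
  set yy : Polynomial (Polynomial (Polynomial K)) := Polynomial.C Polynomial.X with hyy
  set VV : Polynomial (Polynomial (Polynomial K)) := Polynomial.X with hVV
  have haffG : aeval (xp w 1 tt ![yy, VV]) (ps (La w (1 + 1)) (sc w (1 + 1)) K (Gs w n f k)) =
      Polynomial.C (Polynomial.C (Polynomial.C k)) * Polynomial.X ^ n - Polynomial.C f := by
    rw [aff_Gs tt ![yy, VV] h k]
    have h1 : Polynomial.aevalAeval tt ((![yy, VV] : Fin (1 + 1) → _) 0) f = Polynomial.C f := by
      have h2 := aA_hom (K := K) (A := Polynomial (Polynomial K))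
        (B := Polynomial (Polynomial (Polynomial K))) ((Algebra.ofId (Polynomial (Polynomial K))
        (Polynomial (Polynomial (Polynomial K)))).restrictScalars K) (Polynomial.C Polynomial.X)
          Polynomial.X f
      rw [aA_id] at h2
      exact h2
    rw [h1]
    rfl
  have hexc : ∀ Φ ∈ Z0, ∃ Ψ : Polynomial (Polynomial K), Ψ ≠ 0 ∧
      ∃ A B : Polynomial (Polynomial (Polynomial K)),
        A * aeval (xp w 1 tt ![yy, VV]) Φ + B * (Polynomial.C (Polynomial.C (Polynomial.C k)) *
          Polynomial.X ^ n - Polynomial.C f) = Polynomial.C Ψ := by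
    intro Φ hΦ
    refine elim h.monic hnp hk (by have := h.n2; omega) _ ?_
    rw [← haffG]
    refine not_dvd (hypS h hk) _ tt ![yy, VV]
      (E3 (am 1 K (X 1) * iv 1 K) ((am 1 K (X 2) * iv 1 K) ^ w) ((am 1 K (X 3) * iv 1 K) ^ w))
      ?_ ?_ Φ (hZ0 Φ hΦ).1 ?_
    · rw [htt, E3_C, aA_CX]
    · intro j
      fin_cases j
      · show E3 _ _ _ yy = _
        rw [hyy, E3_C, aA_X]
        rfl
      · show E3 _ _ _ VV = _
        rw [hVV, E3_X]
        rfl
    · rw [← hspan]
      exact (hZ0 Φ hΦ).2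
  choose! Ψ hΨ0 hΨ using hexc
  refine ⟨Z0.image Ψ, 2 * C1 + 4 * W * C1, ?_, ?_⟩
  · intro P hP
    obtain ⟨Φ, hΦ, rfl⟩ := Finset.mem_image.1 hP
    exact hΨ0 Φ hΦ
  intro t y V ht hV hVf hZ
  by_contra hcon
  push Not at hcon
  have htS : IsU S t := ht.mono hS
  have hVS : IsU S V := hV.mono hS
  have hyS : IsI S y := by
    refine intg h.monic (by rw [h.deg]; have := h.n2; omega) hcf htS.isI ?_
    rw [← hVf]
    exact (hkU.mul (hVS.pow n)).isI
  set P := xp w 1 t ![y, V] with hP
  have hPI : ∀ i, IsI S (P i) := by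
    intro i
    refine Fin.addCases (fun i => ?_) (fun j => ?_) i
    · rw [hP, xp_left]
      exact (htS.pow _).isI
    · rw [hP, xp_right]
      fin_cases j
      · exact hyS
      · exact hVS.isI
  have e0 : P (sv w 1 0) = 1 := xp_sv0 _ _
  have e1 : P (sv w 1 1) = t ^ w := xp_sv1 _ _
  have e2 : P (sv w 1 2) = V := xp_sv2 _ _ 0
  have hc3 : ∀ c : Fin (1 + 2), c = 0 ∨ c = 1 ∨ c = 2 := by
    intro c
    fin_cases c
    · exact Or.inl rfl
    · exact Or.inr (Or.inl rfl)
    · exact Or.inr (Or.inr rfl)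
  have hPU : ∀ c, IsU S (P (sv w 1 c)) := by
    intro c
    rcases hc3 c with rfl | rfl | rfl
    · rw [e0]; exact IsU.one
    · rw [e1]; exact htS.pow w
    · rw [e2]; exact hVS
  have hPG : ∀ j, eval P (G j) = 0 := by
    intro j
    have h1 : G j ∈ Ideal.span (bin (ex w (1 + 1)) K) ⊔
        Ideal.span {ps (La w (1 + 1)) (sc w (1 + 1)) K (Gs w n f k)} := by
      rw [← hspan]
      exact Ideal.subset_span ⟨j, rfl⟩
    obtain ⟨a, ha, b, hb, hab⟩ := Submodule.mem_sup.1 h1
    rw [← hab, ← coe_aeval_eq_eval, RingHom.coe_coe, map_add, bin_xp h.w0 t _ a ha, zero_add]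
    obtain ⟨b', rfl⟩ := Ideal.mem_span_singleton.1 hb
    rw [map_mul, aff_Gs t ![y, V] h k]
    have h2 : algebraMap K K k * (![y, V] : Fin (1 + 1) → K) 1 ^ n -
        Polynomial.aevalAeval t ((![y, V] : Fin (1 + 1) → K) 0) f = 0 := by
      show k * V ^ n - Polynomial.aevalAeval t y f = 0
      rw [aA_K, hVf, sub_self]
    rw [h2, zero_mul]
  have hPZ : ∀ Φ ∈ Z0, eval P Φ ≠ 0 := by
    intro Φ hΦ h0
    apply hZ (Ψ Φ) (Finset.mem_image_of_mem Ψ hΦ)
    obtain ⟨A, B, hAB⟩ := hΨ Φ hΦ
    have h1 := congrArg (E3 t y V) hAB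
    have h2 : E3 t y V (aeval (xp w 1 tt ![yy, VV]) Φ) = 0 := by
      rw [ev_aeval (A := Polynomial (Polynomial (Polynomial K))) (E3 t y V)]
      have h3 : (fun i => E3 t y V (xp w 1 tt ![yy, VV] i)) = P := by
        have h4 := xp_map (w := w) (κ := 1) (E3 t y V).toRingHom tt ![yy, VV]
        have h5 : (fun i => E3 t y V (xp w 1 tt ![yy, VV] i)) =
          (fun i => (E3 t y V).toRingHom (xp w 1 tt ![yy, VV] i)) := rfl
        rw [h5, h4, hP]
        have h6 : (E3 t y V).toRingHom tt = t := by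
          show E3 t y V tt = t
          rw [htt, E3_C, aA_CX]
        rw [h6]
        congr 1
        funext j
        fin_cases j
        · show E3 t y V yy = y
          rw [hyy, E3_C, aA_X]
        · show E3 t y V VV = V
          rw [hVV, E3_X]
      rw [h3]
      exact h0
    have h3 : E3 t y V (Polynomial.C (Polynomial.C (Polynomial.C k)) *
          Polynomial.X ^ n - Polynomial.C f) = 0 := by
      rw [map_sub (E3 t y V), map_mul, map_pow, E3_C, E3_X, E3_C, aA_K, aA_K, Polynomial.evalEval_C,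
        Polynomial.eval_C, hVf, sub_self]
    rw [map_add, map_mul, map_mul, h2, h3, mul_zero, mul_zero, add_zero, E3_C, aA_K] at h1
    exact h1.symm
  have hl := hloc P hPI hPU hPG hPZ
  set hh := logHeight P with hhh
  have hh0 : 0 ≤ hh := logHeight_nonneg _
  set h1 := logHeight₁ t with hh1
  have h10 : 0 ≤ h1 := zero_le_logHeight₁ _
  set N : Pl K → ℝ := fun v => Real.log (nrm (av v) P) with hN
  set a : Pl K → ℝ := fun v => Real.log (av v t) with ha
  have hle : ∀ v c, Real.log (av v (P (sv w 1 c))) ≤ N v := by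
    intro v c
    exact Real.log_le_log ((av v).pos (hPU c).1) (le_nrm (av v) P _)
  have hN0 : ∀ v, 0 ≤ N v := by
    intro v
    have := hle v 0
    rwa [e0, log_one] at this
  have hN1 : ∀ v, w * a v ≤ N v := by
    intro v
    have := hle v 1
    rwa [e1, log_av_pow] at this
  -- the upper bound for the norm
  have hup : ∀ v ∈ Sp S, N v ≤ w * max 0 (a v) + (η * hh + C1) := by
    intro v hv
    obtain ⟨c1, hc1, hc2⟩ := hl v hv 2
    rcases hc3 c1 with rfl | rfl | rfl
    · rw [e0, log_one] at hc2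
      have : 0 ≤ w * max 0 (a v) := mul_nonneg hwpos.le (le_max_left _ _)
      linarith
    · rw [e1, log_av_pow] at hc2
      have : w * a v ≤ w * max 0 (a v) := mul_le_mul_of_nonneg_left (le_max_right _ _) hwpos.le
      linarith
    · exact absurd rfl hc1
  have hsum : hh ≤ w * h1 + W * (η * hh + C1) := by
    rw [hhh, height_eq hPI (sv w 1 0) (hPU 0), hh1, height1_eq htS.isI, Finset.mul_sum, hW,
      Finset.sum_mul, ← Finset.sum_add_distrib]
    refine Finset.sum_le_sum fun v hv => ?_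
    have h2 := mul_le_mul_of_nonneg_left (hup v hv) (wt_nonneg v)
    rw [hhh, height_eq hPI (sv w 1 0) (hPU 0)] at h2
    have h3 : wt v * (w * max 0 (a v) + (η * ∑ v ∈ Sp S, wt v * Real.log (nrm (av v) P) + C1)) =
        w * (wt v * max 0 (Real.log (av v t))) + wt v * (η * ∑ v ∈ Sp S, wt v *
          Real.log (nrm (av v) P) + C1) := by
      rw [ha]
      ring
    linarith
  have hWη : W * η ≤ 1 / 4 := by linarith
  have hhb : hh ≤ 2 * w * h1 + 2 * W * C1 := by
    have h2 : W * (η * hh) ≤ 1 / 4 * hh := by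
      rw [← mul_assoc]
      exact mul_le_mul_of_nonneg_right hWη hh0
    nlinarith
  set e := η * hh + C1 with he
  have he0 : 0 ≤ e := by positivity
  have heb : e ≤ 2 * w * η * h1 + 2 * C1 := by
    have h2 : η * hh ≤ η * (2 * w * h1 + 2 * W * C1) := mul_le_mul_of_nonneg_left hhb hη.le
    have h3 : W * η * C1 ≤ 1 / 4 * C1 := mul_le_mul_of_nonneg_right hWη hC1
    nlinarith
  have hed : e ≤ δ * h1 + 2 * C1 := by
    have h2 : 2 * w * η * h1 ≤ δ * h1 := mul_le_mul_of_nonneg_right hη2 h10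
    linarith
  have hWC : 0 ≤ 4 * W * C1 := by positivity
  -- the lower bound for `V`
  have hlow : ∀ v ∈ Sp S₀, w * max 0 (a v) - e ≤ Real.log (av v V) := by
    intro v hv
    have hv' := Sp_mono hS hv
    have h2 := hcon v hv
    have h3 : e < |a v| := by
      show e < |Real.log (av v t)|
      linarith
    rcases lt_abs.1 h3 with h4 | h4
    · obtain ⟨c1, hc1, hc2⟩ := hl v hv' 1
      have h5 : a v ≤ w * a v := by nlinarith
      have h6 := hN1 v
      rcases hc3 c1 with rfl | rfl | rfl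
      · exfalso
        rw [e0, log_one, sub_zero] at hc2
        have : N v ≤ e := hc2
        linarith
      · exact absurd rfl hc1
      · rw [e2] at hc2
        have h7 : max 0 (a v) = a v := max_eq_right (by linarith)
        rw [h7]
        have : N v - Real.log (av v V) ≤ e := hc2
        linarith
    · obtain ⟨c1, hc1, hc2⟩ := hl v hv' 0
      have h5 : w * a v ≤ a v := by nlinarith
      have h6 := hN0 v
      rcases hc3 c1 with rfl | rfl | rfl
      · exact absurd rfl hc1
      · exfalso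
        rw [e1, log_av_pow] at hc2
        have : N v - w * a v ≤ e := hc2
        linarith
      · rw [e2] at hc2
        have h7 : max 0 (a v) = 0 := max_eq_left (by linarith)
        rw [h7]
        have : N v - Real.log (av v V) ≤ e := hc2
        linarith
  set W₀ : ℝ := ∑ v ∈ Sp S₀, wt v with hW₀
  have hWW : W₀ ≤ W := Finset.sum_le_sum_of_subset_of_nonneg (Sp_mono hS) fun v _ _ => wt_nonneg v
  have hpf := prod_formula hV
  have hsum2 : w * h1 - W₀ * e ≤ 0 := by
    rw [← hpf, hh1, height1_eq ht.isI, Finset.mul_sum, hW₀, Finset.sum_mul,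
      ← Finset.sum_sub_distrib]
    refine Finset.sum_le_sum fun v hv => ?_
    have h2 := mul_le_mul_of_nonneg_left (hlow v hv) (wt_nonneg v)
    have h3 : wt v * (w * max 0 (a v) - e) = w * (wt v * max 0 (Real.log (av v t))) - wt v * e := by
      rw [ha]
      ring
    linarith
  have hfin : h1 ≤ 4 * W * C1 := by
    have h2 : W₀ * e ≤ W * e := mul_le_mul_of_nonneg_right hWW he0
    have h3 : W * e ≤ W * (2 * w * η * h1 + 2 * C1) := mul_le_mul_of_nonneg_left heb hW0
    have h4 : W * (2 * w * η * h1) ≤ 1 / 2 * (w * h1) := by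
      have h7 : W * (2 * w * η * h1) = W * η * (2 * (w * h1)) := by ring
      have h5 : 0 ≤ 2 * (w * h1) := mul_nonneg zero_le_two (mul_nonneg hwpos.le h10)
      have h8 := mul_le_mul_of_nonneg_right hWη h5
      rw [h7]
      linarith
    have h7 : W * (2 * w * η * h1 + 2 * C1) = W * (2 * w * η * h1) + 2 * W * C1 := by ring
    have h5 : w * h1 ≤ 4 * W * C1 := by linarith
    have h6 : h1 ≤ w * h1 := le_mul_of_one_le_left h10 hw1
    linarith
  obtain ⟨v0⟩ : Nonempty (InfinitePlace K) := inferInstance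
  have h2 := hcon (Sum.inl v0) (mem_Sp_inl v0)
  have h3 := abs_log_le ht (mem_Sp_inl (S := S₀) v0)
  have h4 : 0 ≤ δ * h1 := by positivity
  linarith

/-- the curve: the height is bounded, or the degree drops -/
theorem curv {S₀ : Finset (HeightOneSpectrum (𝓞 K))} {w n : ℕ} {f : Polynomial (Polynomial K)}
    (h : Slope w n f) :
    ∃ (Z : Finset (Polynomial (Polynomial K))) (C : ℝ), (∀ g ∈ Z, g.Monic ∧ g.natDegree < n) ∧
      ∀ t y : K, IsU S₀ t → Polynomial.evalEval t y f = 0 →
        logHeight₁ t ≤ C ∨ ∃ g ∈ Z, Polynomial.evalEval t y g = 0 := by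
  classical
  obtain ⟨m, G, c, hspan, hc, hI⟩ := model (hypC h)
  obtain ⟨S, hS, hcf, -⟩ := coeff_big f ∅ S₀
  set W : ℝ := ∑ v ∈ Sp S, wt v with hW
  have hW0 : 0 ≤ W := Finset.sum_nonneg fun v _ => wt_nonneg v
  have hwpos : (0 : ℝ) < w := by exact_mod_cast h.w0
  have hw1 : (1 : ℝ) ≤ w := by exact_mod_cast h.w0
  obtain ⟨η, hη, hη1⟩ : ∃ η : ℝ, 0 < η ∧ 2 * W * η ≤ 1 := by
    refine ⟨1 / (2 * (W + 1)), by positivity, ?_⟩
    rw [mul_one_div, div_le_one (by positivity)]
    linarith
  obtain ⟨t0, Z0, C1, hC1, hZ0, hloc⟩ := loc2 hc hI S η hη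
  have haffG : aeval (xp w 0 (Polynomial.C (Polynomial.X) : Polynomial (Polynomial K))
      ![Polynomial.X]) (ps (La w (0 + 1)) (sc w (0 + 1)) K (Fh 0 w n f)) = f := by
    rw [aff_Fh _ _ h]
    exact aA_id f
  have hexc : ∀ Φ ∈ Z0, ∃ (g : Polynomial (Polynomial K)) (d : Polynomial K), g.Monic ∧
      g.natDegree < f.natDegree ∧ d ≠ 0 ∧
        ∃ A B : Polynomial (Polynomial K), A * aeval (xp w 0 (Polynomial.C (Polynomial.X) :
          Polynomial (Polynomial K)) ![Polynomial.X]) Φ + B * f = Polynomial.C d * g := by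
    intro Φ hΦ
    refine gcd_elim h.monic ?_
    have h1 := not_dvd (hypC h) _ (Polynomial.C (Polynomial.X) : Polynomial (Polynomial K))
      ![Polynomial.X] (Polynomial.aevalAeval (am 0 K (X 1) * iv 0 K) ((am 0 K (X 2) * iv 0 K) ^ w))
      (aA_CX _ _) (by
        intro j
        fin_cases j
        exact aA_X _ _) Φ (hZ0 Φ hΦ).1 (by rw [← hspan]; exact (hZ0 Φ hΦ).2)
    rwa [haffG] at h1
  choose! g d hgm hgd hd0 hAB using hexc
  -- the exceptional values of `t`
  obtain ⟨C2, hC2⟩ : ∃ C2 : ℝ, ∀ Φ ∈ Z0, ∀ t : K, (d Φ).eval t = 0 → logHeight₁ t ≤ C2 := by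
    have hfin : (⋃ Φ ∈ Z0, {t : K | Φ ∈ Z0 ∧ (d Φ).eval t = 0}).Finite := by
      refine Set.Finite.biUnion (Finset.finite_toSet Z0) fun Φ hΦ => ?_
      refine (Polynomial.finite_setOf_isRoot (hd0 Φ hΦ)).subset ?_
      rintro t ⟨-, ht⟩
      exact ht
    obtain ⟨C2, hC2⟩ := (hfin.image fun t => logHeight₁ t).bddAbove
    refine ⟨C2, fun Φ hΦ t ht => hC2 ⟨t, ?_, rfl⟩⟩
    exact Set.mem_biUnion hΦ ⟨hΦ, ht⟩
  refine ⟨Z0.image g, max C2 (2 * W * C1), ?_, ?_⟩
  · intro P hP
    obtain ⟨Φ, hΦ, rfl⟩ := Finset.mem_image.1 hP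
    refine ⟨hgm Φ hΦ, ?_⟩
    have := hgd Φ hΦ
    rwa [h.deg] at this
  intro t y ht hf
  have htS : IsU S t := ht.mono hS
  have hyS : IsI S y := by
    refine intg h.monic (by rw [h.deg]; have := h.n2; omega) hcf htS.isI ?_
    rw [hf]
    exact IsI.zero
  set P := xp w 0 t ![y] with hP
  by_cases hPZ : ∀ Φ ∈ Z0, eval P Φ ≠ 0
  swap
  · push Not at hPZ
    obtain ⟨Φ, hΦ, h0⟩ := hPZ
    obtain ⟨A, B, hAB'⟩ := hAB Φ hΦ
    have h1 := congrArg (Polynomial.aevalAeval t y) hAB'
    have h2 : Polynomial.aevalAeval t y (aeval (xp w 0 (Polynomial.C (Polynomial.X) :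
          Polynomial (Polynomial K)) ![Polynomial.X]) Φ) = 0 := by
      rw [ev_aeval (A := Polynomial (Polynomial K)) (Polynomial.aevalAeval t y)]
      have h3 : (fun i => Polynomial.aevalAeval t y (xp w 0 (Polynomial.C (Polynomial.X) :
          Polynomial (Polynomial K)) ![Polynomial.X] i)) = P := by
        have h4 := xp_map (w := w) (κ := 0) (Polynomial.aevalAeval t y :
          Polynomial (Polynomial K) →ₐ[K] K).toRingHom (Polynomial.C (Polynomial.X) :
          Polynomial (Polynomial K)) ![Polynomial.X]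
        refine h4.trans ?_
        rw [hP]
        have h6 : (Polynomial.aevalAeval t y : Polynomial (Polynomial K) →ₐ[K] K).toRingHom
            (Polynomial.C (Polynomial.X)) = t := aA_CX t y
        rw [h6]
        congr 1
        funext j
        fin_cases j
        exact aA_X t y
      rw [h3]
      exact h0
    rw [map_add, map_mul, map_mul, map_mul, h2, mul_zero, zero_add, aA_K, aA_K, aA_K, aA_K, hf,
      mul_zero, Polynomial.evalEval_C] at h1
    rcases mul_eq_zero.1 h1.symm with h3 | h3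
    · left
      exact (hC2 Φ hΦ t h3).trans (le_max_left _ _)
    · right
      exact ⟨g Φ, Finset.mem_image_of_mem g hΦ, h3⟩
  left
  refine le_trans ?_ (le_max_right _ _)
  have hPI : ∀ i, IsI S (P i) := by
    intro i
    refine Fin.addCases (fun i => ?_) (fun j => ?_) i
    · rw [hP, xp_left]
      exact (htS.pow _).isI
    · rw [hP, xp_right]
      fin_cases j
      exact hyS
  have e0 : P (sv w 0 0) = 1 := xp_sv0 _ _
  have e1 : P (sv w 0 1) = t ^ w := xp_sv1 _ _
  have hc2 : ∀ c : Fin (0 + 2), c = 0 ∨ c = 1 := by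
    intro c
    fin_cases c
    · exact Or.inl rfl
    · exact Or.inr rfl
  have hPU : ∀ c, IsU S (P (sv w 0 c)) := by
    intro c
    rcases hc2 c with rfl | rfl
    · rw [e0]; exact IsU.one
    · rw [e1]; exact htS.pow w
  have hPG : ∀ j, eval P (G j) = 0 := by
    intro j
    have h1 : G j ∈ Ideal.span (bin (ex w (0 + 1)) K) ⊔
        Ideal.span {ps (La w (0 + 1)) (sc w (0 + 1)) K (Fh 0 w n f)} := by
      rw [← hspan]
      exact Ideal.subset_span ⟨j, rfl⟩
    obtain ⟨a, ha, b, hb, hab⟩ := Submodule.mem_sup.1 h1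
    rw [← hab, ← coe_aeval_eq_eval, RingHom.coe_coe, map_add, bin_xp h.w0 t _ a ha, zero_add]
    obtain ⟨b', rfl⟩ := Ideal.mem_span_singleton.1 hb
    rw [map_mul, aff_Fh t ![y] h]
    have h2 : Polynomial.aevalAeval t ((![y] : Fin (0 + 1) → K) 0) f = 0 := by
      show Polynomial.aevalAeval t y f = 0
      rw [aA_K, hf]
    rw [h2, zero_mul]
  have hl := hloc P hPI hPU hPG hPZ
  set hh := logHeight P with hhh
  have hh0 : 0 ≤ hh := logHeight_nonneg _
  set h1 := logHeight₁ t with hh1
  set N : Pl K → ℝ := fun v => Real.log (nrm (av v) P) with hN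
  have hle : ∀ v c, Real.log (av v (P (sv w 0 c))) ≤ N v := by
    intro v c
    exact Real.log_le_log ((av v).pos (hPU c).1) (le_nrm (av v) P _)
  have hN0 : ∀ v, 0 ≤ N v := by
    intro v
    have := hle v 0
    rwa [e0, log_one] at this
  have hN1 : ∀ v, w * Real.log (av v t) ≤ N v := by
    intro v
    have := hle v 1
    rwa [e1, log_av_pow] at this
  have hup : ∀ v ∈ Sp S, N v ≤ η * hh + C1 := by
    intro v hv
    obtain ⟨c1, hc1, hc3⟩ := hl v hv 1
    rcases hc2 c1 with rfl | rfl
    · rw [e0, log_one, sub_zero] at hc3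
      exact hc3
    · exact absurd rfl hc1
  have hsum : hh ≤ W * (η * hh + C1) := by
    have h2 : hh = ∑ v ∈ Sp S, wt v * N v := height_eq hPI (sv w 0 0) (hPU 0)
    calc hh = ∑ v ∈ Sp S, wt v * N v := h2
      _ ≤ ∑ v ∈ Sp S, wt v * (η * hh + C1) :=
        Finset.sum_le_sum fun v hv => mul_le_mul_of_nonneg_left (hup v hv) (wt_nonneg v)
      _ = _ := by rw [← Finset.sum_mul]
  have hWη : W * η ≤ 1 / 2 := by linarith
  have hhb : hh ≤ 2 * W * C1 := by
    have h2 : W * (η * hh) ≤ 1 / 2 * hh := by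
      rw [← mul_assoc]
      exact mul_le_mul_of_nonneg_right hWη hh0
    nlinarith
  have h2 : h1 ≤ hh := by
    rw [hh1, height1_eq htS.isI, hhh, height_eq hPI (sv w 0 0) (hPU 0)]
    refine Finset.sum_le_sum fun v _ => mul_le_mul_of_nonneg_left ?_ (wt_nonneg v)
    refine max_le (hN0 v) ?_
    have h3 := hN1 v
    have h4 := hN0 v
    rcases le_or_gt (Real.log (av v t)) 0 with h5 | h5
    · exact h5.trans h4
    · refine le_trans ?_ h3
      nlinarith
  linarith

end Pool.Agent.Run7.h489.LV
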