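import Mathlib
import Pool.Agent.H39R3.Tor.SUnit
import Pool.Agent.Run7.h489.LV.Reg
import Pool.Agent.Run7.h489.LV.Alg

set_option autoImplicit false
set_option linter.unusedSectionVars false

/-!
Points covered by finitely many curves parametrised by Laurent polynomials.
-/

namespace Pool.Agent.Run7.h489.LV

open Polynomial Height NumberField IsDedekindDomain
open Pool.Agent.W180.OP (Pl av wt fv nrm le_nrm nrm_pos nrm_nonneg exists_nrm lam lam_eq wt_nonneg
  fv_support_finite)
open Pool.Agent.R404.TC (Sp cnt fmtS Ineq cons1)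

section lau

variable {K : Type} [Field K]

/-- evaluation of a Laurent polynomial at a unit of an algebra -/
noncomputable def lA {A : Type} [CommRing A] [Algebra K A] (x : Aˣ) : LaurentPolynomial K →ₐ[K] A :=
  { LaurentPolynomial.eval₂ (algebraMap K A) x with
    commutes' := by
      intro r
      have h1 : algebraMap K (LaurentPolynomial K) r = LaurentPolynomial.C r := rfl
      show LaurentPolynomial.eval₂ (algebraMap K A) x _ = _
      rw [h1, LaurentPolynomial.eval₂_C] }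

theorem lA_apply {A : Type} [CommRing A] [Algebra K A] (x : Aˣ) (p : LaurentPolynomial K) :
    lA x p = LaurentPolynomial.eval₂ (algebraMap K A) x p := rfl

theorem lA_T {A : Type} [CommRing A] [Algebra K A] (x : Aˣ) :
    lA (K := K) x (LaurentPolynomial.T 1) = x := by
  rw [lA_apply, LaurentPolynomial.eval₂_T, zpow_one]

theorem lA_hom {A B : Type} [CommRing A] [CommRing B] [Algebra K A] [Algebra K B] (φ : A →ₐ[K] B)
    (x : Aˣ) (p : LaurentPolynomial K) : φ (lA x p) = lA (Units.map (φ : A →* B) x) p := by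
  rw [lA_apply, lA_apply]
  have h : (φ : A →+* B).comp (LaurentPolynomial.eval₂ (algebraMap K A) x) =
      LaurentPolynomial.eval₂ (algebraMap K B) (Units.map (φ : A →* B) x) := by
    refine IsLocalization.ringHom_ext (Submonoid.powers (X : K[X])) ?_
    apply Polynomial.ringHom_ext
    · intro r
      rw [RingHom.comp_apply, RingHom.comp_apply, RingHom.comp_apply]
      show φ (LaurentPolynomial.eval₂ _ _ (Polynomial.toLaurent (C r))) =
        LaurentPolynomial.eval₂ _ _ (Polynomial.toLaurent (C r))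
      rw [LaurentPolynomial.eval₂_toLaurent, LaurentPolynomial.eval₂_toLaurent, eval₂_C, eval₂_C,
        AlgHom.commutes]
    · rw [RingHom.comp_apply, RingHom.comp_apply, RingHom.comp_apply]
      show φ (LaurentPolynomial.eval₂ _ _ (Polynomial.toLaurent X)) =
        LaurentPolynomial.eval₂ _ _ (Polynomial.toLaurent X)
      rw [LaurentPolynomial.eval₂_toLaurent, LaurentPolynomial.eval₂_toLaurent, eval₂_X, eval₂_X]
      rfl
  exact DFunLike.congr_fun h p

/-- a curve with a parametrisation by Laurent polynomials -/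
abbrev Cu (K : Type) [Field K] : Type := (LaurentPolynomial K)ˣ × LaurentPolynomial K

/-- the unit `γ ^ 1` of the ring of Laurent polynomials -/
noncomputable def cU (γ : Kˣ) : (LaurentPolynomial K)ˣ :=
  Units.map (algebraMap K (LaurentPolynomial K) : K →* LaurentPolynomial K) γ

/-- the image of a curve under a change of variables -/
noncomputable def subC (γ : Kˣ) (N k : ℕ) (c : K[X]) (d : Cu K) : Cu K :=
  (cU γ * d.1 ^ N, (d.1 : LaurentPolynomial K) ^ k * d.2 +
    aeval ((cU γ * d.1 ^ N : (LaurentPolynomial K)ˣ) : LaurentPolynomial K) c)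

theorem subC_fst (γ : Kˣ) (N k : ℕ) (c : K[X]) (d : Cu K) :
    ((subC γ N k c d).1 : LaurentPolynomial K) =
      algebraMap K (LaurentPolynomial K) γ * (d.1 : LaurentPolynomial K) ^ N := by
  rw [subC, Units.val_mul, Units.val_pow_eq_pow_val]
  rfl

theorem subC_snd (γ : Kˣ) (N k : ℕ) (c : K[X]) (d : Cu K) :
    (subC γ N k c d).2 = (d.1 : LaurentPolynomial K) ^ k * d.2 +
      aeval ((subC γ N k c d).1 : LaurentPolynomial K) c := rfl

end lau

variable {K : Type} [Field K] [NumberField K] {S : Finset (HeightOneSpectrum (𝓞 K))}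

/-- the point is on the curve -/
def OnC (S : Finset (HeightOneSpectrum (𝓞 K))) (d : Cu K) (t y : K) : Prop :=
  ∃ τ : Kˣ, IsU S (τ : K) ∧ lA τ (d.1 : LaurentPolynomial K) = t ∧ lA τ d.2 = y

theorem OnC.sub {γ : Kˣ} {N k : ℕ} {c : K[X]} {d : Cu K} {s y : K} (h : OnC S d s y) :
    OnC S (subC γ N k c d) (γ * s ^ N) (s ^ k * y + c.eval ((γ : K) * s ^ N)) := by
  obtain ⟨τ, hτ, rfl, rfl⟩ := h
  have h1 : lA τ ((subC γ N k c d).1 : LaurentPolynomial K) =
      (γ : K) * (lA τ (d.1 : LaurentPolynomial K)) ^ N := by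
    rw [subC_fst, map_mul, map_pow, AlgHom.commutes]
    rfl
  refine ⟨τ, hτ, h1, ?_⟩
  rw [subC_snd, map_add, map_mul, map_pow, ← aeval_algHom_apply, h1]
  rfl

/-- an admissible family of exceptional sets -/
structure Exc (S : Finset (HeightOneSpectrum (𝓞 K))) (E : ℝ → K → Prop) : Prop where
  mono : ∀ C C' t, C ≤ C' → E C t → E C' t
  tr : ∀ γ, IsU S γ → ∀ N : ℕ, ∀ C, ∃ C', ∀ s, IsU S s → E C s → E C' (γ * s ^ N)
  ht : ∀ C t, IsU S t → logHeight₁ t ≤ C → E C t

/-- the points are covered by finitely many curves, up to a small exceptional set -/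
def Cov (S : Finset (HeightOneSpectrum (𝓞 K))) (E : ℝ → K → Prop) (G : Cu K → Prop)
    (P : K → K → Prop) : Prop :=
  ∃ (D : Finset (Cu K)) (C : ℝ), (∀ d ∈ D, G d) ∧
    ∀ t y, IsU S t → P t y → E C t ∨ ∃ d ∈ D, OnC S d t y

theorem exc0 : Exc S (fun C (t : K) => logHeight₁ t ≤ C) where
  mono := fun _ _ _ h h' => h'.trans h
  tr := by
    intro γ _ N C
    refine ⟨logHeight₁ γ + N * C, fun s _ hs => ?_⟩
    refine (logHeight₁_mul_le _ _).trans ?_
    rw [logHeight₁_pow]
    have := mul_le_mul_of_nonneg_left hs (Nat.cast_nonneg (α := ℝ) N)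
    linarith
  ht := fun _ _ _ h => h

theorem excδ (δ : ℝ) (hδ : 0 ≤ δ) :
    Exc S (fun C (t : K) => ∃ v ∈ Sp S, |Real.log (av v t)| ≤ δ * logHeight₁ t + C) where
  mono := by
    rintro C C' t h ⟨v, hv, h1⟩
    exact ⟨v, hv, by linarith⟩
  tr := by
    intro γ hγ N C
    refine ⟨(1 + δ) * logHeight₁ γ + N * C, ?_⟩
    rintro s hs ⟨v, hv, h1⟩
    refine ⟨v, hv, ?_⟩
    have hpos : av v (s ^ N) ≠ 0 := (av v).ne_zero (pow_ne_zero _ hs.1)
    have hpos' : av v γ ≠ 0 := (av v).ne_zero hγ.1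
    rw [map_mul, Real.log_mul hpos' hpos, log_av_pow]
    have h2 := abs_log_le hγ hv
    have h3 : |(N : ℝ) * Real.log (av v s)| ≤ N * (δ * logHeight₁ s + C) := by
      rw [abs_mul, abs_of_nonneg (Nat.cast_nonneg (α := ℝ) N)]
      exact mul_le_mul_of_nonneg_left h1 (Nat.cast_nonneg (α := ℝ) N)
    have h4 : (N : ℝ) * logHeight₁ s ≤ logHeight₁ γ + logHeight₁ (γ * s ^ N) := by
      rw [← logHeight₁_pow]
      have h5 : s ^ N = γ⁻¹ * (γ * s ^ N) := by
        rw [← mul_assoc, inv_mul_cancel₀ hγ.1, one_mul]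
      conv_lhs => rw [h5]
      refine (logHeight₁_mul_le _ _).trans ?_
      rw [logHeight₁_inv]
    have h5 := mul_le_mul_of_nonneg_left h4 hδ
    have h6 := abs_add_le (Real.log (av v γ)) (N * Real.log (av v s))
    nlinarith
  ht := by
    intro C t ht h
    obtain ⟨v0⟩ : Nonempty (InfinitePlace K) := inferInstance
    refine ⟨Sum.inl v0, mem_Sp_inl v0, ?_⟩
    have h3 := abs_log_le ht (mem_Sp_inl (S := S) v0)
    have h4 : 0 ≤ δ * logHeight₁ t := mul_nonneg hδ (zero_le_logHeight₁ _)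
    linarith

section

variable {E : ℝ → K → Prop} {G : Cu K → Prop}

theorem Cov.of_imp {P P' : K → K → Prop} (h : Cov S E G P')
    (hP : ∀ t y, IsU S t → P t y → P' t y) : Cov S E G P := by
  obtain ⟨D, C, hD, hC⟩ := h
  exact ⟨D, C, hD, fun t y ht hp => hC t y ht (hP t y ht hp)⟩

theorem Cov.empty {P : K → K → Prop} (h : ∀ t y, IsU S t → ¬ P t y) : Cov S E G P :=
  ⟨∅, 0, fun _ hd => absurd hd (Finset.notMem_empty _), fun t y ht hp => absurd hp (h t y ht)⟩

theorem Cov.bounded (hE : Exc S E) {P : K → K → Prop} (C : ℝ)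
    (h : ∀ t y, IsU S t → P t y → logHeight₁ t ≤ C) : Cov S E G P :=
  ⟨∅, C, fun _ hd => absurd hd (Finset.notMem_empty _), fun t y ht hp =>
    Or.inl (hE.ht C t ht (h t y ht hp))⟩

theorem Cov.curve {P : K → K → Prop} (d : Cu K) (hd : G d)
    (h : ∀ t y, IsU S t → P t y → OnC S d t y) : Cov S E G P :=
  ⟨{d}, 0, fun _ hd' => by rw [Finset.mem_singleton.1 hd']; exact hd, fun t y ht hp =>
    Or.inr ⟨d, Finset.mem_singleton_self d, h t y ht hp⟩⟩

theorem Cov.or (hE : Exc S E) {P P' : K → K → Prop} (h : Cov S E G P) (h' : Cov S E G P') :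
    Cov S E G (fun t y => P t y ∨ P' t y) := by
  classical
  obtain ⟨D, C, hD, hC⟩ := h
  obtain ⟨D', C', hD', hC'⟩ := h'
  refine ⟨D ∪ D', max C C', ?_, ?_⟩
  · intro d hd
    rcases Finset.mem_union.1 hd with h | h
    · exact hD d h
    · exact hD' d h
  · rintro t y ht (hp | hp)
    · rcases hC t y ht hp with h | ⟨d, hd, h⟩
      · exact Or.inl (hE.mono _ _ _ (le_max_left _ _) h)
      · exact Or.inr ⟨d, Finset.mem_union_left _ hd, h⟩
    · rcases hC' t y ht hp with h | ⟨d, hd, h⟩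
      · exact Or.inl (hE.mono _ _ _ (le_max_right _ _) h)
      · exact Or.inr ⟨d, Finset.mem_union_right _ hd, h⟩

theorem Cov.union (hE : Exc S E) {ι : Type} (I : Finset ι) (P : ι → K → K → Prop)
    (h : ∀ i ∈ I, Cov S E G (P i)) : Cov S E G (fun t y => ∃ i ∈ I, P i t y) := by
  classical
  induction I using Finset.induction_on with
  | empty =>
    refine Cov.empty ?_
    rintro t y _ ⟨i, hi, -⟩
    exact absurd hi (Finset.notMem_empty i)
  | insert a I ha ih =>
    refine ((h a (Finset.mem_insert_self a I)).or hE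
      (ih fun i hi => h i (Finset.mem_insert_of_mem hi))).of_imp ?_
    rintro t y _ ⟨i, hi, hp⟩
    rcases Finset.mem_insert.1 hi with rfl | hi
    · exact Or.inl hp
    · exact Or.inr ⟨i, hi, hp⟩

theorem Cov.sub (hE : Exc S E) {G' : Cu K → Prop} {P : K → K → Prop} (h : Cov S E G' P) {γ : Kˣ}
    (hγ : IsU S (γ : K)) (N k : ℕ) (c : K[X]) (hG : ∀ d, G' d → G (subC γ N k c d)) :
    Cov S E G (fun t y => ∃ s y', IsU S s ∧ t = γ * s ^ N ∧ y = s ^ k * y' + c.eval t ∧
      P s y') := by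
  classical
  obtain ⟨D, C, hD, hC⟩ := h
  obtain ⟨C', hC'⟩ := hE.tr γ hγ N C
  refine ⟨D.image (subC γ N k c), C', ?_, ?_⟩
  · intro d hd
    obtain ⟨d', hd', rfl⟩ := Finset.mem_image.1 hd
    exact hG d' (hD d' hd')
  · rintro t y ht ⟨s, y', hs, rfl, rfl, hp⟩
    rcases hC s y' hs hp with h | ⟨d, hd, h⟩
    · exact Or.inl (hC' s hs h)
    · exact Or.inr ⟨_, Finset.mem_image_of_mem _ hd, h.sub⟩

end

/-- representatives of the units modulo powers -/
theorem fv_eq (v : HeightOneSpectrum (𝓞 K)) (x : K) :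
    fv v x = WithZeroMulInt.toNNReal (HeightOneSpectrum.absNorm_ne_zero v) (v.valuation K x) := by
  show (FinitePlace.mk v).1 x = _
  have h1 : (FinitePlace.mk v).1 x = FinitePlace.mk v x := rfl
  rw [h1, FinitePlace.mk_apply, FinitePlace.norm_embedding']

theorem fv_le_one_iff (v : HeightOneSpectrum (𝓞 K)) (x : K) :
    fv v x ≤ 1 ↔ v.valuation K x ≤ 1 := by
  rw [fv_eq, ← WithZeroMulInt.toNNReal_le_one_iff (HeightOneSpectrum.one_lt_absNorm_nnreal v)]
  exact_mod_cast Iff.rfl

theorem fv_eq_one_iff (v : HeightOneSpectrum (𝓞 K)) {x : K} (hx : x ≠ 0) :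
    fv v x = 1 ↔ v.valuation K x = 1 := by
  have hf : 0 < fv v x := (fv v).pos hx
  constructor
  · intro h
    apply le_antisymm ((fv_le_one_iff v x).1 h.le)
    have h1 : fv v x⁻¹ ≤ 1 := by rw [map_inv₀, h, inv_one]
    have h2 := (fv_le_one_iff v _).1 h1
    rw [map_inv₀] at h2
    have h3 : v.valuation K x ≠ 0 := (Valuation.ne_zero_iff _).2 hx
    exact (inv_le_one₀ (zero_lt_iff.2 h3)).1 h2
  · intro h
    apply le_antisymm ((fv_le_one_iff v x).2 h.le)
    have h1 : v.valuation K x⁻¹ ≤ 1 := by rw [map_inv₀, h, inv_one]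
    have h2 := (fv_le_one_iff v _).2 h1
    rw [map_inv₀] at h2
    exact (inv_le_one₀ hf).1 h2

theorem isU_iff (x : Kˣ) : IsU S (x : K) ↔ x ∈ (S : Set (HeightOneSpectrum (𝓞 K))).unit K := by
  constructor
  · intro h v hv
    exact (fv_eq_one_iff v x.ne_zero).1 (h.2 v hv)
  · intro h
    exact ⟨x.ne_zero, fun v hv => (fv_eq_one_iff v x.ne_zero).2 (h v hv)⟩

theorem reps (S : Finset (HeightOneSpectrum (𝓞 K))) {N : ℕ} (hN : 0 < N) :
    ∃ Γ : Finset Kˣ, (∀ γ ∈ Γ, IsU S (γ : K)) ∧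
      ∀ t, IsU S t → ∃ γ ∈ Γ, ∃ s, IsU S s ∧ t = γ * s ^ N := by
  classical
  let U := (S : Set (HeightOneSpectrum (𝓞 K))).unit K
  have hfg : Group.FG U := (Group.fg_iff_subgroup_fg _).2
    (Pool.Agent.H39R3.Tor.sunit_fg K (S : Set (HeightOneSpectrum (𝓞 K))) (Finset.finite_toSet S))
  let H : Subgroup U := (powMonoidHom N : U →* U).range
  have hfin : Finite (U ⧸ H) := by
    have h1 : Group.FG (U ⧸ H) := inferInstance
    refine CommGroup.finite_of_fg_torsion (U ⧸ H) ?_
    intro x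
    rw [isOfFinOrder_iff_pow_eq_one]
    refine ⟨N, hN, ?_⟩
    induction x using QuotientGroup.induction_on with
    | H g =>
      rw [← QuotientGroup.mk_pow, QuotientGroup.eq_one_iff]
      exact ⟨g, rfl⟩
  have hft : Fintype (U ⧸ H) := Fintype.ofFinite _
  refine ⟨Finset.univ.image fun q : U ⧸ H => ((Quotient.out q : U) : Kˣ), ?_, ?_⟩
  · intro γ hγ
    obtain ⟨q, -, rfl⟩ := Finset.mem_image.1 hγ
    exact (isU_iff _).2 (Quotient.out q : U).2
  · intro t ht
    let u : U := ⟨Units.mk0 t ht.1, (isU_iff _).1 ht⟩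
    refine ⟨_, Finset.mem_image_of_mem _ (Finset.mem_univ (QuotientGroup.mk u : U ⧸ H)), ?_⟩
    have h1 : (QuotientGroup.mk (Quotient.out (QuotientGroup.mk u : U ⧸ H)) : U ⧸ H) =
      QuotientGroup.mk u := Quotient.out_eq' _
    rw [QuotientGroup.eq] at h1
    obtain ⟨s, hs⟩ := h1
    refine ⟨((s : Kˣ) : K), (isU_iff _).2 s.2, ?_⟩
    have h2 : u = (Quotient.out (QuotientGroup.mk u : U ⧸ H)) * s ^ N := by
      have h3 : s ^ N = (Quotient.out (QuotientGroup.mk u : U ⧸ H))⁻¹ * u := hs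
      rw [h3, mul_inv_cancel_left]
    have h3 : t = ((u : Kˣ) : K) := rfl
    rw [h3]
    conv_lhs => rw [h2]
    rfl

end Pool.Agent.Run7.h489.LV
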