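import Mathlib
import Pool.Agent.N175.BG.Defs
import Pool.Agent.Y742.SF.Pl
import Pool.Agent.Run7.h489.LV.Cov

set_option autoImplicit false
set_option linter.unusedSectionVars false

/-!
Generators, up to roots, of groups of `S`-units.
-/

namespace Pool.Agent.Run7.h489.LV

open Height NumberField IsDedekindDomain
open Pool.Agent.W180.OP (Pl av wt fv)
open Pool.Agent.N175.BG (InDiv)

section ind

variable {F : Type} [Field F]

/-- a power of `z` is a product of powers of the `g j` -/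
def InD {ι : Type} [Fintype ι] (g : ι → F) (z : F) : Prop :=
  ∃ m : ℕ, 0 < m ∧ ∃ a : ι → ℤ, z ^ m = ∏ j, g j ^ a j

variable {ι : Type} [Fintype ι] {g : ι → F}

theorem InD.one : InD g 1 := ⟨1, one_pos, fun _ => 0, by simp⟩

theorem InD.mul (hg : ∀ j, g j ≠ 0) {z z' : F} (h : InD g z) (h' : InD g z') : InD g (z * z') := by
  obtain ⟨m, hm, a, ha⟩ := h
  obtain ⟨m', hm', a', ha'⟩ := h'
  refine ⟨m * m', Nat.mul_pos hm hm', fun j => a j * m' + a' j * m, ?_⟩
  rw [mul_pow, pow_mul, ha, mul_comm m m', pow_mul, ha', ← Finset.prod_pow, ← Finset.prod_pow,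
    ← Finset.prod_mul_distrib]
  refine Finset.prod_congr rfl fun j _ => ?_
  rw [zpow_add₀ (hg j), zpow_mul, zpow_mul, zpow_natCast, zpow_natCast]

theorem InD.inv {z : F} (h : InD g z) : InD g z⁻¹ := by
  obtain ⟨m, hm, a, ha⟩ := h
  refine ⟨m, hm, fun j => -a j, ?_⟩
  rw [inv_pow, ha, ← Finset.prod_inv_distrib]
  refine Finset.prod_congr rfl fun j _ => ?_
  rw [zpow_neg]

theorem InD.pow {z : F} (h : InD g z) (n : ℕ) : InD g (z ^ n) := by
  obtain ⟨m, hm, a, ha⟩ := h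
  refine ⟨m, hm, fun j => a j * n, ?_⟩
  rw [← pow_mul, mul_comm, pow_mul, ha, ← Finset.prod_pow]
  refine Finset.prod_congr rfl fun j _ => ?_
  rw [zpow_mul, zpow_natCast]

theorem InD.zpow {z : F} (h : InD g z) (n : ℤ) : InD g (z ^ n) := by
  rcases n with n | n
  · rw [Int.ofNat_eq_natCast, zpow_natCast]
    exact h.pow n
  · rw [zpow_negSucc]
    exact (h.pow _).inv

theorem InD.of_pow {z : F} {n : ℕ} (hn : 0 < n) (h : InD g (z ^ n)) : InD g z := by
  obtain ⟨m, hm, a, ha⟩ := h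
  exact ⟨n * m, Nat.mul_pos hn hm, a, by rw [pow_mul, ha]⟩

theorem InD.gen [DecidableEq ι] (j : ι) : InD g (g j) := by
  refine ⟨1, one_pos, Pi.single j 1, ?_⟩
  rw [pow_one, Finset.prod_eq_single j]
  · rw [Pi.single_eq_same, zpow_one]
  · intro i _ hi
    rw [Pi.single_eq_of_ne hi, zpow_zero]
  · intro h
    exact absurd (Finset.mem_univ j) h

theorem InD.prod (hg : ∀ j, g j ≠ 0) {κ : Type} (s : Finset κ) (f : κ → F)
    (h : ∀ i ∈ s, InD g (f i)) : InD g (∏ i ∈ s, f i) := by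
  classical
  induction s using Finset.induction_on with
  | empty => rw [Finset.prod_empty]; exact InD.one
  | insert a s ha ih =>
    rw [Finset.prod_insert ha]
    exact (h a (Finset.mem_insert_self a s)).mul hg (ih fun i hi => h i (Finset.mem_insert_of_mem hi))

theorem InD.toInDiv {z : F} (h : InD g z) {r : ℕ} (e : Fin r ≃ ι) :
    InDiv (fun i => g (e i)) z := by
  obtain ⟨m, hm, a, ha⟩ := h
  refine ⟨m, hm, fun i => a (e i), ?_⟩
  rw [ha]
  exact (Equiv.prod_comp e fun j => g j ^ a j).symm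

end ind

variable {L : Type} [Field L] [NumberField L]

theorem fv_zpow_int (v : HeightOneSpectrum (𝓞 L)) {x : L} (hx : x ≠ 0) :
    ∃ n : ℤ, fv v x = ((Ideal.absNorm v.asIdeal : ℕ) : ℝ) ^ n := by
  have h0 : v.valuation L x ≠ 0 := (Valuation.ne_zero_iff _).2 hx
  refine ⟨(WithZero.unzero h0).toAdd, ?_⟩
  rw [fv_eq, WithZeroMulInt.toNNReal_neg_apply _ h0]
  push_cast
  rfl

/-- a unit of the ring of integers -/
theorem unit_of_isU {x : L} (hx : IsU (∅ : Finset (HeightOneSpectrum (𝓞 L))) x) :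
    ∃ u : (𝓞 L)ˣ, ((u : 𝓞 L) : L) = x := by
  obtain ⟨a, ha⟩ := HeightOneSpectrum.mem_integers_of_valuation_le_one (R := 𝓞 L) L x
    (fun v => (fv_le_one_iff v x).1 (hx.2 v (Finset.notMem_empty v)).le)
  obtain ⟨b, hb⟩ := HeightOneSpectrum.mem_integers_of_valuation_le_one (R := 𝓞 L) L x⁻¹
    (fun v => (fv_le_one_iff v _).1 (hx.inv.2 v (Finset.notMem_empty v)).le)
  have hab : a * b = 1 := by
    apply FaithfulSMul.algebraMap_injective (𝓞 L) L
    rw [map_mul, ha, hb, map_one, mul_inv_cancel₀ hx.1]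
  exact ⟨⟨a, b, hab, by rw [mul_comm]; exact hab⟩, ha⟩

theorem card_inf_le : Fintype.card (InfinitePlace L) ≤ Module.finrank ℚ L := by
  classical
  have h1 := InfinitePlace.card_add_two_mul_card_eq_rank L
  have h2 := InfinitePlace.card_eq_nrRealPlaces_add_nrComplexPlaces L
  omega

/-- generators up to roots of the group of units outside a finite set of primes -/
theorem gens (P : Finset (HeightOneSpectrum (𝓞 L))) :
    ∃ g : (Fin (Units.rank L) ⊕ P) → L, (∀ j, g j ≠ 0) ∧ ∀ x : L, IsU P x → InD g x := by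
  classical
  obtain ⟨h, hh⟩ : ∃ h, h = Fintype.card (ClassGroup (𝓞 L)) := ⟨_, rfl⟩
  have hpos : 0 < h := by rw [hh]; exact Fintype.card_pos
  have hex : ∀ v : HeightOneSpectrum (𝓞 L), ∃ U : 𝓞 L, Ideal.span {U} = v.asIdeal ^ h := by
    intro v
    rw [hh]
    exact Pool.Agent.Y742.SF.exists_gen v
  choose π hπ using hex
  have hπ0 : ∀ v, ((π v : 𝓞 L) : L) ≠ 0 := fun v =>
    RingOfIntegers.coe_ne_zero_iff.2 (Pool.Agent.Y742.SF.gen_ne v h hpos (π v) (hπ v))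
  set g : (Fin (Units.rank L) ⊕ P) → L := Sum.elim
    (fun i => ((Units.fundSystem L i : 𝓞 L) : L)) (fun v => ((π v.1 : 𝓞 L) : L)) with hg
  have hg0 : ∀ j, g j ≠ 0 := by
    rintro (i | v)
    · exact RingOfIntegers.coe_ne_zero_iff.2 (Units.ne_zero _)
    · exact hπ0 v.1
  refine ⟨g, hg0, fun x hx => ?_⟩
  -- units
  have hunit : ∀ u : (𝓞 L)ˣ, InD g ((u : 𝓞 L) : L) := by
    intro u
    obtain ⟨⟨ζ, e⟩, he, -⟩ := Units.exist_unique_eq_mul_prod L u
    let φ : (𝓞 L)ˣ →* Lˣ := Units.map (algebraMap (𝓞 L) L : 𝓞 L →* L)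
    have h1 : ((u : 𝓞 L) : L) = (((ζ : (𝓞 L)ˣ) : 𝓞 L) : L) *
        ∏ i, ((Units.fundSystem L i : 𝓞 L) : L) ^ e i := by
      have h2 : ((φ u : Lˣ) : L) = ((φ (ζ : (𝓞 L)ˣ) : Lˣ) : L) *
          ∏ i, ((φ (Units.fundSystem L i) : Lˣ) : L) ^ e i := by
        conv_lhs => rw [he]
        rw [map_mul, map_prod, _root_.Units.val_mul, _root_.Units.coe_prod]
        congr 1
        refine Finset.prod_congr rfl fun i _ => ?_
        rw [map_zpow, _root_.Units.val_zpow_eq_zpow_val]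
      exact h2
    rw [h1]
    refine InD.mul hg0 ?_ ?_
    · obtain ⟨k, hk, hk1⟩ := isOfFinOrder_iff_pow_eq_one.1 ((CommGroup.mem_torsion _).1 ζ.2)
      refine InD.of_pow (n := k) hk ?_
      have h3 : (((ζ : (𝓞 L)ˣ) : 𝓞 L) : L) ^ k = ((((ζ : (𝓞 L)ˣ) ^ k : (𝓞 L)ˣ) : 𝓞 L) : L) := by
        push_cast
        rfl
      rw [h3, hk1]
      have h4 : ((((1 : (𝓞 L)ˣ)) : 𝓞 L) : L) = 1 := by simp
      rw [h4]
      exact InD.one
    · refine InD.prod hg0 _ _ fun i _ => InD.zpow ?_ _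
      exact InD.gen (g := g) (Sum.inl i)
  -- the exponents
  have hexp : ∀ v : HeightOneSpectrum (𝓞 L), ∃ n : ℤ, fv v (x ^ h) = fv v ((π v : 𝓞 L) : L) ^ n := by
    intro v
    obtain ⟨n, hn⟩ := fv_zpow_int v hx.1
    refine ⟨-n, ?_⟩
    have h1 : fv v ((π v : 𝓞 L) : L) = ((Ideal.absNorm (Ideal.span {π v}) : ℕ) : ℝ)⁻¹ :=
      Pool.Agent.Y742.SF.fv_gen v h hpos (π v) (hπ v)
    rw [h1, hπ v, map_pow, map_pow, hn, Nat.cast_pow, inv_zpow', neg_neg, ← zpow_natCast,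
      ← zpow_natCast, ← zpow_mul, ← zpow_mul, mul_comm]
  choose n hn using hexp
  set y : L := x ^ h * ∏ v : P, (((π v.1 : 𝓞 L) : L) ^ n v.1)⁻¹ with hy
  have hprod0 : ∏ v : P, (((π v.1 : 𝓞 L) : L) ^ n v.1)⁻¹ ≠ 0 :=
    Finset.prod_ne_zero_iff.2 fun v _ => inv_ne_zero (zpow_ne_zero _ (hπ0 v.1))
  have hyU : IsU (∅ : Finset (HeightOneSpectrum (𝓞 L))) y := by
    refine ⟨mul_ne_zero (pow_ne_zero _ hx.1) hprod0, fun v _ => ?_⟩
    rw [hy, map_mul, map_prod]
    have h1 : ∀ w : P, w.1 ≠ v → fv v (((π w.1 : 𝓞 L) : L) ^ n w.1)⁻¹ = 1 := by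
      intro w hw
      have h2 : fv v ((π w.1 : 𝓞 L) : L) = 1 :=
        Pool.Agent.Y742.SF.fv_gen_ne w.1 h hpos (π w.1) (hπ w.1) v (Ne.symm hw)
      rw [map_inv₀, map_zpow₀, h2, one_zpow, inv_one]
    by_cases hv : v ∈ P
    · rw [Finset.prod_eq_single (⟨v, hv⟩ : P)]
      · rw [map_inv₀, map_zpow₀, hn v]
        refine mul_inv_cancel₀ (zpow_ne_zero _ ?_)
        exact ((fv v).ne_zero (hπ0 v))
      · intro w _ hw
        exact h1 w fun h => hw (Subtype.ext h)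
      · intro h
        exact absurd (Finset.mem_univ _) h
    · rw [Finset.prod_eq_one, mul_one, map_pow, hx.2 v hv, one_pow]
      intro w _
      exact h1 w fun h => hv (h ▸ w.2)
  obtain ⟨u, hu⟩ := unit_of_isU hyU
  refine InD.of_pow hpos ?_
  have h1 : x ^ h = y * (∏ v : P, (((π v.1 : 𝓞 L) : L) ^ n v.1)⁻¹)⁻¹ := by
    rw [hy, mul_inv_cancel_right₀ hprod0]
  rw [h1, ← hu]
  refine (hunit u).mul hg0 (InD.inv (InD.prod hg0 _ _ fun v _ => InD.inv (InD.zpow ?_ _)))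
  exact InD.gen (g := g) (Sum.inr v)

end Pool.Agent.Run7.h489.LV
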