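import Mathlib
import Pool.Agent.Run7.h489.LV.Gens

set_option autoImplicit false
set_option linter.unusedSectionVars false

/-!
Counting `S`-units.
-/

namespace Pool.Agent.Run7.h489.LV

open Height NumberField IsDedekindDomain
open Pool.Agent.W180.OP (Pl av wt fv wt_nonneg)
open Pool.Agent.R404.TC (Sp)

variable {K : Type} [Field K] [NumberField K]

theorem log_av_div (v : Pl K) {x y : K} (hx : x ≠ 0) (hy : y ≠ 0) :
    Real.log (av v (x / y)) = Real.log (av v x) - Real.log (av v y) := by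
  rw [map_div₀, Real.log_div ((av v).ne_zero hx) ((av v).ne_zero hy)]

/-- units in a small box are few -/
theorem small_box (S : Finset (HeightOneSpectrum (𝓞 K))) {v1 : Pl K} (hv1 : v1 ∈ Sp S) :
    ∃ B : ℝ, ∀ ρ : K, IsU S ρ → (∀ v ∈ Sp S, v ≠ v1 → |Real.log (av v ρ)| ≤ 1) →
      logHeight₁ ρ ≤ B := by
  classical
  set W : ℝ := ∑ v ∈ Sp S, wt v with hW
  have hW0 : 0 ≤ W := Finset.sum_nonneg fun v _ => wt_nonneg v
  refine ⟨W * (1 + W), fun ρ hρ h => ?_⟩
  have h1 := prod_formula hρ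
  rw [← Finset.add_sum_erase _ _ hv1] at h1
  have h2 : |∑ v ∈ (Sp S).erase v1, wt v * Real.log (av v ρ)| ≤ W := by
    refine (Finset.abs_sum_le_sum_abs _ _).trans ?_
    rw [hW, ← Finset.add_sum_erase _ _ hv1]
    have h3 : ∑ v ∈ (Sp S).erase v1, |wt v * Real.log (av v ρ)| ≤ ∑ v ∈ (Sp S).erase v1, wt v := by
      refine Finset.sum_le_sum fun v hv => ?_
      rw [abs_mul, abs_of_nonneg (wt_nonneg v)]
      have h4 := h v (Finset.mem_of_mem_erase hv) (Finset.ne_of_mem_erase hv)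
      have h5 := mul_le_mul_of_nonneg_left h4 (wt_nonneg v)
      linarith
    have h6 := wt_nonneg v1
    linarith
  have h3 : |Real.log (av v1 ρ)| ≤ W := by
    have h4 : |wt v1 * Real.log (av v1 ρ)| ≤ W := by
      have h5 : wt v1 * Real.log (av v1 ρ) = -∑ v ∈ (Sp S).erase v1, wt v * Real.log (av v ρ) := by
        linarith
      rw [h5, abs_neg]
      exact h2
    rw [abs_mul, abs_of_nonneg (wt_nonneg v1)] at h4
    have h5 := wt_pos v1
    have h6 := abs_nonneg (Real.log (av v1 ρ))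
    nlinarith
  have h4 : ∀ v ∈ Sp S, max 0 (Real.log (av v ρ)) ≤ 1 + W := by
    intro v hv
    refine max_le (by linarith) ?_
    by_cases hvv : v = v1
    · rw [hvv]
      have := le_abs_self (Real.log (av v1 ρ))
      linarith
    · have h5 := h v hv hvv
      have := le_abs_self (Real.log (av v ρ))
      linarith
  rw [height1_eq hρ.isI, hW, Finset.sum_mul]
  exact Finset.sum_le_sum fun v hv => mul_le_mul_of_nonneg_left (h4 v hv) (wt_nonneg v)

theorem card_Icc_floor {x : ℝ} (hx : 0 ≤ x) :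
    ((Finset.Icc ⌊-x⌋ ⌊x⌋).card : ℝ) ≤ 2 * (x + 1) := by
  rw [Int.card_Icc]
  have h1 : (⌊x⌋ : ℝ) ≤ x := Int.floor_le x
  have h2 : -x - 1 < (⌊-x⌋ : ℝ) := Int.sub_one_lt_floor _
  have h3 : ⌊-x⌋ ≤ ⌊x⌋ := Int.floor_le_floor (by linarith)
  have h4 : 0 ≤ ⌊x⌋ + 1 - ⌊-x⌋ := by omega
  have h5 : (((⌊x⌋ + 1 - ⌊-x⌋).toNat : ℕ) : ℝ) = ((⌊x⌋ + 1 - ⌊-x⌋ : ℤ) : ℝ) := by
    have : (((⌊x⌋ + 1 - ⌊-x⌋).toNat : ℕ) : ℤ) = ⌊x⌋ + 1 - ⌊-x⌋ := Int.toNat_of_nonneg h4
    exact_mod_cast this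
  rw [h5]
  push_cast
  linarith

/-- the units near a wall -/
def Wall (S : Finset (HeightOneSpectrum (𝓞 K))) (v0 : Pl K) (T x : ℝ) : Set K :=
  {u : K | IsU S u ∧ logHeight₁ u ≤ T ∧ |Real.log (av v0 u)| ≤ x}

theorem wall_finite (S : Finset (HeightOneSpectrum (𝓞 K))) (v0 : Pl K) (T x : ℝ) :
    (Wall S v0 T x).Finite :=
  (finite_setOfPred_logHeight₁_le K T).subset fun _ h => h.2.1

theorem pack (S : Finset (HeightOneSpectrum (𝓞 K))) (hs : 2 ≤ (Sp S).card) {v0 : Pl K}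
    (hv0 : v0 ∈ Sp S) : ∃ C : ℝ, 0 < C ∧ ∀ T x : ℝ, 0 ≤ T → 0 ≤ x →
      ((Wall S v0 T x).ncard : ℝ) ≤ C * ((T + 1) ^ ((Sp S).card - 2) * (x + 1)) := by
  classical
  obtain ⟨v1, hv1, hv10⟩ : ∃ v1 ∈ Sp S, v1 ≠ v0 := Finset.exists_mem_ne (by omega) v0
  obtain ⟨B, hB⟩ := small_box S hv1
  have hBf := finite_setOfPred_logHeight₁_le K B
  set N0 : ℕ := hBf.toFinset.card + 1 with hN0
  refine ⟨N0 * 2 ^ ((Sp S).card - 1), by positivity, fun T x hT hx => ?_⟩
  set A : Finset K := (wall_finite S v0 T x).toFinset with hA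
  have hAc : (Wall S v0 T x).ncard = A.card := Set.ncard_eq_toFinset_card _ _
  rw [hAc]
  let ι := {v : Pl K // v ∈ (Sp S).erase v1}
  let Φ : K → ι → ℤ := fun u v => ⌊Real.log (av v.1 u)⌋
  let t : ι → Finset ℤ := fun v => if v.1 = v0 then Finset.Icc ⌊-x⌋ ⌊x⌋ else Finset.Icc ⌊-T⌋ ⌊T⌋
  have hmaps : ∀ u ∈ A, Φ u ∈ Fintype.piFinset t := by
    intro u hu
    obtain ⟨h1, h2, h3⟩ := (Set.Finite.mem_toFinset _).1 hu
    rw [Fintype.mem_piFinset]
    intro v
    by_cases hv : v.1 = v0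
    · have e : t v = Finset.Icc ⌊-x⌋ ⌊x⌋ := if_pos hv
      rw [e, Finset.mem_Icc]
      have h4 := abs_le.1 h3
      have e2 : Φ u v = ⌊Real.log (av v0 u)⌋ := by
        show ⌊Real.log (av v.1 u)⌋ = _
        rw [hv]
      rw [e2]
      exact ⟨Int.floor_le_floor h4.1, Int.floor_le_floor h4.2⟩
    · have e : t v = Finset.Icc ⌊-T⌋ ⌊T⌋ := if_neg hv
      rw [e, Finset.mem_Icc]
      have h4 := abs_le.1 ((abs_log_le h1 (Finset.mem_of_mem_erase v.2)).trans h2)
      exact ⟨Int.floor_le_floor h4.1, Int.floor_le_floor h4.2⟩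
  have hfib : ∀ b ∈ Fintype.piFinset t, (A.filter fun u => Φ u = b).card ≤ N0 := by
    intro b _
    rcases (A.filter fun u => Φ u = b).eq_empty_or_nonempty with h0 | ⟨u0, hu0⟩
    · rw [h0, Finset.card_empty]
      exact Nat.zero_le _
    · obtain ⟨hu0A, hu0b⟩ := Finset.mem_filter.1 hu0
      have hU0 : IsU S u0 := ((Set.Finite.mem_toFinset _).1 hu0A).1
      refine le_trans ?_ (Nat.le_succ hBf.toFinset.card)
      refine Finset.card_le_card_of_injOn (fun u => u / u0) ?_ ?_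
      · intro u hu
        obtain ⟨huA, hub⟩ := Finset.mem_filter.1 hu
        have hU : IsU S u := ((Set.Finite.mem_toFinset _).1 huA).1
        rw [Finset.mem_coe, Set.Finite.mem_toFinset]
        refine hB _ (hU.div hU0) fun v hv hvv => ?_
        rw [log_av_div v hU.1 hU0.1]
        have h1 : ⌊Real.log (av v u)⌋ = ⌊Real.log (av v u0)⌋ :=
          congrFun (hub.trans hu0b.symm) ⟨v, Finset.mem_erase.2 ⟨hvv, hv⟩⟩
        exact (Int.abs_sub_lt_one_of_floor_eq_floor h1).le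
      · intro u _ u' _ h
        exact (div_left_inj' hU0.1).1 h
  have h1 := Finset.card_le_mul_card_image_of_maps_to hmaps N0 hfib
  have h2 : ((Fintype.piFinset t).card : ℝ) ≤
      2 ^ ((Sp S).card - 1) * ((T + 1) ^ ((Sp S).card - 2) * (x + 1)) := by
    rw [Fintype.card_piFinset, Nat.cast_prod]
    have hv0' : v0 ∈ (Sp S).erase v1 := Finset.mem_erase.2 ⟨hv10.symm, hv0⟩
    let w0 : ι := ⟨v0, hv0'⟩
    rw [← Finset.mul_prod_erase _ _ (Finset.mem_univ w0)]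
    have e0 : ((t w0).card : ℝ) ≤ 2 * (x + 1) := by
      have e : t w0 = Finset.Icc ⌊-x⌋ ⌊x⌋ := if_pos rfl
      rw [e]
      exact card_Icc_floor hx
    have e1 : ∏ v ∈ Finset.univ.erase w0, ((t v).card : ℝ) ≤ ∏ _v ∈ Finset.univ.erase w0, (2 * (T + 1)) := by
      refine Finset.prod_le_prod (fun _ _ => Nat.cast_nonneg _) fun v hv => ?_
      have e : t v = Finset.Icc ⌊-T⌋ ⌊T⌋ := if_neg fun h => Finset.ne_of_mem_erase hv (Subtype.ext h)
      rw [e]
      exact card_Icc_floor hT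
    have hcard : (Finset.univ.erase w0 : Finset ι).card = (Sp S).card - 2 := by
      rw [Finset.card_erase_of_mem (Finset.mem_univ _), Finset.card_univ]
      have : Fintype.card ι = ((Sp S).erase v1).card := Fintype.card_coe _
      rw [this, Finset.card_erase_of_mem hv1]
      omega
    rw [Finset.prod_const, hcard] at e1
    have e2 : (0 : ℝ) ≤ ∏ v ∈ Finset.univ.erase w0, ((t v).card : ℝ) :=
      Finset.prod_nonneg fun _ _ => Nat.cast_nonneg _
    calc ((t w0).card : ℝ) * ∏ v ∈ Finset.univ.erase w0, ((t v).card : ℝ) ≤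
          (2 * (x + 1)) * (2 * (T + 1)) ^ ((Sp S).card - 2) :=
        mul_le_mul e0 e1 e2 (by positivity)
      _ = 2 ^ ((Sp S).card - 1) * ((T + 1) ^ ((Sp S).card - 2) * (x + 1)) := by
        have e3 : (Sp S).card - 1 = (Sp S).card - 2 + 1 := by omega
        rw [e3, pow_succ, mul_pow]
        ring
  calc (A.card : ℝ) ≤ ((N0 * (Fintype.piFinset t).card : ℕ) : ℝ) := by exact_mod_cast h1
    _ = (N0 : ℝ) * ((Fintype.piFinset t).card : ℝ) := by push_cast; ring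
    _ ≤ (N0 : ℝ) * (2 ^ ((Sp S).card - 1) * ((T + 1) ^ ((Sp S).card - 2) * (x + 1))) :=
      mul_le_mul_of_nonneg_left h2 (Nat.cast_nonneg _)
    _ = _ := by ring

end Pool.Agent.Run7.h489.LV
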