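import Mathlib
import Pool.Agent.Run7.h489.LV.Pack

set_option autoImplicit false
set_option linter.unusedSectionVars false

/-!
A lower bound for the number of `S`-units.
-/

namespace Pool.Agent.Run7.h489.LV

open Height NumberField IsDedekindDomain
open Pool.Agent.W180.OP (Pl av wt fv wt_nonneg)
open Pool.Agent.R404.TC (Sp)

variable {K : Type} [Field K] [NumberField K]

theorem fv_unit (v : HeightOneSpectrum (𝓞 K)) (u : (𝓞 K)ˣ) : fv v ((u : 𝓞 K) : K) = 1 := by
  have h1 : ∀ u : (𝓞 K)ˣ, fv v ((u : 𝓞 K) : K) ≤ 1 := fun u =>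
    (fv_le_one_iff v _).2 (v.valuation_le_one _)
  have h2 := h1 u⁻¹
  have h3 : (((u⁻¹ : (𝓞 K)ˣ) : 𝓞 K) : K) = (((u : 𝓞 K) : K))⁻¹ := by
    refine eq_inv_of_mul_eq_one_left ?_
    rw [← map_mul, ← _root_.Units.val_mul, inv_mul_cancel, _root_.Units.val_one, map_one]
  rw [h3, map_inv₀] at h2
  have h4 : 0 < fv v ((u : 𝓞 K) : K) :=
    (fv v).pos (RingOfIntegers.coe_ne_zero_iff.2 (Units.ne_zero u))
  exact le_antisymm (h1 u) ((inv_le_one₀ h4).1 h2)

/-- independent units -/
theorem indep (S : Finset (HeightOneSpectrum (𝓞 K))) :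
    ∃ g : (Fin (Units.rank K) ⊕ S) → K, (∀ j, IsU S (g j)) ∧
      Function.Injective fun a : (Fin (Units.rank K) ⊕ S) → ℤ => ∏ j, g j ^ a j := by
  classical
  obtain ⟨h, hh⟩ : ∃ h, h = Fintype.card (ClassGroup (𝓞 K)) := ⟨_, rfl⟩
  have hpos : 0 < h := by rw [hh]; exact Fintype.card_pos
  have hex : ∀ v : HeightOneSpectrum (𝓞 K), ∃ U : 𝓞 K, Ideal.span {U} = v.asIdeal ^ h := by
    intro v
    rw [hh]
    exact Pool.Agent.Y742.SF.exists_gen v
  choose π hπ using hex
  have hπ0 : ∀ v, ((π v : 𝓞 K) : K) ≠ 0 := fun v =>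
    RingOfIntegers.coe_ne_zero_iff.2 (Pool.Agent.Y742.SF.gen_ne v h hpos (π v) (hπ v))
  have hπ1 : ∀ v w, w ≠ v → fv w ((π v : 𝓞 K) : K) = 1 := fun v w hw =>
    Pool.Agent.Y742.SF.fv_gen_ne v h hpos (π v) (hπ v) w hw
  have hπ2 : ∀ v, fv v ((π v : 𝓞 K) : K) ≠ 1 := by
    intro v h1
    have h2 : fv v ((π v : 𝓞 K) : K) = ((Ideal.absNorm (Ideal.span {π v}) : ℕ) : ℝ)⁻¹ :=
      Pool.Agent.Y742.SF.fv_gen v h hpos (π v) (hπ v)
    have h3 := Pool.Agent.Y742.SF.one_lt_gen v h hpos (π v) (hπ v)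
    rw [h2, inv_eq_one] at h1
    have h4 : Ideal.absNorm (Ideal.span {π v}) = 1 := by exact_mod_cast h1
    omega
  set g : (Fin (Units.rank K) ⊕ S) → K := Sum.elim
    (fun i => ((Units.fundSystem K i : 𝓞 K) : K)) (fun v => ((π v.1 : 𝓞 K) : K)) with hg
  have hgU : ∀ j, IsU S (g j) := by
    rintro (i | v)
    · exact ⟨RingOfIntegers.coe_ne_zero_iff.2 (Units.ne_zero _), fun v _ => fv_unit v _⟩
    · exact ⟨hπ0 v.1, fun w hw => hπ1 v.1 w fun h => hw (h ▸ v.2)⟩
  refine ⟨g, hgU, ?_⟩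
  intro a b hab
  have hab' : ∏ j, g j ^ a j = ∏ j, g j ^ b j := hab
  have hval : ∀ (v : S) (c : (Fin (Units.rank K) ⊕ S) → ℤ),
      fv v.1 (∏ j, g j ^ c j) = fv v.1 ((π v.1 : 𝓞 K) : K) ^ c (Sum.inr v) := by
    intro v c
    rw [map_prod, Finset.prod_eq_single (Sum.inr v)]
    · rw [map_zpow₀]
      rfl
    · rintro (i | w) _ hne
      · rw [map_zpow₀]
        have : fv v.1 (g (Sum.inl i)) = 1 := fv_unit v.1 _
        rw [this, one_zpow]
      · rw [map_zpow₀]
        have : fv v.1 (g (Sum.inr w)) = 1 := hπ1 w.1 v.1 fun h => hne (by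
          rw [Subtype.ext h])
        rw [this, one_zpow]
    · intro h
      exact absurd (Finset.mem_univ _) h
  have hr : ∀ v : S, a (Sum.inr v) = b (Sum.inr v) := by
    intro v
    have h1 := hval v a
    rw [hab', hval v b] at h1
    exact (zpow_right_injective₀ ((fv v.1).pos (hπ0 v.1)) (hπ2 v.1) h1).symm
  have hl : (fun i => a (Sum.inl i)) = fun i => b (Sum.inl i) := by
    rw [Fintype.prod_sum_type, Fintype.prod_sum_type] at hab'
    have h1 : ∏ v : S, g (Sum.inr v) ^ a (Sum.inr v) = ∏ v : S, g (Sum.inr v) ^ b (Sum.inr v) :=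
      Finset.prod_congr rfl fun v _ => by rw [hr v]
    have h2 : ∏ v : S, g (Sum.inr v) ^ b (Sum.inr v) ≠ 0 :=
      Finset.prod_ne_zero_iff.2 fun v _ => zpow_ne_zero _ (hgU _).1
    rw [h1] at hab'
    have h3 := mul_right_cancel₀ h2 hab'
    have h4 : ∀ c : Fin (Units.rank K) → ℤ, ∏ i, g (Sum.inl i) ^ c i =
        (((∏ i, Units.fundSystem K i ^ c i : (𝓞 K)ˣ) : 𝓞 K) : K) := by
      intro c
      let φ : (𝓞 K)ˣ →* Kˣ := Units.map (algebraMap (𝓞 K) K : 𝓞 K →* K)
      have h5 : ((φ (∏ i, Units.fundSystem K i ^ c i) : Kˣ) : K) =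
          ∏ i, ((φ (Units.fundSystem K i) : Kˣ) : K) ^ c i := by
        rw [map_prod, _root_.Units.coe_prod]
        refine Finset.prod_congr rfl fun i _ => ?_
        rw [map_zpow, _root_.Units.val_zpow_eq_zpow_val]
      exact h5.symm
    rw [h4, h4] at h3
    have h5 : (∏ i, Units.fundSystem K i ^ a (Sum.inl i) : (𝓞 K)ˣ) =
        ∏ i, Units.fundSystem K i ^ b (Sum.inl i) := by
      apply Units.ext
      exact RingOfIntegers.coe_injective h3
    obtain ⟨e, -, he⟩ := Units.exist_unique_eq_mul_prod K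
      (∏ i, Units.fundSystem K i ^ a (Sum.inl i))
    have h6 := he ((1 : Units.torsion K), fun i => a (Sum.inl i)) (by simp)
    have h7 := he ((1 : Units.torsion K), fun i => b (Sum.inl i)) (by simp [h5])
    have h8 := h6.trans h7.symm
    exact (Prod.mk.injEq _ _ _ _ ▸ h8).2
  funext j
  rcases j with i | v
  · exact congrFun hl i
  · exact hr v

theorem height_prod_le {ι : Type} (s : Finset ι) (f : ι → K) :
    logHeight₁ (∏ i ∈ s, f i) ≤ ∑ i ∈ s, logHeight₁ (f i) := by
  classical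
  induction s using Finset.induction_on with
  | empty => simp
  | insert a s ha ih =>
    rw [Finset.prod_insert ha, Finset.sum_insert ha]
    exact (logHeight₁_mul_le _ _).trans (by linarith)

/-- the units of bounded height -/
def Un (S : Finset (HeightOneSpectrum (𝓞 K))) (T : ℝ) : Set K :=
  {u : K | IsU S u ∧ logHeight₁ u ≤ T}

theorem un_finite (S : Finset (HeightOneSpectrum (𝓞 K))) (T : ℝ) : (Un S T).Finite :=
  (finite_setOfPred_logHeight₁_le K T).subset fun _ h => h.2

theorem many (S : Finset (HeightOneSpectrum (𝓞 K))) :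
    ∃ c : ℝ, 0 < c ∧ ∀ T : ℝ, 0 ≤ T → c * T ^ ((Sp S).card - 1) ≤ (Un S T).ncard := by
  classical
  obtain ⟨g, hgU, hinj⟩ := indep S
  have hcard : Fintype.card (Fin (Units.rank K) ⊕ S) = (Sp S).card - 1 := by
    rw [Fintype.card_sum, Fintype.card_fin, Fintype.card_coe]
    have h1 : (Sp S).card = Fintype.card (InfinitePlace K) + S.card := by
      show (Finset.disjSum _ _).card = _
      rw [Finset.card_disjSum, Finset.card_univ]
    have h2 : Units.rank K = Fintype.card (InfinitePlace K) - 1 := rfl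
    have h3 : 0 < Fintype.card (InfinitePlace K) := Fintype.card_pos
    omega
  set M : ℝ := ∑ j, logHeight₁ (g j) with hM
  have hM0 : 0 ≤ M := Finset.sum_nonneg fun j _ => zero_le_logHeight₁ _
  refine ⟨(1 / (M + 1)) ^ ((Sp S).card - 1), by positivity, fun T hT => ?_⟩
  set m : ℕ := ⌊T / (M + 1)⌋₊ with hm
  have hmT : (m : ℝ) * M ≤ T := by
    have h1 : (m : ℝ) ≤ T / (M + 1) := Nat.floor_le (by positivity)
    have h2 : (m : ℝ) * (M + 1) ≤ T := (le_div_iff₀ (by positivity)).1 h1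
    nlinarith [Nat.cast_nonneg (α := ℝ) m]
  set B : Finset ((Fin (Units.rank K) ⊕ S) → ℤ) := Fintype.piFinset fun _ => Finset.Icc (-(m : ℤ)) m with hB
  have hBc : B.card = (2 * m + 1) ^ ((Sp S).card - 1) := by
    rw [hB, Fintype.card_piFinset, Finset.prod_const, Finset.card_univ, hcard, Int.card_Icc]
    congr 1
    omega
  have hle : B.card ≤ (Un S T).ncard := by
    rw [Set.ncard_eq_toFinset_card _ (un_finite S T)]
    refine Finset.card_le_card_of_injOn (fun a => ∏ j, g j ^ a j) ?_ hinj.injOn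
    intro a ha
    rw [Finset.mem_coe, Set.Finite.mem_toFinset]
    refine ⟨?_, ?_⟩
    · have : ∀ s : Finset (Fin (Units.rank K) ⊕ S), IsU S (∏ j ∈ s, g j ^ a j) := by
        intro s
        induction s using Finset.induction_on with
        | empty => rw [Finset.prod_empty]; exact IsU.one
        | insert b s hb ih =>
          rw [Finset.prod_insert hb]
          exact ((hgU b).zpow _).mul ih
      exact this _
    · refine (height_prod_le _ _).trans (le_trans ?_ hmT)
      rw [hM, Finset.mul_sum]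
      refine Finset.sum_le_sum fun j _ => ?_
      rw [logHeight₁_zpow]
      refine mul_le_mul_of_nonneg_right ?_ (zero_le_logHeight₁ _)
      have h1 := Finset.mem_Icc.1 (Fintype.mem_piFinset.1 ha j)
      have h2 : (a j).natAbs ≤ m := by omega
      exact_mod_cast h2
  have h1 : T / (M + 1) ≤ 2 * m + 1 := by
    have h2 : T / (M + 1) < m + 1 := Nat.lt_floor_add_one _
    have h3 : (0 : ℝ) ≤ m := Nat.cast_nonneg _
    linarith
  calc (1 / (M + 1)) ^ ((Sp S).card - 1) * T ^ ((Sp S).card - 1) =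
        (T / (M + 1)) ^ ((Sp S).card - 1) := by
        rw [← mul_pow]
        congr 1
        ring
    _ ≤ (2 * m + 1) ^ ((Sp S).card - 1) := pow_le_pow_left₀ (by positivity) h1 _
    _ = (B.card : ℝ) := by rw [hBc]; push_cast; rfl
    _ ≤ (Un S T).ncard := by exact_mod_cast hle

end Pool.Agent.Run7.h489.LV
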